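import Pool.Agent.K3h34.DX.Equiv

set_option autoImplicit false

/-!
# The statements in terms of the xi function
-/

namespace Pool.Agent.K3h34.DX

open Complex Filter Topology MeasureTheory Set
open Pool.Agent.H24R2.JP

noncomputable section

/-- The Riemann xi function `s (s - 1) π^(-s/2) Γ(s/2) ζ(s) / 2`, as an entire function. -/
def xi (s : ℂ) : ℂ := s * (s - 1) / 2 * completedRiemannZeta₀ s + 1 / 2

/-- Hermite-Biehler multipliers with respect to the critical line. -/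
def HB (E : ℂ → ℂ) : Prop := Differentiable ℂ E ∧ (∀ s : ℂ, 1 / 2 ≤ s.re → E s ≠ 0) ∧
  ∀ s : ℂ, 1 / 2 < s.re → ‖E (1 - (starRingEnd ℂ) s)‖ ≤ ‖E s‖

/-- `E(s) ξ(s + h) + conj E(1 - conj s) ξ(s - h)` -/
def F (E : ℂ → ℂ) (h : ℝ) (s : ℂ) : ℂ :=
  E s * xi (s + h) + (starRingEnd ℂ) (E (1 - (starRingEnd ℂ) s)) * xi (s - h)

/-- the multiplier `e^{iθ} e^{κ (s - 1/2)}` -/
def Ex (θ κ : ℝ) (s : ℂ) : ℂ := cexp (I * θ + κ * (s - 1 / 2))

def Zer (E : ℂ → ℂ) (h T : ℝ) : Set ℂ := {s | F E h s = 0 ∧ T < s.im ∧ s.im ≤ 2 * T}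

def Exc (E : ℂ → ℂ) (h T : ℝ) : Set ℂ := {s | s ∈ Zer E h T ∧ (s.re ≠ 1 / 2 ∨ deriv (F E h) s = 0)}

def num (f : ℂ → ℂ) (A : Set ℂ) : ℕ := ∑ᶠ s ∈ A, analyticOrderNatAt f s

/-- the window of half-length `5h` around the height `t` -/
def Fine (ε h T t : ℝ) : Prop :=
  (∀ E : ℂ → ℂ, HB E →
    (∀ s : ℂ, F E h s = 0 → |s.im - t| ≤ 5 * h → s.re = 1 / 2 ∧ deriv (F E h) s ≠ 0) ∧
    ∀ a b : ℝ, t - 5 * h ≤ a → b ≤ t + 5 * h → (1 + ε) * (2 * Real.pi / Real.log T) ≤ b - a →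
      ∃ y ∈ Icc a b, F E h (1 / 2 + I * y) = 0) ∧
  ∀ θ κ : ℝ, 0 ≤ κ →
    (∀ a b : ℝ, t - 5 * h ≤ a → a < b → b ≤ t + 5 * h → F (Ex θ κ) h (1 / 2 + I * a) = 0 →
      F (Ex θ κ) h (1 / 2 + I * b) = 0 → (1 - ε) * (2 * Real.pi / (Real.log T + 2 * κ)) ≤ b - a) ∧
    ∀ a b : ℝ, t - 5 * h ≤ a → b ≤ t + 5 * h → (1 + ε) * (2 * Real.pi / (Real.log T + 2 * κ)) ≤ b - a →
      ∃ y ∈ Icc a b, F (Ex θ κ) h (1 / 2 + I * y) = 0

lemma xi_XX (z : ℂ) : xi (1 / 2 + z) = XX z / 8 := by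
  unfold xi XX
  ring

lemma xi_XX' (s : ℂ) : xi s = XX (s - 1 / 2) / 8 := by
  have := xi_XX (s - 1 / 2)
  rwa [show (1 / 2 + (s - 1 / 2) : ℂ) = s by ring] at this

/-- the multiplier in the variable `z` -/
def toz (E : ℂ → ℂ) (z : ℂ) : ℂ := E (1 / 2 + z)

lemma refl_pt (z : ℂ) : 1 - (starRingEnd ℂ) (1 / 2 + z) = 1 / 2 + -(starRingEnd ℂ) z := by
  rw [map_add]
  have : (starRingEnd ℂ) (1 / 2 : ℂ) = 1 / 2 := by
    rw [map_div₀, map_one, Complex.conj_ofNat]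
  rw [this]; ring

lemma toz_HB {E : ℂ → ℂ} (hE : HB E) : HBz (toz E) := by
  obtain ⟨h1, h2, h3⟩ := hE
  refine ⟨h1.comp (by fun_prop), fun z hz => h2 _ (by simp; exact hz), fun z hz => ?_⟩
  have := h3 (1 / 2 + z) (by simp; exact hz)
  rw [refl_pt] at this
  exact this

lemma F_FE (E : ℂ → ℂ) (h : ℝ) (z : ℂ) : F E h (1 / 2 + z) = FE (toz E) h z / 8 := by
  rw [FE_eq]
  unfold F toz
  rw [refl_pt, show (1 / 2 + z + h : ℂ) = 1 / 2 + (z + h) by ring, xi_XX,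
    show (1 / 2 + z - h : ℂ) = 1 / 2 + (z - h) by ring, xi_XX]
  ring

lemma F_fun (E : ℂ → ℂ) (h : ℝ) : F E h = fun s => (1 / 8 : ℂ) * FE (toz E) h (s - 1 / 2) := by
  funext s
  have := F_FE E h (s - 1 / 2)
  rw [show (1 / 2 + (s - 1 / 2) : ℂ) = s by ring] at this
  rw [this]; ring

lemma F_zero (E : ℂ → ℂ) (h : ℝ) (s : ℂ) : F E h s = 0 ↔ FE (toz E) h (s - 1 / 2) = 0 := by
  rw [F_fun]
  simp

lemma F_ord {E : ℂ → ℂ} (hE : HB E) {h : ℝ} (hh : 0 < h) (s : ℂ) :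
    analyticOrderNatAt (F E h) s = analyticOrderNatAt (FE (toz E) h) (s - 1 / 2) := by
  have hz := FE_ent (toz_HB hE) hh
  have hent : Ent (fun s : ℂ => FE (toz E) h (s - 1 / 2)) := by
    obtain ⟨w, hw⟩ := hz.ne
    exact ⟨hz.diff.comp (by fun_prop), ⟨w + 1 / 2, by simpa using hw⟩⟩
  rw [F_fun, ord_const_mul hent (by norm_num)]
  have h1 : analyticOrderAt (FE (toz E) h ∘ fun s : ℂ => s - 1 / 2) s = analyticOrderAt (FE (toz E) h) (s - 1 / 2) := by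
    apply analyticOrderAt_comp_of_deriv_ne_zero
    · fun_prop
    · simp
  unfold analyticOrderNatAt
  exact congrArg ENat.toNat h1

lemma F_ent {E : ℂ → ℂ} (hE : HB E) {h : ℝ} (hh : 0 < h) : Ent (F E h) := by
  have hz := FE_ent (toz_HB hE) hh
  refine ⟨?_, ?_⟩
  · rw [F_fun]
    exact (hz.diff.comp (by fun_prop)).const_mul _
  · obtain ⟨w, hw⟩ := hz.ne
    refine ⟨w + 1 / 2, ?_⟩
    rw [Ne, F_zero]
    simpa using hw

/-- a zero is simple iff the derivative does not vanish -/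
lemma ord_deriv {f : ℂ → ℂ} (hf : Ent f) {s : ℂ} (h0 : f s = 0) :
    deriv f s = 0 ↔ 2 ≤ analyticOrderNatAt f s := by
  have ha := hf.diff.analyticAt s
  constructor
  · intro hd
    by_contra hcon
    have h1 := ord_pos hf h0
    have h2 : analyticOrderNatAt f s = 1 := by omega
    have h3 := ha.analyticOrderAt_deriv_add_one
    have h4 : (fun z => f z - f s) = f := by funext z; rw [h0, sub_zero]
    rw [h4] at h3
    have h5 : analyticOrderAt f s = 1 := by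
      have := Nat.cast_analyticOrderNatAt (hf.top s)
      rw [h2] at this
      exact_mod_cast this.symm
    rw [h5] at h3
    have h6 : analyticOrderAt (deriv f) s = 0 := by
      have h7 : analyticOrderAt (deriv f) s + 1 = 0 + 1 := by rw [h3]; rfl
      exact (ENat.add_left_injective_of_ne_top (by simp)) h7
    exact (ha.deriv.analyticOrderAt_eq_zero.1 h6) hd
  · intro h2
    by_contra hd
    have h3 := ha.analyticOrderAt_eq_one_of_zero_deriv_ne_zero h0 hd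
    unfold analyticOrderNatAt at h2
    rw [h3] at h2
    exact absurd h2 (by norm_num)

lemma Zer_image (E : ℂ → ℂ) (h T : ℝ) : Zer E h T = (fun z : ℂ => 1 / 2 + z) '' ZD (toz E) h T := by
  ext s
  constructor
  · rintro ⟨h1, h2, h3⟩
    refine ⟨s - 1 / 2, ⟨(F_zero E h s).1 h1, ?_, ?_⟩, by ring⟩
    · simpa using h2
    · simpa using h3
  · rintro ⟨z, ⟨h1, h2, h3⟩, rfl⟩
    refine ⟨(F_zero E h _).2 ?_, ?_, ?_⟩
    · rw [show (1 / 2 + z - 1 / 2 : ℂ) = z by ring]; exact h1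
    · simpa using h2
    · simpa using h3

lemma Exc_image {E : ℂ → ℂ} (hE : HB E) {h : ℝ} (hh : 0 < h) (T : ℝ) :
    Exc E h T = (fun z : ℂ => 1 / 2 + z) '' XD (toz E) h T := by
  ext s
  constructor
  · rintro ⟨h1, h4⟩
    have h1' := h1
    rw [Zer_image] at h1'
    obtain ⟨z, hz, rfl⟩ := h1'
    refine ⟨z, ⟨hz, ?_⟩, rfl⟩
    rcases h4 with h4 | h4
    · left
      intro h5
      apply h4
      simp [h5]
    · right
      rw [ord_deriv (F_ent hE hh) h1.1, F_ord hE hh] at h4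
      rwa [show (1 / 2 + z - 1 / 2 : ℂ) = z by ring] at h4
  · rintro ⟨z, ⟨hz, h4⟩, rfl⟩
    have h1 : (1 / 2 + z : ℂ) ∈ Zer E h T := by
      rw [Zer_image]; exact ⟨z, hz, rfl⟩
    refine ⟨h1, ?_⟩
    rcases h4 with h4 | h4
    · left
      intro h5
      apply h4
      simpa using h5
    · right
      rw [ord_deriv (F_ent hE hh) h1.1, F_ord hE hh]
      rwa [show (1 / 2 + z - 1 / 2 : ℂ) = z by ring]

lemma num_image {E : ℂ → ℂ} (hE : HB E) {h : ℝ} (hh : 0 < h) (U : Set ℂ) :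
    num (F E h) ((fun z : ℂ => 1 / 2 + z) '' U) = cnt (FE (toz E) h) U := by
  unfold num cnt
  rw [finsum_mem_image (fun a _ b _ hab => add_left_cancel hab)]
  refine finsum_congr fun z => ?_
  rw [F_ord hE hh, show (1 / 2 + z - 1 / 2 : ℂ) = z by ring]

lemma toz_Ex (θ κ : ℝ) : toz (Ex θ κ) = EE θ κ := by
  funext z
  unfold toz Ex EE
  rw [show (1 / 2 + z - 1 / 2 : ℂ) = z by ring]

lemma simple_iff {E : ℂ → ℂ} (hE : HB E) {h : ℝ} (hh : 0 < h) {s : ℂ} (h0 : F E h s = 0)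
    (h1 : analyticOrderNatAt (FE (toz E) h) (s - 1 / 2) = 1) : deriv (F E h) s ≠ 0 := by
  intro h2
  rw [ord_deriv (F_ent hE hh) h0, F_ord hE hh, h1] at h2
  omega

lemma fine_of_fineZ {ε h T t : ℝ} (hh : 0 < h) (hf : FineZ ε h T t) : Fine ε h T t := by
  have hz : ∀ (E : ℂ → ℂ) (y : ℝ), F E h (1 / 2 + I * y) = 0 ↔ FE (toz E) h (I * y) = 0 := by
    intro E y
    rw [F_zero, show (1 / 2 + I * (y : ℂ) - 1 / 2 : ℂ) = I * y by ring]
  refine ⟨fun E hE => ?_, fun θ κ hκ => ?_⟩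
  · obtain ⟨h1, h2⟩ := hf.1 (toz E) (toz_HB hE)
    refine ⟨fun s hs hst => ?_, fun a b ha hb hab => ?_⟩
    · obtain ⟨h3, h4⟩ := h1 (s - 1 / 2) ((F_zero E h s).1 hs) (by simpa using hst)
      refine ⟨?_, simple_iff hE hh hs h4⟩
      simp at h3
      linarith
    · obtain ⟨y, hy, hy0⟩ := h2 a b ha hb hab
      exact ⟨y, hy, (hz E y).2 hy0⟩
  · obtain ⟨h1, h2⟩ := hf.2 θ κ hκ
    refine ⟨fun a b ha hab hb h3 h4 => ?_, fun a b ha hb hab => ?_⟩
    · rw [hz, toz_Ex] at h3 h4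
      exact h1 a b ha hab hb h3 h4
    · obtain ⟨y, hy, hy0⟩ := h2 a b ha hb hab
      refine ⟨y, hy, (hz _ y).2 ?_⟩
      rw [toz_Ex]
      exact hy0

lemma HB_one : HB (fun _ => 1) := ⟨differentiable_const _, fun _ _ => one_ne_zero, fun _ _ => le_rfl⟩

lemma xi_ord (z : ℂ) : analyticOrderNatAt xi (1 / 2 + z) = analyticOrderNatAt XX z := by
  have e : xi = fun s => (1 / 8 : ℂ) * XX (s - 1 / 2) := by
    funext s; rw [xi_XX']; ring
  have hent : Ent (fun s : ℂ => XX (s - 1 / 2)) := by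
    obtain ⟨w, hw⟩ := XX_ent.ne
    exact ⟨XX_ent.diff.comp (by fun_prop), ⟨w + 1 / 2, by simpa using hw⟩⟩
  rw [e, ord_const_mul hent (by norm_num)]
  have h1 : analyticOrderAt (XX ∘ fun s : ℂ => s - 1 / 2) (1 / 2 + z) = analyticOrderAt XX (1 / 2 + z - 1 / 2) := by
    apply analyticOrderAt_comp_of_deriv_ne_zero
    · fun_prop
    · simp
  rw [show (1 / 2 + z - 1 / 2 : ℂ) = z by ring] at h1
  unfold analyticOrderNatAt
  exact congrArg ENat.toNat h1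

lemma num_xi (U : Set ℂ) : num xi ((fun z : ℂ => 1 / 2 + z) '' U) = cnt XX U := by
  unfold num cnt
  rw [finsum_mem_image (fun a _ b _ hab => add_left_cancel hab)]
  refine finsum_congr fun z => ?_
  rw [xi_ord]

/-- `Y` is farther than `Re ρ - 1/2` from the height of every zero `ρ` with `Re ρ ≥ 1/2 + h` -/
def Far (h Y : ℝ) : Prop := ∀ ρ : ℂ, xi ρ = 0 → 1 / 2 + h ≤ ρ.re → ρ.re - 1 / 2 < |Y - ρ.im|

lemma clr_of_far {h Y : ℝ} (hf : Far h Y) : Clr h Y := by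
  have key : ∀ b : ℂ, XX b = 0 → h ≤ b.re → b.re < |Y - b.im| := by
    intro b hb hbr
    have := hf (1 / 2 + b) (by rw [xi_XX, hb, zero_div]) (by simp; exact hbr)
    simpa using this
  intro b hb hbr
  rcases le_total 0 b.re with h1 | h1
  · rw [abs_of_nonneg h1] at hbr ⊢
    exact key b hb hbr
  · rw [abs_of_nonpos h1] at hbr ⊢
    have := key (-(starRingEnd ℂ) b) (by rw [Zer.XX_even, B1h.XX_conj, hb, map_zero]) (by simpa using hbr)
    simpa using this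

theorem part0 (E : ℂ → ℂ) (hE : HB E) (h Y1 Y2 : ℝ) (hh : 0 < h) (hY : Y1 ≤ Y2) (h1 : Far h Y1) (h2 : Far h Y2) :
    num (F E h) {s | F E h s = 0 ∧ Y1 < s.im ∧ s.im < Y2 ∧ (s.re ≠ 1 / 2 ∨ deriv (F E h) s = 0)} ≤
      4 * num xi {ρ | 1 / 2 + h ≤ ρ.re ∧ Y1 < ρ.im ∧ ρ.im < Y2} := by
  have e1 : {s | F E h s = 0 ∧ Y1 < s.im ∧ s.im < Y2 ∧ (s.re ≠ 1 / 2 ∨ deriv (F E h) s = 0)} =
      (fun z : ℂ => 1 / 2 + z) '' {z | FE (toz E) h z = 0 ∧ Y1 < z.im ∧ z.im < Y2 ∧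
        (z.re ≠ 0 ∨ 2 ≤ analyticOrderNatAt (FE (toz E) h) z)} := by
    ext s
    constructor
    · rintro ⟨a1, a2, a3, a4⟩
      refine ⟨s - 1 / 2, ⟨(F_zero E h s).1 a1, by simpa using a2, by simpa using a3, ?_⟩, by ring⟩
      rcases a4 with a4 | a4
      · left
        intro a5
        apply a4
        simp at a5
        linarith
      · right
        rwa [ord_deriv (F_ent hE hh) a1, F_ord hE hh] at a4
    · rintro ⟨z, ⟨a1, a2, a3, a4⟩, rfl⟩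
      have a0 : F E h (1 / 2 + z) = 0 := by
        rw [F_zero, show (1 / 2 + z - 1 / 2 : ℂ) = z by ring]; exact a1
      refine ⟨a0, by simpa using a2, by simpa using a3, ?_⟩
      rcases a4 with a4 | a4
      · left
        intro a5
        apply a4
        simpa using a5
      · right
        rw [ord_deriv (F_ent hE hh) a0, F_ord hE hh]
        rwa [show (1 / 2 + z - 1 / 2 : ℂ) = z by ring]
  have e2 : cnt XX (VV h Y1 Y2) ≤ num xi {ρ | 1 / 2 + h ≤ ρ.re ∧ Y1 < ρ.im ∧ ρ.im < Y2} := by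
    have e3 : {ρ : ℂ | 1 / 2 + h ≤ ρ.re ∧ Y1 < ρ.im ∧ ρ.im < Y2} =
        (fun z : ℂ => 1 / 2 + z) '' {z | h ≤ z.re ∧ Y1 < z.im ∧ z.im < Y2} := by
      ext s
      constructor
      · rintro ⟨a1, a2, a3⟩
        exact ⟨s - 1 / 2, ⟨by simp; linarith, by simpa using a2, by simpa using a3⟩, by ring⟩
      · rintro ⟨z, ⟨a1, a2, a3⟩, rfl⟩
        exact ⟨by simp; exact a1, by simpa using a2, by simpa using a3⟩
    rw [e3, num_xi]
    refine le_of_eq (cnt_congr XX_ent.diff ?_)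
    intro b hb
    have hb1 := XX_re_lt hb
    rw [abs_lt] at hb1
    exact ⟨fun a => ⟨a.1, a.2.2.1, a.2.2.2⟩, fun a => ⟨a.1, by linarith, a.2.1, a.2.2⟩⟩
  rw [e1, num_image hE hh]
  refine le_trans ?_ (Nat.mul_le_mul_left 4 e2)
  have hfin : {z | FE (toz E) h z = 0 ∧ Y1 < z.im ∧ z.im < Y2 ∧
        (z.re ≠ 0 ∨ 2 ≤ analyticOrderNatAt (FE (toz E) h) z)}.Finite := by
    have hK : IsCompact (Metric.closedBall (0 : ℂ) (1 + (|Y1| + |Y2|))) := isCompact_closedBall _ _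
    refine ((FE_ent (toz_HB hE) hh).fin hK).subset ?_
    rintro z ⟨b0, b1, b2, _⟩
    refine ⟨?_, b0⟩
    rw [Metric.mem_closedBall, dist_zero_right]
    refine (Complex.norm_le_abs_re_add_abs_im z).trans ?_
    have h3 := FE_strip (toz_HB hE) hh b0
    have h4 : |z.im| ≤ |Y1| + |Y2| := by
      rw [abs_le]
      constructor
      · linarith [neg_abs_le Y1, abs_nonneg Y2]
      · linarith [le_abs_self Y2, abs_nonneg Y1]
    linarith
  rw [cnt_fin_eq hfin]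
  refine exc_count (toz_HB hE) hh hY (clr_of_far h1) (clr_of_far h2) hfin.toFinset fun s hs => ?_
  rw [Set.Finite.mem_toFinset] at hs
  exact ⟨hs.2.1, hs.2.2.1, hs.1, hs.2.2.2⟩

theorem part_fin (E : ℂ → ℂ) (hE : HB E) (h : ℝ) (hh : 0 < h) (a b : ℝ) :
    {s : ℂ | F E h s = 0 ∧ s.im ∈ Icc a b}.Finite := by
  have hfin : {z | FE (toz E) h z = 0 ∧ z.im ∈ Icc a b}.Finite := by
    have hK : IsCompact (Metric.closedBall (0 : ℂ) (1 + (|a| + |b|))) := isCompact_closedBall _ _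
    refine ((FE_ent (toz_HB hE) hh).fin hK).subset ?_
    rintro z ⟨b0, b1, b2⟩
    refine ⟨?_, b0⟩
    rw [Metric.mem_closedBall, dist_zero_right]
    refine (Complex.norm_le_abs_re_add_abs_im z).trans ?_
    have h3 := FE_strip (toz_HB hE) hh b0
    have h4 : |z.im| ≤ |a| + |b| := by
      rw [abs_le]
      constructor
      · linarith [neg_abs_le a, abs_nonneg b]
      · linarith [le_abs_self b, abs_nonneg a]
    linarith
  refine (hfin.image (fun z : ℂ => 1 / 2 + z)).subset ?_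
  rintro s ⟨h1, h2⟩
  exact ⟨s - 1 / 2, ⟨(F_zero E h s).1 h1, by simpa using h2⟩, by ring⟩

theorem part1 (E : ℂ → ℂ) (hE : HB E) (h T : ℝ) (hh : 0 < h) : (Zer E h T).Finite := by
  rw [Zer_image]
  exact (ZD_fin (toz_HB hE) hh T).image _

theorem part2 (c : ℝ) (hc : c < 4 / 3) : ∃ C : ℝ, 0 < C ∧ ∀ (E : ℂ → ℂ) (h T : ℝ), HB E → 0 < h → h ≤ 1 / 2 →
    2 ≤ T → (num (F E h) (Exc E h T) : ℝ) ≤ C * T ^ (-(c * h)) * num (F E h) (Zer E h T) ∧
      (C ≤ T ^ h → (num (F E h) (Exc E h T) : ℝ) ≤ C * T ^ (1 - c * h) * Real.log T) := by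
  obtain ⟨C, hC, h1⟩ := count_main hc
  refine ⟨C, hC, fun E h T hE hh hh2 hT => ?_⟩
  rw [Exc_image hE hh, Zer_image, num_image hE hh, num_image hE hh]
  exact h1 T h (toz E) hT hh hh2 (toz_HB hE)

theorem part3 (E : ℂ → ℂ) (hE : HB E) (h : ℝ) (hh : 1 / 2 ≤ h) (s : ℂ) (hs : F E h s = 0) :
    s.re = 1 / 2 ∧ deriv (F E h) s ≠ 0 := by
  have hh0 : 0 < h := by linarith
  obtain ⟨h3, h4⟩ := half hh (toz_HB hE) ((F_zero E h s).1 hs)
  refine ⟨?_, simple_iff hE hh0 hs h4⟩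
  simp at h3
  linarith

theorem part4 (ε : ℝ) (hε : 0 < ε) (hε1 : ε < 1) : ∃ c C : ℝ, 0 < c ∧ 0 < C ∧ ∀ h T : ℝ, 0 < h → h ≤ 1 / 2 → 2 ≤ T →
    volume {t : ℝ | T ≤ t ∧ t ≤ 2 * T ∧ ¬ Fine ε h T t} ≤ ENNReal.ofReal (C * T ^ (1 - c * h)) := by
  obtain ⟨c, C, hc, hC, h1⟩ := fine_meas hε hε1
  refine ⟨c, C, hc, hC, fun h T hh hh2 hT => (measure_mono ?_).trans (h1 T h hT hh hh2)⟩
  rintro t ⟨a1, a2, a3⟩
  exact ⟨a1, a2, fun h4 => a3 (fine_of_fineZ hh h4)⟩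

theorem part5 : RiemannHypothesis ↔ ∀ h : ℝ, 0 < h → ∀ s : ℂ, xi (s + h) + xi (s - h) = 0 → s.re = 1 / 2 := by
  rw [rh_iff]
  constructor
  · intro h1 h hh s hs
    have h2 := h1 h hh (s - 1 / 2) (by
      rw [xi_XX', xi_XX'] at hs
      rw [show (s - 1 / 2 + h : ℂ) = s + h - 1 / 2 by ring, show (s - 1 / 2 - h : ℂ) = s - h - 1 / 2 by ring]
      linear_combination 8 * hs)
    simp at h2
    linarith
  · intro h1 h hh z hz
    have h2 := h1 h hh (1 / 2 + z) (by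
      rw [show (1 / 2 + z + h : ℂ) = 1 / 2 + (z + h) by ring, xi_XX,
        show (1 / 2 + z - h : ℂ) = 1 / 2 + (z - h) by ring, xi_XX]
      linear_combination (1 / 8 : ℂ) * hz)
    simpa using h2

theorem part6 (h : ℝ) (hh : 0 < h) : (∀ s : ℂ, 1 / 2 + h < s.re → riemannZeta s ≠ 0) ↔
    ∀ (θ : ℝ) (s : ℂ), cexp (I * θ) * xi (s + h) + cexp (-(I * θ)) * xi (s - h) = 0 → s.re = 1 / 2 := by
  rw [half_plane_iff hh]
  have key : ∀ (θ : ℝ) (z : ℂ), FE (EE θ 0) h z =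
      8 * (cexp (I * θ) * xi (1 / 2 + z + h) + cexp (-(I * θ)) * xi (1 / 2 + z - h)) := by
    intro θ z
    rw [FE_eq]
    have e1 : ∀ w : ℂ, EE θ 0 w = cexp (I * θ) := by
      intro w; unfold EE; simp
    rw [e1, e1, ← Complex.exp_conj, map_mul, Complex.conj_I, Complex.conj_ofReal, neg_mul]
    rw [show (1 / 2 + z + h : ℂ) = 1 / 2 + (z + h) by ring, xi_XX,
        show (1 / 2 + z - h : ℂ) = 1 / 2 + (z - h) by ring, xi_XX]
    ring
  constructor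
  · intro h1 θ s hs
    have h2 := h1 θ (s - 1 / 2) (by
      rw [key, show (1 / 2 + (s - 1 / 2) : ℂ) = s by ring, hs, mul_zero])
    simp at h2
    linarith
  · intro h1 θ z hz
    rw [key] at hz
    have h2 := h1 θ (1 / 2 + z) (by
      rcases mul_eq_zero.1 hz with h3 | h3
      · norm_num at h3
      · exact h3)
    simpa using h2

end

end Pool.Agent.K3h34.DX
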