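import Pool.Agent.K3h34.DX.Exc

set_option autoImplicit false

/-!
# Windows in which all zeros are simple, on the line and equally spaced
-/

namespace Pool.Agent.K3h34.DX

open Complex Filter Topology MeasureTheory Set
open Pool.Agent.H24R2.JP

noncomputable section

/-- the exponential multipliers -/
def EE (θ κ : ℝ) (z : ℂ) : ℂ := cexp (I * θ + κ * z)

lemma EE_deriv (θ κ : ℝ) (z : ℂ) : HasDerivAt (EE θ κ) (EE θ κ z * κ) z := by
  have h1 : HasDerivAt (fun z : ℂ => I * (θ : ℂ) + (κ : ℂ) * z) (κ : ℂ) z := by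
    simpa using ((hasDerivAt_id z).const_mul (κ : ℂ)).const_add (I * (θ : ℂ))
  exact h1.cexp

lemma EE_HB (θ : ℝ) {κ : ℝ} (hκ : 0 ≤ κ) : HBz (EE θ κ) := by
  refine ⟨fun z => (EE_deriv θ κ z).differentiableAt, fun z _ => Complex.exp_ne_zero _, fun z hz => ?_⟩
  unfold EE
  rw [Complex.norm_exp, Complex.norm_exp]
  apply Real.exp_le_exp.mpr
  simp
  have := mul_nonneg hκ hz.le
  linarith

lemma EE_logDeriv (θ κ : ℝ) (z : ℂ) : logDeriv (EE θ κ) z = κ := by
  rw [logDeriv_apply, (EE_deriv θ κ z).deriv]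
  have : EE θ κ z ≠ 0 := Complex.exp_ne_zero _
  field_simp

/-- the window around `t`: all zeros on the line and simple, no gap larger than `(1 + ε) 2π / log T`;
for exponential multipliers no gap outside `(1 ± ε) 2π / (log T + 2κ)` -/
def FineZ (ε h T t : ℝ) : Prop :=
  (∀ E : ℂ → ℂ, HBz E →
    (∀ z : ℂ, FE E h z = 0 → |z.im - t| ≤ 5 * h → z.re = 0 ∧ analyticOrderNatAt (FE E h) z = 1) ∧
    ∀ a b : ℝ, t - 5 * h ≤ a → b ≤ t + 5 * h → (1 + ε) * (2 * Real.pi / Real.log T) ≤ b - a →
      ∃ y ∈ Icc a b, FE E h (I * y) = 0) ∧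
  ∀ θ κ : ℝ, 0 ≤ κ →
    (∀ a b : ℝ, t - 5 * h ≤ a → a < b → b ≤ t + 5 * h → FE (EE θ κ) h (I * a) = 0 → FE (EE θ κ) h (I * b) = 0 →
      (1 - ε) * (2 * Real.pi / (Real.log T + 2 * κ)) ≤ b - a) ∧
    ∀ a b : ℝ, t - 5 * h ≤ a → b ≤ t + 5 * h → (1 + ε) * (2 * Real.pi / (Real.log T + 2 * κ)) ≤ b - a →
      ∃ y ∈ Icc a b, FE (EE θ κ) h (I * y) = 0

lemma clean_window {h t : ℝ} (hh : 0 < h) (hb : ¬ BadK h t) {E : ℂ → ℂ} (hE : HBz E) {z : ℂ}
    (hz : FE E h z = 0) (hzt : |z.im - t| ≤ 5 * h) : z.re = 0 ∧ analyticOrderNatAt (FE E h) z = 1 := by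
  classical
  have hY1 : Clr h (t - 6 * h) := clr_of_not_bad hb (by
    rw [show t - 6 * h - t = -(6 * h) by ring, abs_neg, abs_of_pos (by positivity)])
  have hY2 : Clr h (t + 6 * h) := clr_of_not_bad hb (by
    rw [show t + 6 * h - t = 6 * h by ring, abs_of_pos (by positivity)])
  have h0 : cnt XX (VV h (t - 6 * h) (t + 6 * h)) = 0 := by
    unfold cnt
    apply finsum_mem_eq_zero_of_forall_eq_zero
    rintro b ⟨b1, b2, b3, b4⟩
    apply ord_zero XX_ent.diff
    intro hb0
    apply hb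
    have hbre : 0 < b.re := lt_of_lt_of_le hh b1
    refine ⟨b, hb0, by rw [abs_of_pos hbre]; exact b1, ?_⟩
    rw [abs_of_pos hbre, abs_le]
    constructor <;> linarith
  have hpos := ord_pos (FE_ent hE hh) hz
  rw [abs_le] at hzt
  by_contra hcon
  have hexc : z.re ≠ 0 ∨ 2 ≤ analyticOrderNatAt (FE E h) z := by
    by_cases h1 : z.re = 0
    · right
      by_contra h2
      push Not at h2
      exact hcon ⟨h1, by omega⟩
    · exact Or.inl h1
  have h1 := exc_count hE hh (by linarith) hY1 hY2 {z} (by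
    intro s hs
    rw [Finset.mem_singleton] at hs
    subst hs
    exact ⟨by linarith, by linarith, hz, hexc⟩)
  rw [Finset.sum_singleton, h0] at h1
  omega

lemma fine_of {ε h T t : ℝ} (hε : 0 < ε) (hε1 : ε < 1) (hh : 0 < h) (hT : 2 ≤ T) (hb : ¬ BadK h t)
    (hR : Reg (ε / 2) h T t) : FineZ ε h T t := by
  have hO := Om_pos hT
  have hLO : Real.log T = 2 * Om T := by unfold Om; ring
  have hpi := Real.pi_pos
  refine ⟨fun E hE => ⟨fun z hz hzt => clean_window hh hb hE hz hzt, ?_⟩, fun θ κ hκ => ?_⟩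
  · intro a b ha hb' hlen
    have h1 : (1 + ε) * (Real.pi / Om T) ≤ b - a := by
      rw [hLO] at hlen
      have : 2 * Real.pi / (2 * Om T) = Real.pi / Om T := by field_simp
      rwa [this] at hlen
    have hab : a ≤ b := by
      have : 0 < (1 + ε) * (Real.pi / Om T) := by positivity
      linarith
    refine reg_zero hE hR hab ha hb' ?_
    calc Real.pi ≤ (1 - ε / 2) * (1 + ε) * Real.pi := by
          have : 1 ≤ (1 - ε / 2) * (1 + ε) := by nlinarith
          nlinarith
      _ = (1 - ε / 2) * Om T * ((1 + ε) * (Real.pi / Om T)) := by field_simp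
      _ ≤ (1 - ε / 2) * Om T * (b - a) := by
          apply mul_le_mul_of_nonneg_left h1
          apply mul_nonneg (by linarith) hO.le
  · have hE := EE_HB θ hκ
    have hden : 0 < Om T + κ := by linarith
    have hq : 2 * Real.pi / (Real.log T + 2 * κ) = Real.pi / (Om T + κ) := by
      rw [hLO]; field_simp
    have hsp : ∀ y : ℝ, |y - t| ≤ 5 * h → GG (EE θ κ) h (I * y) ≠ 0 ∧
        (1 - ε / 2) * Om T + κ ≤ (logDeriv (GG (EE θ κ) h) (I * y)).re ∧
        (logDeriv (GG (EE θ κ) h) (I * y)).re ≤ (1 + ε / 2) * Om T + κ := by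
      intro y hy
      obtain ⟨h1, h2⟩ := hR y hy
      refine ⟨(reg_speed hE hR hy).1, ?_⟩
      rw [logDeriv_GG hE h y h1, EE_logDeriv, Complex.add_re, Complex.ofReal_re]
      have h4 := (Complex.abs_re_le_norm (logDeriv XX (h + I * y) - (Om T : ℂ))).trans h2
      rw [Complex.sub_re, Complex.ofReal_re, abs_le] at h4
      constructor <;> linarith [h4.1, h4.2]
    have hin : ∀ a b : ℝ, t - 5 * h ≤ a → b ≤ t + 5 * h → ∀ y ∈ Icc a b, |y - t| ≤ 5 * h := by
      intro a b ha hb' y hy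
      rw [abs_le]
      constructor <;> linarith [hy.1, hy.2]
    rw [hq]
    constructor
    · intro a b ha hab hb' hza hzb
      by_contra hcon
      push Not at hcon
      refine sep_zeros hE hab (fun y hy => (hsp y (hin a b ha hb' y hy)).1)
        (M := (1 + ε / 2) * Om T + κ) (fun y hy => ?_) ?_ hza hzb
      · obtain ⟨_, h2, h3⟩ := hsp y (hin a b ha hb' y hy)
        refine ⟨lt_of_lt_of_le ?_ h2, h3⟩
        have : 0 < (1 - ε / 2) * Om T := mul_pos (by linarith) hO
        linarith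
      · have h5 : (1 + ε / 2) * Om T + κ ≤ (1 + ε / 2) * (Om T + κ) := by nlinarith
        have h6 : 0 < b - a := by linarith
        calc ((1 + ε / 2) * Om T + κ) * (b - a) ≤ (1 + ε / 2) * (Om T + κ) * (b - a) :=
              mul_le_mul_of_nonneg_right h5 h6.le
          _ < (1 + ε / 2) * (Om T + κ) * ((1 - ε) * (Real.pi / (Om T + κ))) := by
              apply mul_lt_mul_of_pos_left hcon
              positivity
          _ = ((1 + ε / 2) * (1 - ε)) * Real.pi := by field_simp
          _ ≤ 1 * Real.pi := by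
              apply mul_le_mul_of_nonneg_right _ hpi.le
              nlinarith
          _ = Real.pi := one_mul _
    · intro a b ha hb' hlen
      have hab : a ≤ b := by
        have : 0 < (1 + ε) * (Real.pi / (Om T + κ)) := by positivity
        linarith
      refine exists_zero_line hE hab (fun y hy => (hsp y (hin a b ha hb' y hy)).1)
        (fun y hy => (hsp y (hin a b ha hb' y hy)).2.1) ?_
      have h5 : (1 - ε / 2) * (Om T + κ) ≤ (1 - ε / 2) * Om T + κ := by nlinarith
      calc Real.pi ≤ (1 - ε / 2) * (1 + ε) * Real.pi := by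
            have : 1 ≤ (1 - ε / 2) * (1 + ε) := by nlinarith
            nlinarith
        _ = (1 - ε / 2) * (Om T + κ) * ((1 + ε) * (Real.pi / (Om T + κ))) := by field_simp
        _ ≤ ((1 - ε / 2) * Om T + κ) * (b - a) := by
            apply mul_le_mul h5 hlen (by positivity)
            have : 0 < (1 - ε / 2) * Om T := mul_pos (by linarith) hO
            linarith

theorem fine_meas {ε : ℝ} (hε : 0 < ε) (hε1 : ε < 1) : ∃ c C : ℝ, 0 < c ∧ 0 < C ∧ ∀ T h : ℝ, 2 ≤ T → 0 < h →
    h ≤ 1 / 2 → volume {t : ℝ | T ≤ t ∧ t ≤ 2 * T ∧ ¬ FineZ ε h T t} ≤ ENNReal.ofReal (C * T ^ (1 - c * h)) := by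
  obtain ⟨c1, C1, K1, T1, hc1, hC1, hK1, hT1, hreg⟩ := reg_meas (η := ε / 2) (by linarith)
  obtain ⟨C2, hC2, hbad⟩ := meas_bad (c := 1) (by norm_num)
  set c := min c1 1 with hc
  have hc0 : 0 < c := lt_min hc1 one_pos
  refine ⟨c, C1 + 2 * C2 + (T1 + Real.exp K1), hc0, by positivity, fun T h hT hh hh2 => ?_⟩
  have hT0 : 0 < T := by linarith
  have hL0 : 0 < Real.log T := Real.log_pos (by linarith)
  have hpow : ∀ d : ℝ, T ^ (1 - d * h) = T * Real.exp (-(d * (h * Real.log T))) := by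
    intro d
    rw [Real.rpow_def_of_pos hT0, show Real.log T * (1 - d * h) = Real.log T + -(d * (h * Real.log T)) by ring,
      Real.exp_add, Real.exp_log hT0]
  have hp : 0 < T ^ (1 - c * h) := Real.rpow_pos_of_pos hT0 _
  by_cases hr : T1 ≤ T ∧ K1 ≤ h * Real.log T
  · have h1 := hreg T h hr.1 hh hh2 hr.2
    have h2 := hbad h (2 * T) hh.le hh2 (by linarith)
    have hsub : {t : ℝ | T ≤ t ∧ t ≤ 2 * T ∧ ¬ FineZ ε h T t} ⊆
        {t : ℝ | T ≤ t ∧ t ≤ 2 * T ∧ ¬ Reg (ε / 2) h T t} ∪ {t : ℝ | 0 ≤ t ∧ t ≤ 2 * T ∧ BadK h t} := by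
      rintro t ⟨a1, a2, a3⟩
      by_cases hb : BadK h t
      · exact Or.inr ⟨by linarith, a2, hb⟩
      · exact Or.inl ⟨a1, a2, fun hR => a3 (fine_of hε hε1 hh hT hb hR)⟩
    refine (measure_mono hsub).trans ((measure_union_le _ _).trans ?_)
    refine (add_le_add h1 h2).trans ?_
    rw [← ENNReal.ofReal_add (by positivity) (by positivity)]
    apply ENNReal.ofReal_le_ofReal
    have e1 : C1 * T * Real.exp (-(c1 * h * Real.log T)) ≤ C1 * T ^ (1 - c * h) := by
      rw [hpow c, mul_assoc]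
      refine mul_le_mul_of_nonneg_left (mul_le_mul_of_nonneg_left (Real.exp_le_exp.mpr ?_) hT0.le) hC1.le
      have := mul_le_mul_of_nonneg_right (min_le_left c1 1) (show 0 ≤ h * Real.log T by positivity)
      rw [← hc] at this
      linarith
    have e2 : C2 * (2 * T) ^ (1 - 1 * h) ≤ 2 * C2 * T ^ (1 - c * h) := by
      rw [Real.mul_rpow (by norm_num) hT0.le]
      have e3 : (2 : ℝ) ^ (1 - 1 * h) ≤ 2 := by
        calc (2 : ℝ) ^ (1 - 1 * h) ≤ 2 ^ (1 : ℝ) := Real.rpow_le_rpow_of_exponent_le (by norm_num) (by linarith)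
          _ = 2 := Real.rpow_one 2
      have e4 : T ^ (1 - 1 * h) ≤ T ^ (1 - c * h) := by
        apply Real.rpow_le_rpow_of_exponent_le (by linarith)
        have := mul_le_mul_of_nonneg_right (min_le_right c1 1) hh.le
        rw [← hc] at this
        linarith
      calc C2 * (2 ^ (1 - 1 * h) * T ^ (1 - 1 * h)) ≤ C2 * (2 * T ^ (1 - c * h)) := by gcongr
        _ = 2 * C2 * T ^ (1 - c * h) := by ring
    have e5 : 0 ≤ (T1 + Real.exp K1) * T ^ (1 - c * h) := by positivity
    have e6 : (C1 + 2 * C2 + (T1 + Real.exp K1)) * T ^ (1 - c * h) =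
      C1 * T ^ (1 - c * h) + 2 * C2 * T ^ (1 - c * h) + (T1 + Real.exp K1) * T ^ (1 - c * h) := by ring
    linarith
  · have h3 : volume {t : ℝ | T ≤ t ∧ t ≤ 2 * T ∧ ¬ FineZ ε h T t} ≤ ENNReal.ofReal T := by
      refine (measure_mono (show _ ⊆ Icc T (2 * T) from fun t ht => ⟨ht.1, ht.2.1⟩)).trans ?_
      rw [Real.volume_Icc]
      exact ENNReal.ofReal_le_ofReal (by linarith)
    refine h3.trans (ENNReal.ofReal_le_ofReal ?_)
    have h4 : T ≤ (T1 + Real.exp K1) * T ^ (1 - c * h) := by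
      rw [hpow c]
      have h5 : Real.exp (c * (h * Real.log T)) ≤ T1 + Real.exp K1 := by
        have h6 : c * (h * Real.log T) ≤ h * Real.log T := by
          have := mul_le_mul_of_nonneg_right (min_le_right c1 1) (show 0 ≤ h * Real.log T by positivity)
          rw [← hc] at this
          linarith
        rw [not_and_or, not_le, not_le] at hr
        rcases hr with hr | hr
        · have h7 : h * Real.log T ≤ Real.log T := by nlinarith
          have h8 : Real.exp (c * (h * Real.log T)) ≤ T := by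
            rw [← Real.le_log_iff_exp_le hT0]; linarith
          linarith [Real.exp_pos K1]
        · have h8 : Real.exp (c * (h * Real.log T)) ≤ Real.exp K1 := Real.exp_le_exp.mpr (by linarith)
          linarith
      have h9 : Real.exp (c * (h * Real.log T)) * Real.exp (-(c * (h * Real.log T))) = 1 := by
        rw [← Real.exp_add]; simp
      calc T = T * (Real.exp (c * (h * Real.log T)) * Real.exp (-(c * (h * Real.log T)))) := by rw [h9, mul_one]
        _ ≤ T * ((T1 + Real.exp K1) * Real.exp (-(c * (h * Real.log T)))) := by gcongr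
        _ = _ := by ring
    have e5 : 0 ≤ (C1 + 2 * C2) * T ^ (1 - c * h) := by positivity
    have e6 : (C1 + 2 * C2 + (T1 + Real.exp K1)) * T ^ (1 - c * h) =
      (C1 + 2 * C2) * T ^ (1 - c * h) + (T1 + Real.exp K1) * T ^ (1 - c * h) := by ring
    linarith

end

end Pool.Agent.K3h34.DX
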