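import Pool.Agent.R838.ST.Rou

set_option autoImplicit false

/-!
# Counting zeros of entire functions in bounded open sets: stability, semicontinuity, homotopy
-/

namespace Pool.Agent.K3h34.DX

open Complex Filter Topology Metric Set
open Pool.Agent.R838.ST (nb rouche)

noncomputable section

/-- entire and not identically zero -/
structure Ent (f : ℂ → ℂ) : Prop where
  diff : Differentiable ℂ f
  ne : ∃ z, f z ≠ 0

lemma Ent.top {f : ℂ → ℂ} (h : Ent f) (z : ℂ) : analyticOrderAt f z ≠ ⊤ := by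
  intro h0
  rw [analyticOrderAt_eq_top] at h0
  have h1 : AnalyticOnNhd ℂ f Set.univ := fun z _ => h.diff.analyticAt z
  have h2 := h1.eqOn_zero_of_preconnected_of_eventuallyEq_zero isPreconnected_univ (Set.mem_univ z) h0
  obtain ⟨w, hw⟩ := h.ne
  exact hw (h2 (Set.mem_univ w))

lemma Ent.fin {f : ℂ → ℂ} (h : Ent f) {K : Set ℂ} (hK : IsCompact K) : {z | z ∈ K ∧ f z = 0}.Finite := by
  by_contra hinf
  have hinf' : {v : ℂ | v ∈ K ∧ f v = 0}.Infinite := hinf
  obtain ⟨x, _, hx⟩ := hinf'.exists_accPt_of_subset_isCompact hK (fun v hv => hv.1)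
  rw [accPt_iff_frequently_nhdsNE] at hx
  have hFan : AnalyticOnNhd ℂ f univ := fun z _ => h.diff.analyticAt z
  have := hFan.eqOn_zero_of_preconnected_of_frequently_eq_zero isPreconnected_univ (mem_univ x)
    (hx.mono (fun y hy => hy.2))
  obtain ⟨w, hw⟩ := h.ne
  exact hw (this (Set.mem_univ w))

lemma ord_zero {f : ℂ → ℂ} (hf : Differentiable ℂ f) {z : ℂ} (h : f z ≠ 0) : analyticOrderNatAt f z = 0 := by
  have h4 := (hf.analyticAt z).analyticOrderAt_eq_zero.2 h
  simp [analyticOrderNatAt, h4]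

lemma ord_pos {f : ℂ → ℂ} (hf : Ent f) {z : ℂ} (h : f z = 0) : 1 ≤ analyticOrderNatAt f z := by
  rw [Nat.one_le_iff_ne_zero]
  intro h0
  have h1 := Nat.cast_analyticOrderNatAt (hf.top z)
  rw [h0] at h1
  have h2 : analyticOrderAt f z = 0 := by rw [← h1]; rfl
  exact ((hf.diff.analyticAt z).analyticOrderAt_eq_zero.1 h2) h

lemma zero_of_ord {f : ℂ → ℂ} (hf : Differentiable ℂ f) {z : ℂ} (h : analyticOrderNatAt f z ≠ 0) : f z = 0 := by
  by_contra h0
  exact h (ord_zero hf h0)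

/-- the number of zeros in a set, with multiplicity -/
def cnt (f : ℂ → ℂ) (U : Set ℂ) : ℕ := ∑ᶠ z ∈ U, analyticOrderNatAt f z

lemma nb_eq_cnt (f : ℂ → ℂ) (c : ℂ) (r : ℝ) : nb f c r = cnt f (ball c r) := rfl

lemma cnt_eq {f : ℂ → ℂ} (hf : Differentiable ℂ f) {U : Set ℂ} [DecidablePred (fun z => z ∈ U)] (S : Finset ℂ)
    (hS : ∀ z ∈ U, f z = 0 → z ∈ S) : cnt f U = ∑ z ∈ S.filter (fun z => z ∈ U), analyticOrderNatAt f z := by
  unfold cnt
  rw [finsum_mem_eq_sum_of_inter_support_eq]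
  ext z
  constructor
  · rintro ⟨h1, h2⟩
    refine ⟨?_, h2⟩
    rw [Finset.mem_coe, Finset.mem_filter]
    exact ⟨hS z h1 (zero_of_ord hf h2), h1⟩
  · rintro ⟨h1, h2⟩
    rw [Finset.mem_coe, Finset.mem_filter] at h1
    exact ⟨h1.2, h2⟩

/-- a finite set containing the zeros in a bounded set -/
lemma Ent.exS {f : ℂ → ℂ} (hf : Ent f) {U : Set ℂ} (hb : Bornology.IsBounded U) :
    ∃ S : Finset ℂ, ∀ z, z ∈ S ↔ z ∈ closure U ∧ f z = 0 := by
  have h := hf.fin hb.isCompact_closure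
  exact ⟨h.toFinset, fun z => by rw [Set.Finite.mem_toFinset]; rfl⟩

lemma cnt_mono {f : ℂ → ℂ} (hf : Ent f) {U V : Set ℂ} (hb : Bornology.IsBounded V) (h : U ⊆ V) :
    cnt f U ≤ cnt f V := by
  classical
  obtain ⟨S, hS⟩ := hf.exS hb
  rw [cnt_eq hf.diff S (fun z hz h0 => (hS z).2 ⟨subset_closure (h hz), h0⟩),
    cnt_eq hf.diff S (fun z hz h0 => (hS z).2 ⟨subset_closure hz, h0⟩)]
  apply Finset.sum_le_sum_of_subset
  intro z hz
  rw [Finset.mem_filter] at hz ⊢
  exact ⟨hz.1, h hz.2⟩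

lemma cnt_congr {f : ℂ → ℂ} (hf : Differentiable ℂ f) {U V : Set ℂ}
    (h : ∀ z, f z = 0 → (z ∈ U ↔ z ∈ V)) : cnt f U = cnt f V := by
  unfold cnt
  apply finsum_congr
  intro z
  by_cases h0 : f z = 0
  · simp only [h z h0]
  · simp [ord_zero hf h0]

lemma cnt_union {f : ℂ → ℂ} (hf : Ent f) {U V : Set ℂ} (hU : Bornology.IsBounded U)
    (hV : Bornology.IsBounded V) (hd : Disjoint U V) : cnt f (U ∪ V) = cnt f U + cnt f V := by
  classical
  obtain ⟨S, hS⟩ := hf.exS (hU.union hV)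
  rw [cnt_eq hf.diff (U := U) S (fun z hz h0 => (hS z).2 ⟨subset_closure (Or.inl hz), h0⟩),
    cnt_eq hf.diff (U := V) S (fun z hz h0 => (hS z).2 ⟨subset_closure (Or.inr hz), h0⟩),
    cnt_eq hf.diff (U := U ∪ V) S (fun z hz h0 => (hS z).2 ⟨subset_closure hz, h0⟩)]
  rw [← Finset.sum_union]
  · congr 1
    ext z
    simp only [Finset.mem_union, Finset.mem_filter, Set.mem_union]
    tauto
  · rw [Finset.disjoint_left]
    intro z hz hz'
    rw [Finset.mem_filter] at hz hz'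
    exact Set.disjoint_left.1 hd hz.2 hz'.2

/-- sum over disjoint pieces -/
lemma cnt_pieces {f : ℂ → ℂ} (hf : Ent f) {V : Set ℂ} (hV : Bornology.IsBounded V) (Z : Finset ℂ)
    (B : ℂ → Set ℂ) (hB : ∀ z ∈ Z, B z ⊆ V) (hd : ∀ z ∈ Z, ∀ w ∈ Z, z ≠ w → Disjoint (B z) (B w)) :
    ∑ z ∈ Z, cnt f (B z) = cnt f (⋃ z ∈ Z, B z) := by
  classical
  induction Z using Finset.induction_on with
  | empty => simp [cnt]
  | insert a Z ha ih =>
    rw [Finset.sum_insert ha, ih (fun z hz => hB z (Finset.mem_insert_of_mem hz))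
      (fun z hz w hw => hd z (Finset.mem_insert_of_mem hz) w (Finset.mem_insert_of_mem hw))]
    rw [Finset.set_biUnion_insert, cnt_union hf]
    · exact hV.subset (hB a (Finset.mem_insert_self _ _))
    · exact hV.subset (Set.iUnion₂_subset fun z hz => hB z (Finset.mem_insert_of_mem hz))
    · rw [Set.disjoint_iUnion₂_right]
      intro z hz
      refine hd a (Finset.mem_insert_self _ _) z (Finset.mem_insert_of_mem hz) ?_
      rintro rfl
      exact ha hz

/-- a common small radius -/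
lemma exists_radius {U : Set ℂ} (hU : IsOpen U) (Z : Finset ℂ) (hZ : ∀ z ∈ Z, z ∈ U) :
    ∃ r : ℝ, 0 < r ∧ (∀ z ∈ Z, closedBall z r ⊆ U) ∧
      ∀ z ∈ Z, ∀ w ∈ Z, z ≠ w → Disjoint (closedBall z r) (closedBall w r) := by
  classical
  have h1 : ∀ᶠ r : ℝ in 𝓝[>] 0, ∀ z ∈ Z, closedBall z r ⊆ U := by
    rw [Filter.eventually_all_finset]
    intro z hz
    obtain ⟨ε, hε, hball⟩ := Metric.isOpen_iff.1 hU z (hZ z hz)
    filter_upwards [Ioo_mem_nhdsGT hε] with r hr
    exact (closedBall_subset_ball hr.2).trans hball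
  have h2 : ∀ᶠ r : ℝ in 𝓝[>] 0, ∀ z ∈ Z, ∀ w ∈ Z, z ≠ w → Disjoint (closedBall z r) (closedBall w r) := by
    rw [Filter.eventually_all_finset]
    intro z hz
    rw [Filter.eventually_all_finset]
    intro w hw
    by_cases hzw : z = w
    · exact Eventually.of_forall fun r h => absurd hzw h
    · have hd : 0 < dist z w := dist_pos.2 hzw
      filter_upwards [Ioo_mem_nhdsGT (show (0 : ℝ) < dist z w / 2 by positivity)] with r hr _
      apply closedBall_disjoint_closedBall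
      have := hr.2
      linarith
  obtain ⟨r, hr, hr0⟩ := ((h1.and h2).and self_mem_nhdsWithin).exists
  exact ⟨r, hr0, hr.1, hr.2⟩

/-- Hurwitz: the number of zeros in an open set does not drop, and is stable if there are no zeros on
the frontier. -/
theorem stab {f : ℂ → ℂ} (hf : Ent f) {U : Set ℂ} (hU : IsOpen U) (hb : Bornology.IsBounded U) :
    ∃ δ : ℝ, 0 < δ ∧ ∀ g : ℂ → ℂ, Ent g → (∀ w ∈ closure U, ‖g w - f w‖ < δ) →
      cnt f U ≤ cnt g U ∧ ((∀ z ∈ frontier U, f z ≠ 0) → cnt g U = cnt f U) := by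
  classical
  have hKc := hb.isCompact_closure
  obtain ⟨S, hS⟩ := hf.exS hb
  set Z := S.filter (fun z => z ∈ U) with hZdef
  have hZU : ∀ z ∈ Z, z ∈ U := fun z hz => (Finset.mem_filter.1 hz).2
  obtain ⟨r1, hr1, hr1a, hr1b⟩ := exists_radius hU Z hZU
  -- shrink so that the balls contain no zeros on the frontier: automatic since the balls are in U
  set r := r1 with hr
  -- compact set without zeros (apart from the frontier)
  set Sp : Set ℂ := ⋃ z ∈ Z, sphere z r with hSp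
  have hSpc : IsCompact Sp := Z.isCompact_biUnion fun z _ => isCompact_sphere z r
  have hSpU : Sp ⊆ U := by
    intro w hw
    rw [hSp, Set.mem_iUnion₂] at hw
    obtain ⟨z, hz, hw⟩ := hw
    exact hr1a z hz (sphere_subset_closedBall hw)
  have hZero : ∀ w ∈ U, f w = 0 → w ∈ Z := by
    intro w hw h0
    rw [hZdef, Finset.mem_filter]
    exact ⟨(hS w).2 ⟨subset_closure hw, h0⟩, hw⟩
  have hball : ∀ z ∈ Z, ∀ w ∈ closedBall z r, f w = 0 → w = z := by
    intro z hz w hw h0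
    have h1 := hZero w (hr1a z hz hw) h0
    by_contra hne
    exact Set.disjoint_left.1 (hr1b w h1 z hz hne) (mem_closedBall_self hr1.le) hw
  have hSp0 : ∀ w ∈ Sp, f w ≠ 0 := by
    intro w hw h0
    rw [hSp, Set.mem_iUnion₂] at hw
    obtain ⟨z, hz, hw⟩ := hw
    have h1 := hball z hz w (sphere_subset_closedBall hw) h0
    rw [h1, mem_sphere, dist_self] at hw
    linarith
  have hpos : ∀ K : Set ℂ, IsCompact K → (∀ w ∈ K, f w ≠ 0) → ∃ δ : ℝ, 0 < δ ∧ ∀ w ∈ K, δ ≤ ‖f w‖ := by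
    intro K hK h0
    rcases K.eq_empty_or_nonempty with rfl | hne
    · exact ⟨1, one_pos, fun w hw => absurd hw (Set.notMem_empty w)⟩
    · obtain ⟨w, hw, hmin⟩ := hK.exists_isMinOn hne hf.diff.continuous.norm.continuousOn
      exact ⟨‖f w‖, norm_pos_iff.2 (h0 w hw), fun v hv => hmin hv⟩
  obtain ⟨δ1, hδ1, hδ1b⟩ := hpos Sp hSpc hSp0
  have hmain : ∀ δ2 : ℝ, 0 < δ2 → ((∀ z ∈ frontier U, f z ≠ 0) →
      ∀ w ∈ closure U \ ⋃ z ∈ Z, ball z r, δ2 ≤ ‖f w‖) → ∃ δ : ℝ, 0 < δ ∧ ∀ g : ℂ → ℂ, Ent g → (∀ w ∈ closure U, ‖g w - f w‖ < δ) →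
      cnt f U ≤ cnt g U ∧ ((∀ z ∈ frontier U, f z ≠ 0) → cnt g U = cnt f U) := by
    intro δ2 hδ2 hδ2b
    refine ⟨min δ1 δ2, lt_min hδ1 hδ2, fun g hg hgf => ?_⟩
    have hnb : ∀ z ∈ Z, cnt f (ball z r) = cnt g (ball z r) := by
      intro z hz
      refine (rouche hf.diff hg.diff hr1 ?_).1
      intro w hw
      have hwS : w ∈ Sp := by
        rw [hSp, Set.mem_iUnion₂]; exact ⟨z, hz, hw⟩
      have h1 := hgf w (subset_closure (hSpU hwS))
      rw [norm_sub_rev]
      exact lt_of_lt_of_le h1 ((min_le_left _ _).trans (hδ1b w hwS))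
    have hdisj : ∀ z ∈ Z, ∀ w ∈ Z, z ≠ w → Disjoint (ball z r) (ball w r) := fun z hz w hw hzw =>
      (hr1b z hz w hw hzw).mono ball_subset_closedBall ball_subset_closedBall
    have hsub : ∀ z ∈ Z, ball z r ⊆ U := fun z hz => ball_subset_closedBall.trans (hr1a z hz)
    have hf1 : cnt f U = cnt f (⋃ z ∈ Z, ball z r) := by
      apply cnt_congr hf.diff
      intro w h0
      constructor
      · intro hw
        rw [Set.mem_iUnion₂]
        exact ⟨w, hZero w hw h0, mem_ball_self hr1⟩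
      · intro hw
        rw [Set.mem_iUnion₂] at hw
        obtain ⟨z, hz, hw⟩ := hw
        exact hsub z hz hw
    have hsum : cnt f U = cnt g (⋃ z ∈ Z, ball z r) := by
      rw [hf1, ← cnt_pieces hf hb Z _ hsub hdisj, ← cnt_pieces hg hb Z _ hsub hdisj]
      exact Finset.sum_congr rfl hnb
    constructor
    · rw [hsum]
      exact cnt_mono hg hb (Set.iUnion₂_subset hsub)
    · intro h0
      rw [hsum]
      apply cnt_congr hg.diff
      intro w hw0
      constructor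
      · intro hw
        by_contra hcon
        have h1 := hδ2b h0 w ⟨subset_closure hw, hcon⟩
        have h2 := hgf w (subset_closure hw)
        rw [hw0, zero_sub, norm_neg] at h2
        have h3 := min_le_right δ1 δ2
        linarith
      · intro hw
        rw [Set.mem_iUnion₂] at hw
        obtain ⟨z, hz, hw⟩ := hw
        exact hsub z hz hw
  by_cases hfr : ∀ z ∈ frontier U, f z ≠ 0
  · have hK : IsCompact (closure U \ ⋃ z ∈ Z, ball z r) :=
      hKc.diff (isOpen_biUnion fun z _ => isOpen_ball)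
    obtain ⟨δ2, hδ2, hδ2b⟩ := hpos _ hK (by
      rintro w ⟨hw1, hw2⟩ h0
      by_cases hwU : w ∈ U
      · exact hw2 (Set.mem_iUnion₂.2 ⟨w, hZero w hwU h0, mem_ball_self hr1⟩)
      · exact hfr w ⟨hw1, by rwa [hU.interior_eq]⟩ h0)
    exact hmain δ2 hδ2 fun _ => hδ2b
  · exact hmain 1 one_pos fun h => absurd h hfr

/-- homotopy invariance of the number of zeros -/
theorem path {f : ℝ → ℂ → ℂ} (hf : ∀ s ∈ Icc (0 : ℝ) 1, Ent (f s))
    (hc : Continuous (fun p : ℝ × ℂ => f p.1 p.2)) {U : Set ℂ} (hU : IsOpen U) (hb : Bornology.IsBounded U)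
    (h0 : ∀ s ∈ Icc (0 : ℝ) 1, ∀ z ∈ frontier U, f s z ≠ 0) : cnt (f 0) U = cnt (f 1) U := by
  refine isPreconnected_Icc.constant (s := Icc (0 : ℝ) 1) (f := fun s => cnt (f s) U) ?_
    (left_mem_Icc.2 zero_le_one) (right_mem_Icc.2 zero_le_one)
  intro s0 hs0
  obtain ⟨δ, hδ, h⟩ := stab (hf s0 hs0) hU hb
  have h1 : ∀ᶠ s in 𝓝 s0, ∀ w ∈ closure U, ‖f s w - f s0 w‖ < δ := by
    apply hb.isCompact_closure.eventually_forall_of_forall_eventually
    intro w _
    have hcont : Continuous (fun p : ℝ × ℂ => ‖f p.1 p.2 - f s0 p.2‖) :=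
      (hc.sub (hc.comp (by fun_prop : Continuous fun p : ℝ × ℂ => (s0, p.2)))).norm
    have := hcont.tendsto (s0, w)
    simp only [sub_self, norm_zero] at this
    exact this.eventually (gt_mem_nhds hδ)
  refine ContinuousWithinAt.congr_of_eventuallyEq (f := fun _ => cnt (f s0) U) continuousWithinAt_const ?_ rfl
  filter_upwards [h1.filter_mono nhdsWithin_le_nhds, self_mem_nhdsWithin] with s hs hs1
  exact (h (f s) (hf s hs1) hs).2 (h0 s0 hs0)

end

end Pool.Agent.K3h34.DX
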