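import Pool.Agent.K3h34.DX.Space
import Pool.Agent.H986R2.DBN.RHReal
import Pool.Agent.H24R2.JP.Farey

set_option autoImplicit false

/-!
# Equivalences with the Riemann hypothesis and with zero-free half-planes
-/

namespace Pool.Agent.K3h34.DX

open Complex Filter Topology MeasureTheory Set
open Pool.Agent.H24R2.JP

noncomputable section

lemma XX_of_zeta {s : ℂ} (hs : 1 / 2 < s.re) (h0 : riemannZeta s = 0) : XX (s - 1 / 2) = 0 := by
  have hs0 : s ≠ 0 := by
    rintro rfl; simp at hs; linarith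
  have hs1 : s ≠ 1 := by
    rintro rfl
    exact riemannZeta_ne_zero_of_one_le_re (by simp) h0
  have h1 : completedRiemannZeta s = 0 := by
    rw [riemannZeta_def_of_ne_zero hs0, div_eq_zero_iff] at h0
    rcases h0 with h | h
    · exact h
    · exact absurd h (Gammaℝ_ne_zero_of_re_pos (by linarith))
  have e : (1 / 2 + (s - 1 / 2) : ℂ) = s := by ring
  rw [Zer.XX_eq (s - 1 / 2) (by rw [e]; exact hs0) (by rw [e]; exact sub_ne_zero.2 hs1.symm), e, h1, mul_zero]

lemma zeta_of_XX {b : ℂ} (hb : XX b = 0) : riemannZeta (1 / 2 + b) = 0 := by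
  obtain ⟨h1, _, h3⟩ := Zer.completed_zero b hb
  rw [riemannZeta_def_of_ne_zero h1, h3, zero_div]

/-- if all zeros of `XX` are within `h` of the line, so are those of `FE` on it -/
lemma on_line {h : ℝ} (hh : 0 < h) (hb : ∀ b : ℂ, XX b = 0 → |b.re| ≤ h) {E : ℂ → ℂ} (hE : HBz E) {z : ℂ}
    (hz : FE E h z = 0) : z.re = 0 := by
  have hst : ∀ z : ℂ, 0 < z.re → ‖XX (z - h)‖ < ‖XX (z + h)‖ := by
    intro z hz
    apply strict' hz hh
    intro b hb0
    have h1 : b.re ^ 2 ≤ h ^ 2 := by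
      rw [← sq_abs]
      exact pow_le_pow_left₀ (abs_nonneg _) (hb b hb0) 2
    have h2 : 0 < z.re ^ 2 := by positivity
    nlinarith [sq_nonneg (z.im - b.im)]
  have key : ∀ z : ℂ, 0 < z.re → FE E h z ≠ 0 := by
    intro z hz h0
    have h1 := hst z hz
    have h2 : ‖sh E z‖ ≤ ‖E z‖ := by
      unfold sh
      rw [Complex.norm_conj]
      exact hE.le z hz
    have h3 : 0 < ‖E z‖ := norm_pos_iff.2 (hE.ne z hz.le)
    rw [FE_eq] at h0
    have h4 : E z * XX (z + h) = -((starRingEnd ℂ) (E (-(starRingEnd ℂ) z)) * XX (z - h)) := by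
      linear_combination h0
    have h5 := congrArg norm h4
    rw [norm_neg, norm_mul, norm_mul] at h5
    have h6 : ‖(starRingEnd ℂ) (E (-(starRingEnd ℂ) z))‖ = ‖sh E z‖ := rfl
    rw [h6] at h5
    have h7 : ‖sh E z‖ * ‖XX (z - h)‖ ≤ ‖E z‖ * ‖XX (z - h)‖ := mul_le_mul_of_nonneg_right h2 (norm_nonneg _)
    have h8 : ‖E z‖ * ‖XX (z - h)‖ < ‖E z‖ * ‖XX (z + h)‖ := mul_lt_mul_of_pos_left h1 h3
    linarith
  by_contra hne
  rcases lt_or_gt_of_ne hne with h | h
  · refine key (-(starRingEnd ℂ) z) (by simpa using h) ?_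
    unfold FE at hz ⊢
    rw [← FF_sh, hz, map_zero]
  · exact key z h hz

/-- for `h ≥ 1/2` there are no exceptional zeros -/
theorem half {h : ℝ} (hh : 1 / 2 ≤ h) {E : ℂ → ℂ} (hE : HBz E) {z : ℂ} (hz : FE E h z = 0) :
    z.re = 0 ∧ analyticOrderNatAt (FE E h) z = 1 := by
  have hh0 : 0 < h := by linarith
  refine clean_window (t := z.im) hh0 ?_ hE hz (by rw [sub_self, abs_zero]; positivity)
  rintro ⟨b, hb, h1, _⟩
  linarith [XX_re_lt hb]

/-- the Riemann hypothesis in terms of `ξ(s + h) + ξ(s - h)` -/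
theorem rh_iff : RiemannHypothesis ↔ ∀ h : ℝ, 0 < h → ∀ z : ℂ, XX (z + h) + XX (z - h) = 0 → z.re = 0 := by
  constructor
  · intro hRH h hh z hz
    have h1 := on_line hh (fun b hb => by
      rw [Pool.Agent.H986R2.DBN.Rhr.re_zero hRH b hb, abs_zero]; exact hh.le) (EE_HB 0 le_rfl) (z := z)
    apply h1
    rw [FE_eq]
    have e1 : ∀ w : ℂ, EE 0 0 w = 1 := by
      intro w; unfold EE; simp
    rw [e1, e1, map_one, one_mul, one_mul, hz]
  · intro hall
    apply Pool.Agent.H24R2.JP.Farey.RH_of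
    intro s hs _ h0
    set b := s - 1 / 2 with hb
    have hb0 : XX b = 0 := XX_of_zeta hs h0
    have hbre : 0 < b.re := by rw [hb]; simp; linarith
    set r := b.re / 2 with hr
    have hr0 : 0 < r := by positivity
    obtain ⟨δ, hδ, hst⟩ := stab XX_ent (U := Metric.ball b r) Metric.isOpen_ball Metric.isBounded_ball
    set f : ℝ → ℂ → ℂ := fun h z => (XX (z + h) + XX (z - h)) / 2 with hf
    have hcont : Continuous (fun p : ℝ × ℂ => ‖f p.1 p.2 - XX p.2‖) := by
      have h1 := B1h.XX_diff.continuous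
      simp only [hf]
      fun_prop
    have h2 : ∀ᶠ h in 𝓝 (0 : ℝ), ∀ w ∈ closure (Metric.ball b r), ‖f h w - XX w‖ < δ := by
      apply Metric.isBounded_ball.isCompact_closure.eventually_forall_of_forall_eventually
      intro w _
      have h3 := hcont.tendsto ((0 : ℝ), w)
      have h4 : ‖f 0 w - XX w‖ = 0 := by
        simp [hf]
      simp only [h4] at h3
      exact h3.eventually (gt_mem_nhds hδ)
    obtain ⟨h, h5, h6⟩ := ((h2.filter_mono nhdsWithin_le_nhds).and (self_mem_nhdsWithin : ∀ᶠ h in 𝓝[>] (0 : ℝ), h ∈ Ioi (0 : ℝ))).exists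
    have hh : 0 < h := h6
    have hfd : Differentiable ℂ (f h) := by
      have h1 : Differentiable ℂ (fun z : ℂ => XX (z + h)) := XX_shift_diff h
      have h2 : Differentiable ℂ (fun z : ℂ => XX (z - h)) := B1h.XX_diff.comp (by fun_prop)
      exact (h1.add h2).div_const 2
    have hzero : ∀ z : ℂ, f h z = 0 → z.re = 0 := by
      intro z hz
      apply hall h hh z
      simp only [hf] at hz
      rcases div_eq_zero_iff.1 hz with h7 | h7
      · exact h7
      · norm_num at h7
    have hEnt : Ent (f h) := ⟨hfd, ⟨1, fun h7 => by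
      have := hzero 1 h7
      simp at this⟩⟩
    have h7 := (hst (f h) hEnt h5).1
    have h8 : 1 ≤ cnt XX (Metric.ball b r) := by
      obtain ⟨Z, hZ⟩ := XX_ent.exS (U := Metric.ball b r) Metric.isBounded_ball
      classical
      rw [cnt_eq XX_ent.diff Z (fun z hz h0 => (hZ z).2 ⟨subset_closure hz, h0⟩)]
      have h9 : b ∈ Z.filter (fun z => z ∈ Metric.ball b r) :=
        Finset.mem_filter.2 ⟨(hZ b).2 ⟨subset_closure (Metric.mem_ball_self hr0), hb0⟩, Metric.mem_ball_self hr0⟩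
      exact (ord_pos XX_ent hb0).trans (Finset.single_le_sum (f := fun z => analyticOrderNatAt XX z)
        (fun _ _ => Nat.zero_le _) h9)
    have h10 : cnt (f h) (Metric.ball b r) = 0 := by
      unfold cnt
      apply finsum_mem_eq_zero_of_forall_eq_zero
      intro z hz
      apply ord_zero hfd
      intro h11
      have h12 := hzero z h11
      rw [Metric.mem_ball, dist_eq_norm] at hz
      have h13 := (Complex.abs_re_le_norm (z - b)).trans_lt hz
      rw [Complex.sub_re, h12, zero_sub, abs_neg, abs_of_pos hbre] at h13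
      linarith
    omega

/-- zero-free half-planes in terms of all the combinations `e^{iθ} ξ(s + h) + e^{-iθ} ξ(s - h)` -/
theorem half_plane_iff {h : ℝ} (hh : 0 < h) : (∀ s : ℂ, 1 / 2 + h < s.re → riemannZeta s ≠ 0) ↔
    ∀ (θ : ℝ) (z : ℂ), FE (EE θ 0) h z = 0 → z.re = 0 := by
  constructor
  · intro hz θ z h0
    refine on_line hh (fun b hb => ?_) (EE_HB θ le_rfl) h0
    have key : ∀ b : ℂ, XX b = 0 → b.re ≤ h := by
      intro b hb
      by_contra hcon
      push Not at hcon
      exact hz (1 / 2 + b) (by simp; linarith) (zeta_of_XX hb)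
    rw [abs_le]
    constructor
    · have := key (-b) (by rw [Zer.XX_even]; exact hb)
      simp at this
      linarith
    · exact key b hb
  · intro hall s hs h0
    have hb0 : XX (s - 1 / 2) = 0 := XX_of_zeta (by linarith) h0
    set U : Set ℂ := {z | 0 < z.re} with hU
    have hUc : IsPreconnected U := (convex_halfSpace_re_gt 0).isPreconnected
    have c1 : Continuous (fun z : ℂ => ‖XX (z - h)‖) := (B1h.XX_diff.continuous.comp (by fun_prop)).norm
    have c2 : Continuous (fun z : ℂ => ‖XX (z + h)‖) := (B1h.XX_diff.continuous.comp (by fun_prop)).norm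
    have hA : IsOpen {z : ℂ | ‖XX (z - h)‖ < ‖XX (z + h)‖} := isOpen_lt c1 c2
    have hB : IsOpen {z : ℂ | ‖XX (z + h)‖ < ‖XX (z - h)‖} := isOpen_lt c2 c1
    have hcov : U ⊆ {z : ℂ | ‖XX (z - h)‖ < ‖XX (z + h)‖} ∪ {z : ℂ | ‖XX (z + h)‖ < ‖XX (z - h)‖} := by
      intro z hz
      by_contra hcon
      rw [Set.mem_union, not_or] at hcon
      have h1 : ‖XX (z - h)‖ = ‖XX (z + h)‖ := le_antisymm (not_lt.1 hcon.2) (not_lt.1 hcon.1)
      -- choose the angle
      obtain ⟨θ, hθ⟩ : ∃ θ : ℝ, cexp (I * θ) * XX (z + h) + cexp (-(I * θ)) * XX (z - h) = 0 := by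
        refine ⟨(Real.pi + (XX (z - h)).arg - (XX (z + h)).arg) / 2, ?_⟩
        set α := (XX (z + h)).arg with hα
        set β := (XX (z - h)).arg with hβ
        have e1 : XX (z + h) = (‖XX (z + h)‖ : ℂ) * cexp (α * I) := (Complex.norm_mul_exp_arg_mul_I _).symm
        have e2 : XX (z - h) = (‖XX (z + h)‖ : ℂ) * cexp (β * I) := by
          rw [← h1]; exact (Complex.norm_mul_exp_arg_mul_I _).symm
        rw [e1, e2]
        have e3 : cexp (I * (((Real.pi + β - α) / 2 : ℝ) : ℂ)) * cexp (α * I) = cexp ((Real.pi / 2 : ℂ) * I) * cexp (((α + β) / 2 : ℂ) * I) := by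
          rw [← Complex.exp_add, ← Complex.exp_add]; congr 1; push_cast; ring
        have e4 : cexp (-(I * (((Real.pi + β - α) / 2 : ℝ) : ℂ))) * cexp (β * I) = cexp (-(Real.pi / 2 : ℂ) * I) * cexp (((α + β) / 2 : ℂ) * I) := by
          rw [← Complex.exp_add, ← Complex.exp_add]; congr 1; push_cast; ring
        have e5 : cexp ((Real.pi / 2 : ℂ) * I) = I := Complex.exp_pi_div_two_mul_I
        have e6 : cexp (-(Real.pi / 2 : ℂ) * I) = -I := by
          rw [neg_mul, Complex.exp_neg, e5, Complex.inv_I]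
        calc _ = (‖XX (z + h)‖ : ℂ) * (cexp (I * (((Real.pi + β - α) / 2 : ℝ) : ℂ)) * cexp (α * I)) +
              (‖XX (z + h)‖ : ℂ) * (cexp (-(I * (((Real.pi + β - α) / 2 : ℝ) : ℂ))) * cexp (β * I)) := by ring
          _ = 0 := by rw [e3, e4, e5, e6]; ring
      have h2 : FE (EE θ 0) h z = 0 := by
        rw [FE_eq]
        have e1 : ∀ w : ℂ, EE θ 0 w = cexp (I * θ) := by
          intro w; unfold EE; simp
        rw [e1, e1, ← Complex.exp_conj, map_mul, Complex.conj_I, Complex.conj_ofReal, neg_mul]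
        exact hθ
      exact (ne_of_gt hz) (hall θ z h2)
    have hne1 : (U ∩ {z : ℂ | ‖XX (z - h)‖ < ‖XX (z + h)‖}).Nonempty :=
      ⟨1, by simp [hU], clr_strict hh (by simp) (Or.inl (by norm_num))⟩
    have hzU : (s - 1 / 2 - h : ℂ) ∈ U := by
      simp [hU]; linarith
    have hne2 : (U ∩ {z : ℂ | ‖XX (z + h)‖ < ‖XX (z - h)‖}).Nonempty := by
      refine ⟨_, hzU, ?_⟩
      rcases hcov hzU with h1 | h1
      · exfalso
        have e : (s - 1 / 2 - h + h : ℂ) = s - 1 / 2 := by ring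
        have h2 : ‖XX (s - 1 / 2 - h - h)‖ < ‖XX (s - 1 / 2 - h + h)‖ := h1
        rw [e, hb0, norm_zero] at h2
        exact absurd h2 (not_lt.2 (norm_nonneg _))
      · exact h1
    obtain ⟨z, _, h1, h2⟩ := hUc _ _ hA hB hcov hne1 hne2
    exact lt_asymm (show ‖XX (z - h)‖ < ‖XX (z + h)‖ from h1) h2

end

end Pool.Agent.K3h34.DX
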