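import Pool.Agent.K3h34.DX.Main
import Pool.Agent.Y22.RX2

set_option autoImplicit false

/-! The measure of the heights near zeros of zeta to the right of `1/2 + h`. -/

namespace Pool.Agent.K3h34.DX

open Complex Filter Topology MeasureTheory Set
open Pool.Agent.H24R2.JP

noncomputable section

theorem part_seven {c : ℝ} (hc : c < 4 / 3) : ∃ C : ℝ, 0 < C ∧ ∀ h T : ℝ, 0 ≤ h → h ≤ 1 / 2 → 2 ≤ T →
    ∀ Bad : ℝ → Prop, (∀ t : ℝ, 24 ≤ t → Bad t →
      ∃ ρ : ℂ, riemannZeta ρ = 0 ∧ |t - ρ.im| ≤ 7 * (ρ.re - 1 / 2) ∧ h ≤ ρ.re - 1 / 2) →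
    volume {t : ℝ | 0 ≤ t ∧ t ≤ T ∧ Bad t} ≤ ENNReal.ofReal (C * T ^ (1 - c * h)) := by
  classical
  obtain ⟨c', hc'0, hcc', hc'1⟩ : ∃ c' : ℝ, 0 < c' ∧ c < c' ∧ c' < 4 / 3 := by
    refine ⟨max ((c + 4 / 3) / 2) 1, ?_, ?_, ?_⟩
    · exact lt_of_lt_of_le one_pos (le_max_right _ _)
    · exact lt_of_lt_of_le (by linarith) (le_max_left _ _)
    · exact max_lt (by linarith) (by norm_num)
  obtain ⟨C, hC, hD⟩ := Pool.Agent.Y24.density hc'1
  set δ : ℝ := c' - c with hδ
  have hδ0 : 0 < δ := by rw [hδ]; linarith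
  refine ⟨24 + 14 * (C * 3 ^ (1 + |c|) * (1 / δ + 1 / c')), by positivity, fun h T h0 h12 hT Bad hBad => ?_⟩
  have hT0 : 0 < T := by linarith
  set T' : ℝ := T + 4 with hT'
  have hT'2 : 2 ≤ T' := by rw [hT']; linarith
  have hT'0 : 0 < T' := by linarith
  set L := Real.log T' with hL
  have hL0 : 0 < L := Real.log_pos (by linarith)
  have hexp : 0 ≤ 1 - c * h := by
    have h1 : c * h ≤ 4 / 3 * h := mul_le_mul_of_nonneg_right hc.le h0
    linarith
  have hfin := (hD (1 / 2 + h) T' (by linarith) (by linarith) hT'2).1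
  set Z := hfin.toFinset with hZ
  have hmem : ∀ b, b ∈ Z ↔ riemannZeta b = 0 ∧ 1 / 2 + h ≤ b.re ∧ 0 < b.im ∧ b.im ≤ T' := fun b => by
    rw [hZ, Set.Finite.mem_toFinset]; rfl
  have hre1 : ∀ b, riemannZeta b = 0 → b.re < 1 := fun b hb => by
    by_contra hcon
    exact riemannZeta_ne_zero_of_one_le_re (not_lt.mp hcon) hb
  have hcnt : ∀ u : ℝ, h ≤ u → ((Z.filter (fun b => u ≤ b.re - 1 / 2)).card : ℝ) ≤
      (C * T' * L) * Real.exp (-((c' * L) * u)) := by
    intro u hu
    have hu0 : 0 ≤ u := h0.trans hu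
    rcases le_or_gt u (1 / 2) with hu2 | hu2
    · obtain ⟨hf1, hf2⟩ := hD (1 / 2 + u) T' (by linarith) (by linarith) hT'2
      have h1 : ((Z.filter (fun b => u ≤ b.re - 1 / 2)).card : ℝ) ≤
          ∑ᶠ ρ ∈ Pool.Agent.Y24.ZZ (1 / 2 + u) T', (analyticOrderNatAt riemannZeta ρ : ℝ) := by
        rw [finsum_mem_eq_finite_toFinset_sum _ hf1]
        have h2 : Z.filter (fun b => u ≤ b.re - 1 / 2) ⊆ hf1.toFinset := by
          intro b hb
          rw [Finset.mem_filter, hmem] at hb
          rw [Set.Finite.mem_toFinset]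
          exact ⟨hb.1.1, by linarith [hb.2], hb.1.2.2.1, hb.1.2.2.2⟩
        calc ((Z.filter (fun b => u ≤ b.re - 1 / 2)).card : ℝ) ≤ (hf1.toFinset.card : ℝ) := by
              exact_mod_cast Finset.card_le_card h2
          _ = ∑ ρ ∈ hf1.toFinset, (1 : ℝ) := by simp
          _ ≤ _ := by
            refine Finset.sum_le_sum fun ρ hρ => ?_
            rw [Set.Finite.mem_toFinset] at hρ
            have hz : riemannZeta ρ = 0 := hρ.1
            have hne1 : ρ ≠ 1 := by
              intro h1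
              rw [h1] at hz
              exact riemannZeta_ne_zero_of_one_le_re (by simp) hz
            have han : AnalyticAt ℂ riemannZeta ρ := by
              refine DifferentiableOn.analyticAt (s := {1}ᶜ) (fun z hz => (differentiableAt_riemannZeta hz).differentiableWithinAt) ?_
              exact isOpen_compl_singleton.mem_nhds hne1
            have htop : analyticOrderAt riemannZeta ρ ≠ ⊤ := by
              intro htop
              rw [analyticOrderAt_eq_top] at htop
              have hid : AnalyticOnNhd ℂ riemannZeta {1}ᶜ := fun z hz => by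
                refine DifferentiableOn.analyticAt (s := {1}ᶜ) (fun w hw => (differentiableAt_riemannZeta hw).differentiableWithinAt) ?_
                exact isOpen_compl_singleton.mem_nhds hz
              have hconn : IsPreconnected ({1}ᶜ : Set ℂ) :=
                (isConnected_compl_singleton_of_one_lt_rank (by simp) (1 : ℂ)).isPreconnected
              have h3 := hid.eqOn_zero_of_preconnected_of_eventuallyEq_zero hconn hne1 htop
              have h4 : riemannZeta 2 = 0 := h3 (by norm_num : (2 : ℂ) ∈ ({1}ᶜ : Set ℂ))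
              exact riemannZeta_ne_zero_of_one_le_re (by norm_num) h4
            have hord : analyticOrderNatAt riemannZeta ρ ≠ 0 := by
              intro h0
              have h1 : analyticOrderAt riemannZeta ρ = 0 := by
                rw [← Nat.cast_analyticOrderNatAt htop, h0]; rfl
              rw [han.analyticOrderAt_eq_zero] at h1
              exact h1 hz
            have : 1 ≤ analyticOrderNatAt riemannZeta ρ := Nat.one_le_iff_ne_zero.mpr hord
            exact_mod_cast this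
      refine h1.trans (hf2.trans (le_of_eq ?_))
      have h3 : T' ^ (1 - c' * ((1 / 2 + u) - 1 / 2)) = T' * Real.exp (-((c' * L) * u)) := by
        rw [Real.rpow_def_of_pos hT'0]
        have : Real.log T' * (1 - c' * ((1 / 2 + u) - 1 / 2)) = Real.log T' + -((c' * L) * u) := by
          rw [hL]; ring
        rw [this, Real.exp_add, Real.exp_log hT'0]
      rw [h3]; ring
    · have h1 : Z.filter (fun b => u ≤ b.re - 1 / 2) = ∅ := by
        rw [Finset.filter_eq_empty_iff]
        intro b hb hub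
        have := hre1 b ((hmem b).mp hb).1
        linarith
      rw [h1]
      simp only [Finset.card_empty, Nat.cast_zero]
      positivity
  have hsum := Pool.Agent.Y22.RX.sum_le Z (fun b => b.re - 1 / 2) (h0 := h) (A := C * T' * L) (a := c' * L)
    (by positivity) h0 (by positivity) (fun b hb => by have := ((hmem b).mp hb).2.1; linarith) hcnt
  -- cover
  have hsub : {t : ℝ | 0 ≤ t ∧ t ≤ T ∧ Bad t} ⊆ Set.Icc 0 24 ∪ ⋃ b ∈ Z, Set.Icc (b.im - 7 * (b.re - 1 / 2)) (b.im + 7 * (b.re - 1 / 2)) := by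
    rintro t ⟨ht0, htT, hbad⟩
    rcases le_or_gt t 24 with h24 | h24
    · exact Or.inl ⟨ht0, h24⟩
    · right
      obtain ⟨ρ, h1, h2, h3⟩ := hBad t h24.le hbad
      have h4 := hre1 ρ h1
      rw [abs_le] at h2
      refine Set.mem_biUnion (x := ρ) ?_ ⟨by linarith, by linarith⟩
      rw [Finset.mem_coe, hmem]
      exact ⟨h1, by linarith, by linarith, by rw [hT']; linarith⟩
  refine (measure_mono hsub).trans ((measure_union_le _ _).trans ?_)
  have h5 : volume (⋃ b ∈ Z, Set.Icc (b.im - 7 * (b.re - 1 / 2)) (b.im + 7 * (b.re - 1 / 2))) ≤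
      ENNReal.ofReal (14 * ∑ b ∈ Z, (b.re - 1 / 2)) := by
    refine (measure_biUnion_finset_le Z _).trans (le_of_eq ?_)
    rw [Finset.mul_sum, ENNReal.ofReal_sum_of_nonneg (fun b hb => by have := ((hmem b).mp hb).2.1; linarith)]
    refine Finset.sum_congr rfl fun b _ => ?_
    rw [Real.volume_Icc]
    congr 1
    ring
  have hpow : T' ^ (1 - c * h) ≤ 3 ^ (1 + |c|) * T ^ (1 - c * h) := by
    calc T' ^ (1 - c * h) ≤ (3 * T) ^ (1 - c * h) := Real.rpow_le_rpow hT'0.le (by rw [hT']; linarith) hexp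
      _ = 3 ^ (1 - c * h) * T ^ (1 - c * h) := Real.mul_rpow (by norm_num) hT0.le
      _ ≤ 3 ^ (1 + |c|) * T ^ (1 - c * h) := by
        refine mul_le_mul_of_nonneg_right ?_ (by positivity)
        refine Real.rpow_le_rpow_of_exponent_le (by norm_num) ?_
        have h6 : -(c * h) ≤ |c| := by
          have := abs_nonneg c
          have h7 := neg_abs_le c
          nlinarith
        linarith
  have hT1 : 1 ≤ T ^ (1 - c * h) := Real.one_le_rpow (by linarith) hexp
  have hbound : 14 * ∑ b ∈ Z, (b.re - 1 / 2) ≤ 14 * (C * 3 ^ (1 + |c|) * (1 / δ + 1 / c')) * T ^ (1 - c * h) := by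
    have h6 : C * T' * L * Real.exp (-(c' * L * h)) * (h + 1 / (c' * L)) =
        C * T' * Real.exp (-(c * L * h)) * (L * h * Real.exp (-(δ * (L * h))) + Real.exp (-(δ * (L * h))) / c') := by
      have e1 : Real.exp (-(c' * L * h)) = Real.exp (-(c * L * h)) * Real.exp (-(δ * (L * h))) := by
        rw [← Real.exp_add]; congr 1; rw [hδ]; ring
      rw [e1]
      field_simp
    have h7 : L * h * Real.exp (-(δ * (L * h))) ≤ 1 / δ := by
      have h8 := Real.add_one_le_exp (δ * (L * h))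
      have h9 : 0 ≤ L * h := mul_nonneg hL0.le h0
      have h10 : Real.exp (-(δ * (L * h))) * Real.exp (δ * (L * h)) = 1 := by
        rw [← Real.exp_add]; simp
      have h11 : 0 < Real.exp (-(δ * (L * h))) := Real.exp_pos _
      rw [le_div_iff₀ hδ0]
      nlinarith
    have h8 : Real.exp (-(δ * (L * h))) ≤ 1 := by
      rw [Real.exp_le_one_iff]
      have h9 : 0 ≤ L * h := mul_nonneg hL0.le h0
      nlinarith
    have h9 : T' * Real.exp (-(c * L * h)) = T' ^ (1 - c * h) := by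
      rw [Real.rpow_def_of_pos hT'0]
      have : Real.log T' * (1 - c * h) = Real.log T' + -(c * L * h) := by rw [hL]; ring
      rw [this, Real.exp_add, Real.exp_log hT'0]
    have h10 : ∑ b ∈ Z, (b.re - 1 / 2) ≤ C * T' ^ (1 - c * h) * (1 / δ + 1 / c') := by
      refine hsum.trans ?_
      rw [h6]
      have e2 : C * T' * Real.exp (-(c * L * h)) = C * T' ^ (1 - c * h) := by rw [mul_assoc, h9]
      rw [e2]
      gcongr
    calc 14 * ∑ b ∈ Z, (b.re - 1 / 2) ≤ 14 * (C * T' ^ (1 - c * h) * (1 / δ + 1 / c')) := by linarith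
      _ ≤ 14 * (C * (3 ^ (1 + |c|) * T ^ (1 - c * h)) * (1 / δ + 1 / c')) := by gcongr
      _ = _ := by ring
  have hfinal : (24 : ℝ) + 14 * ∑ b ∈ Z, (b.re - 1 / 2) ≤ (24 + 14 * (C * 3 ^ (1 + |c|) * (1 / δ + 1 / c'))) * T ^ (1 - c * h) := by
    nlinarith
  have hnn : 0 ≤ 14 * ∑ b ∈ Z, (b.re - 1 / 2) :=
    mul_nonneg (by norm_num) (Finset.sum_nonneg fun b hb => by have := ((hmem b).mp hb).2.1; linarith)
  calc volume (Set.Icc (0 : ℝ) 24) + volume (⋃ b ∈ Z, Set.Icc (b.im - 7 * (b.re - 1 / 2)) (b.im + 7 * (b.re - 1 / 2)))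
      ≤ ENNReal.ofReal 24 + ENNReal.ofReal (14 * ∑ b ∈ Z, (b.re - 1 / 2)) := by
        refine add_le_add (le_of_eq ?_) h5
        rw [Real.volume_Icc, sub_zero]
    _ = ENNReal.ofReal (24 + 14 * ∑ b ∈ Z, (b.re - 1 / 2)) := (ENNReal.ofReal_add (by norm_num) hnn).symm
    _ ≤ _ := ENNReal.ofReal_le_ofReal hfinal

/-- `t` is within `7 |Re b|` of the height of a zero `b` at distance at least `h` from the line -/
def BadK (h t : ℝ) : Prop := ∃ b : ℂ, XX b = 0 ∧ h ≤ |b.re| ∧ |t - b.im| ≤ 7 * |b.re|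

lemma BadK_zeta {h t : ℝ} (ht : 24 ≤ t) (hb : BadK h t) :
    ∃ ρ : ℂ, riemannZeta ρ = 0 ∧ |t - ρ.im| ≤ 7 * (ρ.re - 1 / 2) ∧ h ≤ ρ.re - 1 / 2 := by
  obtain ⟨b, h0, h1, h2⟩ := hb
  have h3 := XX_re_lt h0
  have him : 0 < b.im := by
    rw [abs_le] at h2
    linarith [h2.2]
  rcases le_or_gt 0 b.re with h4 | h4
  · rw [abs_of_nonneg h4] at h1 h2
    refine ⟨1 / 2 + b, (Pool.Agent.Y22.LM.XX_zero_iff him).1 h0, ?_, ?_⟩
    · simpa using h2
    · simpa using h1
  · rw [abs_of_neg h4] at h1 h2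
    have h5 := Pool.Agent.Y22.LM.XX_refl_zero h0
    have him' : 0 < (-(starRingEnd ℂ) b).im := by simpa using him
    refine ⟨1 / 2 + -(starRingEnd ℂ) b, (Pool.Agent.Y22.LM.XX_zero_iff him').1 h5, ?_, ?_⟩
    · simpa using h2
    · simpa using h1

theorem meas_bad {c : ℝ} (hc : c < 4 / 3) : ∃ C : ℝ, 0 < C ∧ ∀ h T : ℝ, 0 ≤ h → h ≤ 1 / 2 → 2 ≤ T →
    volume {t : ℝ | 0 ≤ t ∧ t ≤ T ∧ BadK h t} ≤ ENNReal.ofReal (C * T ^ (1 - c * h)) := by
  obtain ⟨C, hC, h1⟩ := part_seven hc
  exact ⟨C, hC, fun h T h0 h12 hT => h1 h T h0 h12 hT _ fun t ht hb => BadK_zeta ht hb⟩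

lemma clr_of_not_bad {h t Y : ℝ} (hb : ¬ BadK h t) (hY : |Y - t| ≤ 6 * h) : Clr h Y := by
  intro b h0 h1
  by_contra hcon
  push Not at hcon
  apply hb
  refine ⟨b, h0, h1, ?_⟩
  have h2 : |t - b.im| ≤ |Y - t| + |Y - b.im| := by
    have : t - b.im = -(Y - t) + (Y - b.im) := by ring
    rw [this]
    refine (abs_add_le _ _).trans ?_
    rw [abs_neg]
  linarith

end

end Pool.Agent.K3h34.DX
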