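import Pool.Agent.K3h34.DX.Many
import Pool.Agent.K3h34.DX.Meas

set_option autoImplicit false

/-!
# The number of exceptional zeros in dyadic windows
-/

namespace Pool.Agent.K3h34.DX

open Complex Filter Topology MeasureTheory Set
open Pool.Agent.H24R2.JP

noncomputable section

/-- the zeros in the dyadic window -/
def ZD (E : ℂ → ℂ) (h T : ℝ) : Set ℂ := {z | FE E h z = 0 ∧ T < z.im ∧ z.im ≤ 2 * T}

/-- the exceptional ones -/
def XD (E : ℂ → ℂ) (h T : ℝ) : Set ℂ := {z | z ∈ ZD E h T ∧ (z.re ≠ 0 ∨ 2 ≤ analyticOrderNatAt (FE E h) z)}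

lemma ZD_fin {E : ℂ → ℂ} (hE : HBz E) {h : ℝ} (hh : 0 < h) (T : ℝ) : (ZD E h T).Finite := by
  have hK : IsCompact (Metric.closedBall (0 : ℂ) (1 + (|T| + 2 * |T|))) := isCompact_closedBall _ _
  refine ((FE_ent hE hh).fin hK).subset ?_
  rintro z ⟨h0, h1, h2⟩
  refine ⟨?_, h0⟩
  rw [Metric.mem_closedBall, dist_zero_right]
  refine (Complex.norm_le_abs_re_add_abs_im z).trans ?_
  have h3 := FE_strip hE hh h0
  have h4 : |z.im| ≤ |T| + 2 * |T| := by
    rw [abs_le]
    constructor
    · linarith [neg_abs_le T, abs_nonneg T]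
    · linarith [le_abs_self T, abs_nonneg T]
  linarith

lemma cnt_fin_eq {f : ℂ → ℂ} {U : Set ℂ} (hU : U.Finite) : cnt f U = ∑ z ∈ hU.toFinset, analyticOrderNatAt f z := by
  unfold cnt
  exact finsum_mem_eq_finite_toFinset_sum _ hU

lemma cnt_XD_le {E : ℂ → ℂ} (hE : HBz E) {h : ℝ} (hh : 0 < h) (T : ℝ) :
    cnt (FE E h) (XD E h T) ≤ cnt (FE E h) (ZD E h T) := by
  have h1 := ZD_fin hE hh T
  have h2 : (XD E h T).Finite := h1.subset fun z hz => hz.1
  rw [cnt_fin_eq h1, cnt_fin_eq h2]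
  apply Finset.sum_le_sum_of_subset
  intro z hz
  rw [Set.Finite.mem_toFinset] at hz ⊢
  exact hz.1

/-- the bound in the main range -/
theorem main_range {c : ℝ} (hc0 : 0 ≤ c) (hc : c < 4 / 3) : ∃ C K T0 : ℝ, 0 < C ∧ 1 ≤ K ∧ 2 ≤ T0 ∧
    ∀ (T h : ℝ) (E : ℂ → ℂ), T0 ≤ T → 0 < h → h ≤ 1 / 2 → K ≤ h * Real.log T → HBz E →
      (cnt (FE E h) (XD E h T) : ℝ) ≤ C * T ^ (1 - c * h) * Real.log T ∧
      T * Real.log T / 200 ≤ (cnt (FE E h) (ZD E h T) : ℝ) := by
  classical
  obtain ⟨C1, hC1, hden⟩ := Pool.Agent.Y24.density hc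
  obtain ⟨C2, hC2, hbad⟩ := meas_bad (c := 1) (by norm_num)
  obtain ⟨K3, T3, hK3, hT3, hmany⟩ := many
  refine ⟨48 * C1, max K3 (Real.log (16 * C2)), T3, by positivity, hK3.trans (le_max_left _ _), hT3, ?_⟩
  intro T h E hT hh hh2 hK hE
  have hT2 : 2 ≤ T := hT3.trans hT
  have hT0 : 0 < T := by linarith
  have hL0 : 0 < Real.log T := Real.log_pos (by linarith)
  have hF := FE_ent hE hh
  constructor
  · -- good heights
    have hm := hbad h (4 * T) hh.le hh2 (by linarith)
    have hsmall : C2 * (4 * T) ^ (1 - 1 * h) ≤ T / 4 := by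
      have h1 : (4 * T) ^ (1 - 1 * h) ≤ 4 * (T * Real.exp (-(h * Real.log T))) := by
        rw [Real.mul_rpow (by norm_num) hT0.le]
        have h2 : (4 : ℝ) ^ (1 - 1 * h) ≤ 4 := by
          calc (4 : ℝ) ^ (1 - 1 * h) ≤ 4 ^ (1 : ℝ) := Real.rpow_le_rpow_of_exponent_le (by norm_num) (by linarith)
            _ = 4 := Real.rpow_one 4
        have h3 : T ^ (1 - 1 * h) = T * Real.exp (-(h * Real.log T)) := by
          rw [Real.rpow_def_of_pos hT0, show Real.log T * (1 - 1 * h) = Real.log T + -(h * Real.log T) by ring,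
            Real.exp_add, Real.exp_log hT0]
        rw [h3]
        exact mul_le_mul_of_nonneg_right h2 (by positivity)
      have h4 : Real.exp (-(h * Real.log T)) ≤ (16 * C2)⁻¹ := by
        rw [← Real.exp_log (show 0 < 16 * C2 by positivity), ← Real.exp_neg]
        apply Real.exp_le_exp.mpr
        have := (le_max_right K3 (Real.log (16 * C2))).trans hK
        linarith
      calc C2 * (4 * T) ^ (1 - 1 * h) ≤ C2 * (4 * (T * (16 * C2)⁻¹)) := by
            refine mul_le_mul_of_nonneg_left (h1.trans ?_) hC2.le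
            gcongr
        _ = T / 4 := by field_simp; norm_num
    have hm' := hm.trans (ENNReal.ofReal_le_ofReal hsmall)
    have hpick : ∀ a b : ℝ, 0 ≤ a → b ≤ 4 * T → T / 2 ≤ b - a → ∃ Y ∈ Ioo a b, Clr h Y := by
      intro a b ha hb hab
      by_contra hcon
      push Not at hcon
      have hsub : Ioo a b ⊆ {t : ℝ | 0 ≤ t ∧ t ≤ 4 * T ∧ BadK h t} := by
        intro Y hY
        refine ⟨by linarith [hY.1], by linarith [hY.2], ?_⟩
        by_contra hnb
        exact hcon Y hY (clr_of_not_bad hnb (by rw [sub_self, abs_zero]; positivity))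
      have h1 := (measure_mono hsub).trans hm'
      rw [Real.volume_Ioo] at h1
      have h2 := (ENNReal.ofReal_le_ofReal_iff (by linarith)).1 h1
      linarith
    obtain ⟨Y1, hY1, hc1⟩ := hpick (T / 2) T (by linarith) (by linarith) (by linarith)
    obtain ⟨Y2, hY2, hc2⟩ := hpick (2 * T) (4 * T) (by linarith) le_rfl (by linarith)
    have h2 : (XD E h T).Finite := (ZD_fin hE hh T).subset fun z hz => hz.1
    have h3 := exc_count hE hh (Y1 := Y1) (Y2 := Y2) (by linarith [hY1.2, hY2.1]) hc1 hc2 h2.toFinset (by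
      intro s hs
      rw [Set.Finite.mem_toFinset] at hs
      obtain ⟨⟨a1, a2, a3⟩, a4⟩ := hs
      exact ⟨by linarith [hY1.2], by linarith [hY2.1], a1, a4⟩)
    rw [← cnt_fin_eq h2] at h3
    have h4 := cnt_VV (h := h) (Y1 := Y1) (Y2 := Y2) hh (by linarith [hY1.1])
    have h5 := (hden (1 / 2 + h) Y2 (by linarith) (by linarith) (by linarith [hY2.1])).2
    have h6 : (cnt (FE E h) (XD E h T) : ℝ) ≤ 4 * (cnt XX (VV h Y1 Y2) : ℝ) := by exact_mod_cast h3
    have hexp : 0 ≤ 1 - c * h := by nlinarith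
    have hexp1 : 1 - c * h ≤ 1 := by nlinarith [mul_nonneg hc0 hh.le]
    have e1 : 1 - c * (1 / 2 + h - 1 / 2) = 1 - c * h := by ring
    rw [e1] at h5
    have hY2T : Y2 ≤ 4 * T := hY2.2.le
    have hY20 : 0 < Y2 := by linarith [hY2.1]
    have h7 : Y2 ^ (1 - c * h) ≤ 4 * T ^ (1 - c * h) := by
      calc Y2 ^ (1 - c * h) ≤ (4 * T) ^ (1 - c * h) := Real.rpow_le_rpow hY20.le hY2T hexp
        _ = 4 ^ (1 - c * h) * T ^ (1 - c * h) := Real.mul_rpow (by norm_num) hT0.le
        _ ≤ 4 * T ^ (1 - c * h) := by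
          refine mul_le_mul_of_nonneg_right ?_ (by positivity)
          calc (4 : ℝ) ^ (1 - c * h) ≤ 4 ^ (1 : ℝ) := Real.rpow_le_rpow_of_exponent_le (by norm_num) hexp1
            _ = 4 := Real.rpow_one 4
    have h8 : Real.log Y2 ≤ 3 * Real.log T := by
      calc Real.log Y2 ≤ Real.log (4 * T) := Real.log_le_log hY20 hY2T
        _ = Real.log 4 + Real.log T := Real.log_mul (by norm_num) hT0.ne'
        _ ≤ 2 * Real.log T + Real.log T := by
          have : Real.log 4 = 2 * Real.log 2 := by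
            rw [show (4 : ℝ) = 2 ^ 2 by norm_num, Real.log_pow]; norm_num
          rw [this]
          have := Real.log_le_log (by norm_num) hT2
          linarith
        _ = 3 * Real.log T := by ring
    have h9 : 0 ≤ Real.log Y2 := Real.log_nonneg (by linarith [hY2.1])
    have h10 : C1 * Y2 ^ (1 - c * h) * Real.log Y2 ≤ C1 * (4 * T ^ (1 - c * h)) * (3 * Real.log T) := by
      gcongr
    calc (cnt (FE E h) (XD E h T) : ℝ) ≤ 4 * (C1 * (4 * T ^ (1 - c * h)) * (3 * Real.log T)) := by linarith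
      _ = 48 * C1 * T ^ (1 - c * h) * Real.log T := by ring
  · obtain ⟨S, hS, hcard⟩ := hmany T h E hT hh hh2 ((le_max_left _ _).trans hK) hE
    refine hcard.trans ?_
    have h1 := ZD_fin hE hh T
    rw [cnt_fin_eq h1]
    have h2 : S.card ≤ ∑ z ∈ h1.toFinset, analyticOrderNatAt (FE E h) z := by
      calc S.card = ∑ _z ∈ S, 1 := by simp
        _ ≤ ∑ z ∈ S, analyticOrderNatAt (FE E h) z := Finset.sum_le_sum fun z hz => ord_pos hF (hS z hz).1
        _ ≤ _ := by
          apply Finset.sum_le_sum_of_subset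
          intro z hz
          rw [Set.Finite.mem_toFinset]
          obtain ⟨a1, _, a3, a4⟩ := hS z hz
          exact ⟨a1, a3, a4⟩
    exact_mod_cast h2

/-- the uniform bound -/
theorem count_main {c : ℝ} (hc : c < 4 / 3) : ∃ C : ℝ, 0 < C ∧ ∀ (T h : ℝ) (E : ℂ → ℂ), 2 ≤ T → 0 < h → h ≤ 1 / 2 →
    HBz E → (cnt (FE E h) (XD E h T) : ℝ) ≤ C * T ^ (-(c * h)) * (cnt (FE E h) (ZD E h T) : ℝ) ∧
      (C ≤ T ^ h → (cnt (FE E h) (XD E h T) : ℝ) ≤ C * T ^ (1 - c * h) * Real.log T) := by
  obtain ⟨C1, K, T0, hC1, hK, hT0, h1⟩ := main_range (c := max c 0) (le_max_right _ _) (max_lt hc (by norm_num))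
  set C := max (max (200 * C1) C1) (max T0 (Real.exp (4 / 3 * K))) with hC
  have hCC1 : 200 * C1 ≤ C := (le_max_left _ _).trans (le_max_left _ _)
  have hCC2 : C1 ≤ C := (le_max_right _ _).trans (le_max_left _ _)
  have hCT0 : T0 ≤ C := (le_max_left _ _).trans (le_max_right _ _)
  have hCK : Real.exp (4 / 3 * K) ≤ C := (le_max_right _ _).trans (le_max_right _ _)
  have hC0 : 0 < C := lt_of_lt_of_le hC1 hCC2
  refine ⟨C, hC0, fun T h E hT hh hh2 hE => ?_⟩
  have hTp : 0 < T := by linarith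
  have hL0 : 0 < Real.log T := Real.log_pos (by linarith)
  have hm0 : max c 0 < 4 / 3 := max_lt hc (by norm_num)
  have hexp : T ^ (-(max c 0 * h)) ≤ T ^ (-(c * h)) := by
    apply Real.rpow_le_rpow_of_exponent_le (by linarith)
    have := mul_le_mul_of_nonneg_right (le_max_left c 0) hh.le
    linarith
  have hexp1 : T ^ (1 - max c 0 * h) ≤ T ^ (1 - c * h) := by
    apply Real.rpow_le_rpow_of_exponent_le (by linarith)
    have := mul_le_mul_of_nonneg_right (le_max_left c 0) hh.le
    linarith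
  have hpp : 0 < T ^ (-(c * h)) := Real.rpow_pos_of_pos hTp _
  constructor
  · by_cases hr : T0 ≤ T ∧ K ≤ h * Real.log T
    · obtain ⟨h2, h3⟩ := h1 T h E hr.1 hh hh2 hr.2 hE
      have e1 : T ^ (1 - max c 0 * h) = T * T ^ (-(max c 0 * h)) := by
        rw [show (1 - max c 0 * h) = 1 + -(max c 0 * h) by ring, Real.rpow_add hTp, Real.rpow_one]
      rw [e1] at h2
      calc (cnt (FE E h) (XD E h T) : ℝ) ≤ C1 * (T * T ^ (-(max c 0 * h))) * Real.log T := h2
        _ = (200 * C1) * T ^ (-(max c 0 * h)) * (T * Real.log T / 200) := by ring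
        _ ≤ C * T ^ (-(c * h)) * (cnt (FE E h) (ZD E h T) : ℝ) := by gcongr
    · have h2 : (cnt (FE E h) (XD E h T) : ℝ) ≤ (cnt (FE E h) (ZD E h T) : ℝ) := by
        exact_mod_cast cnt_XD_le hE hh T
      have h3 : 1 ≤ C * T ^ (-(c * h)) := by
        have h4 : C * T ^ (-(max c 0 * h)) ≤ C * T ^ (-(c * h)) := mul_le_mul_of_nonneg_left hexp hC0.le
        refine le_trans ?_ h4
        have e2 : T ^ (-(max c 0 * h)) = Real.exp (-(max c 0 * (h * Real.log T))) := by
          rw [Real.rpow_def_of_pos hTp]; congr 1; ring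
        rw [e2]
        have h5 : max c 0 * (h * Real.log T) ≤ Real.log C := by
          have hle : max c 0 * (h * Real.log T) ≤ 4 / 3 * (h * Real.log T) :=
            mul_le_mul_of_nonneg_right hm0.le (by positivity)
          rw [not_and_or, not_le, not_le] at hr
          rcases hr with hr | hr
          · have h6 : 4 / 3 * (h * Real.log T) ≤ Real.log T := by
              have : h * Real.log T ≤ 1 / 2 * Real.log T := mul_le_mul_of_nonneg_right hh2 hL0.le
              linarith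
            have h7 : Real.log T ≤ Real.log C := Real.log_le_log hTp (hr.le.trans hCT0)
            linarith
          · have h6 : 4 / 3 * K ≤ Real.log C := by
              rw [Real.le_log_iff_exp_le hC0]; exact hCK
            linarith
        calc (1 : ℝ) = C * Real.exp (-Real.log C) := by
              rw [Real.exp_neg, Real.exp_log hC0, mul_inv_cancel₀ hC0.ne']
          _ ≤ C * Real.exp (-(max c 0 * (h * Real.log T))) := by
              refine mul_le_mul_of_nonneg_left (Real.exp_le_exp.mpr (by linarith)) hC0.le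
      calc (cnt (FE E h) (XD E h T) : ℝ) ≤ 1 * (cnt (FE E h) (ZD E h T) : ℝ) := by linarith
        _ ≤ C * T ^ (-(c * h)) * (cnt (FE E h) (ZD E h T) : ℝ) :=
          mul_le_mul_of_nonneg_right h3 (Nat.cast_nonneg _)
  · intro hCT
    have h2 : Real.log C ≤ h * Real.log T := by
      have := Real.log_le_log hC0 hCT
      rwa [Real.log_rpow hTp] at this
    have h3 : 4 / 3 * K ≤ Real.log C := by
      rw [Real.le_log_iff_exp_le hC0]; exact hCK
    have h4 : K ≤ h * Real.log T := by linarith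
    have h5 : T0 ≤ T := by
      have h6 : T ^ h ≤ T := by
        calc T ^ h ≤ T ^ (1 : ℝ) := Real.rpow_le_rpow_of_exponent_le (by linarith) (by linarith)
          _ = T := Real.rpow_one T
      linarith
    obtain ⟨h6, _⟩ := h1 T h E h5 hh hh2 h4 hE
    calc (cnt (FE E h) (XD E h T) : ℝ) ≤ C1 * T ^ (1 - max c 0 * h) * Real.log T := h6
      _ ≤ C * T ^ (1 - c * h) * Real.log T := by gcongr

end

end Pool.Agent.K3h34.DX
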