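import Pool.Agent.K3h34.DX.Sharp

set_option autoImplicit false

/-!
# Multiple zeros on the line split into simple zeros and zeros off the line
-/

namespace Pool.Agent.K3h34.DX

open Complex Filter Topology Metric Set
open Pool.Agent.R838.ST (nb rouche)

noncomputable section

lemma FF_lin (u v : ℂ) (t : ℝ) (G : ℂ → ℂ) (z : ℂ) :
    FF (u + t * v) G z = FF u G z + t * FF v G z := by
  unfold FF
  simp only [map_add, map_mul, Complex.conj_ofReal]
  ring

lemma line_im (u : ℂ) (G : ℂ → ℂ) {z : ℂ} (hz : z.re = 0) : (FF u G z).im = 0 := by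
  have h1 := FF_sh u G z
  have h2 : -(starRingEnd ℂ) z = z := by
    apply Complex.ext <;> simp [hz]
  rw [h2] at h1
  exact Complex.conj_eq_iff_im.1 h1

/-- the real derivative along the line -/
lemma line_deriv {F : ℂ → ℂ} (hF : Differentiable ℂ F) (him : ∀ y : ℝ, (F (I * y)).im = 0) (y : ℝ) :
    HasDerivAt (fun y : ℝ => (F (I * y)).re) ((I * deriv F (I * y)).re) y ∧
      (((I * deriv F (I * y)).re : ℝ) : ℂ) = I * deriv F (I * y) := by
  have h1 : HasDerivAt (fun y : ℝ => F (I * y)) (deriv F (I * y) * I) y := by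
    have h2 : HasDerivAt (fun y : ℝ => I * (y : ℂ)) I y := by
      simpa using (Complex.ofRealCLM.hasDerivAt (x := y)).const_mul I
    exact (hF (I * y)).hasDerivAt.comp y h2
  rw [mul_comm] at h1
  have hre := (Complex.reCLM.hasFDerivAt (x := F (I * y))).comp_hasDerivAt y h1
  have him' := (Complex.imCLM.hasFDerivAt (x := F (I * y))).comp_hasDerivAt y h1
  have e2 : (Complex.imCLM ∘ fun y : ℝ => F (I * y)) = fun _ => (0 : ℝ) := by
    funext y; exact him y
  rw [e2] at him'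
  have h3 : Complex.imCLM (I * deriv F (I * y)) = 0 := him'.unique (hasDerivAt_const y (0 : ℝ))
  refine ⟨hre, ?_⟩
  apply Complex.ext
  · simp
  · rw [Complex.ofReal_im]
    exact h3.symm

lemma line_pt {z : ℂ} (hz : z.re = 0) : z = I * (z.im : ℂ) := by
  apply Complex.ext <;> simp [hz]

/-- the two functions have at most one critical value on each side -/
lemma one_side {P Q : ℂ → ℂ} (hP : Differentiable ℂ P) (hQ : Differentiable ℂ Q)
    (hPi : ∀ y : ℝ, (P (I * y)).im = 0) (hQi : ∀ y : ℝ, (Q (I * y)).im = 0) {a b τ : ℝ} (hab : a < b)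
    (hne : ∀ y ∈ Icc a b, P (I * y) ≠ 0 ∧ Q (I * y) ≠ 0 ∧
      deriv P (I * y) * Q (I * y) - P (I * y) * deriv Q (I * y) ≠ 0)
    (ha : P (I * a) ^ 2 = τ ^ 2 * Q (I * a) ^ 2) (hb : P (I * b) ^ 2 = τ ^ 2 * Q (I * b) ^ 2) : False := by
  set p : ℝ → ℝ := fun y => (P (I * y)).re with hp
  set q : ℝ → ℝ := fun y => (Q (I * y)).re with hq
  have hpe : ∀ y : ℝ, P (I * y) = (p y : ℂ) := fun y => by
    apply Complex.ext
    · simp [hp]
    · rw [Complex.ofReal_im]; exact hPi y
  have hqe : ∀ y : ℝ, Q (I * y) = (q y : ℂ) := fun y => by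
    apply Complex.ext
    · simp [hq]
    · rw [Complex.ofReal_im]; exact hQi y
  have hq0 : ∀ y ∈ Icc a b, q y ≠ 0 := fun y hy h => (hne y hy).2.1 (by rw [hqe, h]; simp)
  have hp0 : ∀ y ∈ Icc a b, p y ≠ 0 := fun y hy h => (hne y hy).1 (by rw [hpe, h]; simp)
  have hd : ∀ y ∈ Icc a b, HasDerivAt (fun y => (p y / q y) ^ 2)
      (2 * (p y / q y) * (((I * deriv P (I * y)).re * q y - p y * (I * deriv Q (I * y)).re) / q y ^ 2)) y := by
    intro y hy
    have h1 := ((line_deriv hP hPi y).1.div (line_deriv hQ hQi y).1 (hq0 y hy)).pow 2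
    refine h1.congr_deriv ?_
    simp [hp, hq]
  have hval : ∀ y : ℝ, y ∈ Icc a b → P (I * y) ^ 2 = τ ^ 2 * Q (I * y) ^ 2 → (p y / q y) ^ 2 = τ ^ 2 := by
    intro y hy h
    rw [hpe, hqe] at h
    have h' : p y ^ 2 = τ ^ 2 * q y ^ 2 := by exact_mod_cast h
    rw [div_pow, h', mul_div_assoc, div_self (pow_ne_zero 2 (hq0 y hy)), mul_one]
  obtain ⟨c, hc, hc0⟩ := exists_hasDerivAt_eq_zero hab
    (fun y hy => (hd y hy).continuousAt.continuousWithinAt)
    (by
      show (p a / q a) ^ 2 = (p b / q b) ^ 2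
      rw [hval a (left_mem_Icc.2 hab.le) ha, hval b (right_mem_Icc.2 hab.le) hb])
    (fun y hy => hd y (Ioo_subset_Icc_self hy))
  have hcI := Ioo_subset_Icc_self hc
  have h1 : (I * deriv P (I * c)).re * q c - p c * (I * deriv Q (I * c)).re ≠ 0 := by
    intro h
    have h2 : ((((I * deriv P (I * c)).re * q c - p c * (I * deriv Q (I * c)).re : ℝ)) : ℂ) = 0 := by
      rw [h]; simp
    push_cast at h2
    rw [(line_deriv hP hPi c).2, (line_deriv hQ hQi c).2, ← hpe, ← hqe] at h2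
    have h3 : I * (deriv P (I * c) * Q (I * c) - P (I * c) * deriv Q (I * c)) = 0 := by
      linear_combination h2
    rcases mul_eq_zero.1 h3 with h4 | h4
    · exact I_ne_zero h4
    · exact (hne c hcI).2.2 h4
  have h5 : 2 * (p c / q c) ≠ 0 := mul_ne_zero two_ne_zero (div_ne_zero (hp0 c hcI) (hq0 c hcI))
  exact (mul_ne_zero h5 (div_ne_zero h1 (pow_ne_zero 2 (hq0 c hcI)))) hc0

/-- the Wronskian does not vanish near an isolated zero of `P` -/
lemma wronski {P Q : ℂ → ℂ} (hP : Ent P) (hQ : Differentiable ℂ Q) {z0 : ℂ} (h0 : P z0 = 0) (h1 : Q z0 ≠ 0) :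
    ∃ ρ0 : ℝ, 0 < ρ0 ∧ ∀ z ∈ ball z0 ρ0, Q z ≠ 0 ∧
      (z ≠ z0 → P z ≠ 0 ∧ deriv P z * Q z - P z * deriv Q z ≠ 0) := by
  have hPa := fun z => hP.diff.analyticAt z
  have hQa := fun z => hQ.analyticAt z
  have hQ1 : ∀ᶠ z in 𝓝 z0, Q z ≠ 0 := hQ.continuous.continuousAt.eventually_ne h1
  have hP1 : ∀ᶠ z in 𝓝[≠] z0, P z ≠ 0 := by
    rcases (hPa z0).eventually_eq_zero_or_eventually_ne_zero with h | h
    · exact absurd (analyticOrderAt_eq_top.2 h) (hP.top z0)
    · exact h
  have hDa : AnalyticAt ℂ (fun z => deriv P z * Q z - P z * deriv Q z) z0 :=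
    ((hPa z0).deriv.mul (hQa z0)).sub ((hPa z0).mul (hQa z0).deriv)
  have hD1 : ∀ᶠ z in 𝓝[≠] z0, deriv P z * Q z - P z * deriv Q z ≠ 0 := by
    rcases hDa.eventually_eq_zero_or_eventually_ne_zero with h | h
    · exfalso
      obtain ⟨r, hr, hball⟩ := Metric.eventually_nhds_iff_ball.1 (h.and hQ1)
      have hdiff : ∀ z ∈ ball z0 r, HasDerivAt (fun z => P z / Q z) 0 z := by
        intro z hz
        have h2 := (hP.diff z).hasDerivAt.div (hQ z).hasDerivAt (hball z hz).2
        refine h2.congr_deriv ?_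
        rw [(hball z hz).1, zero_div]
      have hconst : ∀ z ∈ ball z0 r, P z / Q z = P z0 / Q z0 := by
        intro z hz
        exact isOpen_ball.is_const_of_deriv_eq_zero (convex_ball z0 r).isPreconnected
          (fun w hw => (hdiff w hw).differentiableAt.differentiableWithinAt)
          (fun w hw => (hdiff w hw).deriv) hz (mem_ball_self hr)
      have hz : ∀ᶠ z in 𝓝 z0, P z = 0 := by
        filter_upwards [ball_mem_nhds z0 hr] with z hz
        have h3 := hconst z hz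
        rw [h0, zero_div, div_eq_zero_iff] at h3
        rcases h3 with h3 | h3
        · exact h3
        · exact absurd h3 (hball z hz).2
      exact hP.top z0 (analyticOrderAt_eq_top.2 hz)
    · exact h
  rw [eventually_nhdsWithin_iff] at hP1 hD1
  obtain ⟨ρ0, hρ0, hball⟩ := Metric.eventually_nhds_iff_ball.1 ((hQ1.and hP1).and hD1)
  exact ⟨ρ0, hρ0, fun z hz => ⟨(hball z hz).1.1, fun hne => ⟨(hball z hz).1.2 hne, (hball z hz).2 hne⟩⟩⟩

lemma ball_split {F : ℂ → ℂ} (hF : Ent F) (hs : ∀ z, (starRingEnd ℂ) (F z) = F (-(starRingEnd ℂ) z))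
    {z0 : ℂ} (hz0 : z0.re = 0) (ρ : ℝ) :
    cnt F (ball z0 ρ) = 2 * cnt F (ball z0 ρ ∩ {z | 0 < z.re}) + cnt F (ball z0 ρ ∩ {z | z.re = 0}) := by
  have hb : Bornology.IsBounded (ball z0 ρ) := isBounded_ball
  have e : ball z0 ρ = ((ball z0 ρ ∩ {z | 0 < z.re}) ∪ (fun z => -(starRingEnd ℂ) z) '' (ball z0 ρ ∩ {z | 0 < z.re})) ∪
      (ball z0 ρ ∩ {z | z.re = 0}) := by
    ext z
    simp only [Set.mem_union, Set.mem_inter_iff, Set.mem_image, Set.mem_ofPred_eq]
    constructor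
    · intro hz
      rcases lt_trichotomy z.re 0 with h | h | h
      · left; right
        refine ⟨-(starRingEnd ℂ) z, ⟨?_, ?_⟩, by simp⟩
        · rw [mem_ball, dist_eq_norm] at hz ⊢
          have h1 : z0 = -(starRingEnd ℂ) z0 := by
            apply Complex.ext <;> simp [hz0]
          have h2 : -(starRingEnd ℂ) z - z0 = -(starRingEnd ℂ) (z - z0) := by
            rw [map_sub]
            nth_rewrite 1 [h1]
            ring
          rw [h2, norm_neg, Complex.norm_conj]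
          exact hz
        · simpa using h
      · right; exact ⟨hz, h⟩
      · left; left; exact ⟨hz, h⟩
    · rintro ((⟨h, -⟩ | ⟨w, ⟨h, -⟩, rfl⟩) | ⟨h, -⟩)
      · exact h
      · rw [mem_ball, dist_eq_norm] at h ⊢
        have h1 : z0 = -(starRingEnd ℂ) z0 := by
          apply Complex.ext <;> simp [hz0]
        have h2 : -(starRingEnd ℂ) w - z0 = -(starRingEnd ℂ) (w - z0) := by
          rw [map_sub]
          nth_rewrite 1 [h1]
          ring
        rw [h2, norm_neg, Complex.norm_conj]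
        exact h
      · exact h
  have hb1 : Bornology.IsBounded (ball z0 ρ ∩ {z | 0 < z.re}) := hb.subset inter_subset_left
  have hsub2 : (fun z => -(starRingEnd ℂ) z) '' (ball z0 ρ ∩ {z | 0 < z.re}) ⊆ ball z0 ρ := by
    intro z hz
    rw [e]
    exact Or.inl (Or.inr hz)
  have hb2 := hb.subset hsub2
  have hb3 : Bornology.IsBounded (ball z0 ρ ∩ {z | z.re = 0}) := hb.subset inter_subset_left
  have e1 : cnt F (ball z0 ρ) = cnt F (((ball z0 ρ ∩ {z | 0 < z.re}) ∪ (fun z => -(starRingEnd ℂ) z) '' (ball z0 ρ ∩ {z | 0 < z.re})) ∪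
      (ball z0 ρ ∩ {z | z.re = 0})) := congrArg (cnt F) e
  rw [e1, cnt_union hF (hb1.union hb2) hb3, cnt_union hF hb1 hb2, cnt_rfl hF.diff hs]
  · ring
  · rw [Set.disjoint_left]
    rintro z ⟨-, h1⟩ ⟨w, ⟨-, h2⟩, rfl⟩
    simp at h1 h2
    linarith
  · rw [Set.disjoint_left]
    rintro z (⟨-, h1⟩ | ⟨w, ⟨-, h2⟩, rfl⟩) ⟨-, h3⟩
    · simp at h1 h3; linarith
    · simp at h2 h3; linarith

/-- the local statement at a zero on the line -/
theorem local_line {G : ℂ → ℂ} {u : ℂ} (hE : ∀ w : ℂ, w ≠ 0 → Ent (FF w G)) (hu : u ≠ 0)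
    {z0 : ℂ} (hz0 : z0.re = 0) (hG0 : G z0 ≠ 0) (hF0 : FF u G z0 = 0) :
    ∃ ρ0 : ℝ, 0 < ρ0 ∧ ∀ ρ : ℝ, 0 < ρ → ρ < ρ0 → ∃ τ0 : ℝ, 0 < τ0 ∧ ∀ τ : ℝ, 0 < τ → τ < τ0 →
      analyticOrderNatAt (FF u G) z0 ≤ cnt (FF (u + (τ : ℝ) * (I * u)) G) (ball z0 ρ ∩ {z | 0 < z.re}) +
        cnt (FF (u + ((-τ : ℝ) : ℂ) * (I * u)) G) (ball z0 ρ ∩ {z | 0 < z.re}) + 1 := by
  classical
  set P := FF u G with hPdef
  set Q := FF (I * u) G with hQdef
  have hIu : I * u ≠ 0 := mul_ne_zero I_ne_zero hu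
  have hP := hE u hu
  have hQ := hE (I * u) hIu
  have hPi : ∀ y : ℝ, (P (I * y)).im = 0 := fun y => line_im _ _ (by simp)
  have hQi : ∀ y : ℝ, (Q (I * y)).im = 0 := fun y => line_im _ _ (by simp)
  have hQ0 : Q z0 ≠ 0 := by
    intro h
    have h1 : u * G z0 + (starRingEnd ℂ) u * sh G z0 = 0 := hF0
    have h2 : I * u * G z0 + (starRingEnd ℂ) (I * u) * sh G z0 = 0 := h
    rw [map_mul, Complex.conj_I] at h2
    have h3 : u * G z0 = 0 := by
      have h4 : 2 * (I * (u * G z0)) = 0 := by linear_combination I * h1 + h2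
      have h5 := mul_eq_zero.1 h4
      rcases h5 with h5 | h5
      · norm_num at h5
      · rcases mul_eq_zero.1 h5 with h6 | h6
        · exact absurd h6 I_ne_zero
        · exact h6
    exact (mul_ne_zero hu hG0) h3
  obtain ⟨ρ0, hρ0, hball⟩ := wronski hP hQ.diff hF0 hQ0
  refine ⟨ρ0, hρ0, fun ρ hρ hρρ => ?_⟩
  -- the sphere
  obtain ⟨δ, hδ, hδb⟩ : ∃ δ : ℝ, 0 < δ ∧ ∀ z ∈ sphere z0 ρ, δ ≤ ‖P z‖ := by
    have hne : (sphere z0 ρ).Nonempty := NormedSpace.sphere_nonempty.2 hρ.le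
    obtain ⟨w, hw, hmin⟩ := (isCompact_sphere z0 ρ).exists_isMinOn hne hP.diff.continuous.norm.continuousOn
    refine ⟨‖P w‖, norm_pos_iff.2 ?_, fun v hv => hmin hv⟩
    refine ((hball w ?_).2 ?_).1
    · rw [mem_ball, mem_sphere.1 hw]; exact hρρ
    · rintro rfl
      rw [mem_sphere, dist_self] at hw
      exact hρ.ne hw
  obtain ⟨M, hM⟩ := (isCompact_sphere z0 ρ).exists_bound_of_continuousOn (f := Q) hQ.diff.continuous.continuousOn
  refine ⟨δ / (|M| + 1), by positivity, fun τ hτ hττ => ?_⟩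
  have hτM : τ * |M| < δ := by
    rw [lt_div_iff₀ (by positivity)] at hττ
    nlinarith [abs_nonneg M]
  have hw0 : ∀ t : ℝ, u + (t : ℂ) * (I * u) ≠ 0 := by
    intro t h
    have h1 : u * (1 + t * I) = 0 := by linear_combination h
    rcases mul_eq_zero.1 h1 with h2 | h2
    · exact hu h2
    · have := congrArg Complex.re h2
      simp at this
  have hFt : ∀ t : ℝ, FF (u + (t : ℂ) * (I * u)) G = fun z => P z + t * Q z := by
    intro t; funext z; exact FF_lin u (I * u) t G z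
  have hEt : ∀ t : ℝ, Ent (FF (u + (t : ℂ) * (I * u)) G) := fun t => hE _ (hw0 t)
  have hrou : ∀ t : ℝ, |t| = τ → cnt (FF (u + (t : ℂ) * (I * u)) G) (ball z0 ρ) = analyticOrderNatAt P z0 := by
    intro t ht
    have h1 := (rouche hP.diff (hEt t).diff hρ (c := z0) (by
      intro z hz
      rw [hFt t]
      have e : P z - (P z + t * Q z) = -(t * Q z) := by ring
      rw [e, norm_neg, norm_mul, Complex.norm_real, Real.norm_eq_abs, ht]
      calc τ * ‖Q z‖ ≤ τ * |M| := mul_le_mul_of_nonneg_left ((hM z hz).trans (le_abs_self M)) hτ.le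
        _ < δ := hτM
        _ ≤ ‖P z‖ := hδb z hz)).1
    have h2 : cnt P (ball z0 ρ) = analyticOrderNatAt P z0 := by
      rw [cnt_eq hP.diff {z0} (fun z hz h0 => by
        rw [Finset.mem_singleton]
        by_contra hne
        exact ((hball z (ball_subset_ball hρρ.le hz)).2 hne).1 h0)]
      rw [Finset.filter_true_of_mem (fun z hz => by
        rw [Finset.mem_singleton] at hz; rw [hz]; exact mem_ball_self hρ)]
      rw [Finset.sum_singleton]
    rw [← h2]
    exact h1.symm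
  -- zeros on the line
  obtain ⟨Sp, hSp⟩ := (hEt τ).exS (U := ball z0 ρ) isBounded_ball
  obtain ⟨Sm, hSm⟩ := (hEt (-τ)).exS (U := ball z0 ρ) isBounded_ball
  set Ap := Sp.filter (fun z => z ∈ ball z0 ρ ∩ {z | z.re = 0}) with hAp
  set Am := Sm.filter (fun z => z ∈ ball z0 ρ ∩ {z | z.re = 0}) with hAm
  have hmemp : ∀ z ∈ Ap, z ∈ ball z0 ρ ∧ z.re = 0 ∧ P z + τ * Q z = 0 := by
    intro z hz
    rw [hAp, Finset.mem_filter, hSp] at hz
    refine ⟨hz.2.1, hz.2.2, ?_⟩
    have := hz.1.2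
    rw [hFt τ] at this
    exact this
  have hmemm : ∀ z ∈ Am, z ∈ ball z0 ρ ∧ z.re = 0 ∧ P z + ((-τ : ℝ) : ℂ) * Q z = 0 := by
    intro z hz
    rw [hAm, Finset.mem_filter, hSm] at hz
    refine ⟨hz.2.1, hz.2.2, ?_⟩
    have := hz.1.2
    rw [hFt (-τ)] at this
    exact this
  have hne0 : ∀ t : ℝ, t ≠ 0 → ∀ z, z ∈ ball z0 ρ → P z + t * Q z = 0 → z ≠ z0 := by
    rintro t ht z hz h rfl
    have h1 : P z = 0 := hF0
    rw [h1, zero_add] at h
    rcases mul_eq_zero.1 h with h2 | h2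
    · exact ht (by exact_mod_cast h2)
    · exact hQ0 h2
  have hsimple : ∀ t : ℝ, t ≠ 0 → ∀ z, z ∈ ball z0 ρ → P z + t * Q z = 0 →
      analyticOrderNatAt (FF (u + (t : ℂ) * (I * u)) G) z = 1 := by
    intro t ht z hz h
    have h1 := ((hball z (ball_subset_ball hρρ.le hz)).2 (hne0 t ht z hz h)).2
    have h2 : AnalyticAt ℂ (FF (u + (t : ℂ) * (I * u)) G) z := (hEt t).diff.analyticAt z
    have h3 : deriv (FF (u + (t : ℂ) * (I * u)) G) z = deriv P z + t * deriv Q z := by
      rw [hFt t]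
      exact ((hP.diff z).hasDerivAt.add ((hQ.diff z).hasDerivAt.const_mul (t : ℂ))).deriv
    have h4 : deriv (FF (u + (t : ℂ) * (I * u)) G) z ≠ 0 := by
      rw [h3]
      intro h5
      apply h1
      have h6 : FF u G z = -(t * FF (I * u) G z) := by
        have h7 : FF u G z + t * FF (I * u) G z = 0 := h
        linear_combination h7
      rw [h6]
      linear_combination (FF (I * u) G z) * h5
    have h5 : FF (u + (t : ℂ) * (I * u)) G z = 0 := by rw [hFt t]; exact h
    have h6 := h2.analyticOrderAt_eq_one_of_zero_deriv_ne_zero h5 h4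
    unfold analyticOrderNatAt
    rw [h6]; rfl
  have hlinep : cnt (FF (u + (τ : ℂ) * (I * u)) G) (ball z0 ρ ∩ {z | z.re = 0}) = Ap.card := by
    rw [cnt_eq (hEt τ).diff Sp (fun z hz h0 => (hSp z).2 ⟨subset_closure hz.1, h0⟩), Finset.card_eq_sum_ones]
    refine Finset.sum_congr rfl fun z hz => ?_
    have h := hmemp z hz
    exact hsimple τ hτ.ne' z h.1 h.2.2
  have hlinem : cnt (FF (u + ((-τ : ℝ) : ℂ) * (I * u)) G) (ball z0 ρ ∩ {z | z.re = 0}) = Am.card := by
    rw [cnt_eq (hEt (-τ)).diff Sm (fun z hz h0 => (hSm z).2 ⟨subset_closure hz.1, h0⟩), Finset.card_eq_sum_ones]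
    refine Finset.sum_congr rfl fun z hz => ?_
    have h := hmemm z hz
    exact hsimple (-τ) (neg_ne_zero.2 hτ.ne') z h.1 h.2.2
  have hdisj : Disjoint Ap Am := by
    rw [Finset.disjoint_left]
    intro z h1 h2
    have h3 := (hmemp z h1).2.2
    have h4 := (hmemm z h2).2.2
    have h5 : P z = 0 := by
      push_cast at h4
      have : 2 * P z = 0 := by linear_combination h3 + h4
      simpa using this
    exact ((hball z (ball_subset_ball hρρ.le (hmemp z h1).1)).2 (hne0 τ hτ.ne' z (hmemp z h1).1 h3)).1 h5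
  have hsq : ∀ z ∈ Ap ∪ Am, z ∈ ball z0 ρ ∧ z.re = 0 ∧ z ≠ z0 ∧ P z ^ 2 = (τ : ℂ) ^ 2 * Q z ^ 2 := by
    intro z hz
    rcases Finset.mem_union.1 hz with h | h
    · obtain ⟨a, b, c⟩ := hmemp z h
      refine ⟨a, b, hne0 τ hτ.ne' z a c, ?_⟩
      have h6 : P z = -(τ * Q z) := by linear_combination c
      rw [h6]; ring
    · obtain ⟨a, b, c⟩ := hmemm z h
      refine ⟨a, b, hne0 (-τ) (neg_ne_zero.2 hτ.ne') z a c, ?_⟩
      push_cast at c
      have h6 : P z = τ * Q z := by linear_combination c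
      rw [h6]; ring
  -- at most one on each side
  have hz0' : z0 = I * (z0.im : ℂ) := line_pt hz0
  have hbet : ∀ z w : ℂ, z ∈ ball z0 ρ → w ∈ ball z0 ρ → z.re = 0 → w.re = 0 → ∀ y ∈ Icc z.im w.im,
      I * (y : ℂ) ∈ ball z0 ρ := by
    intro z w hz hw hzr hwr y hy
    have h1 : |z.im - z0.im| < ρ := by
      rw [mem_ball, dist_eq_norm] at hz
      have := Complex.abs_im_le_norm (z - z0)
      rw [Complex.sub_im] at this
      linarith
    have h2 : |w.im - z0.im| < ρ := by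
      rw [mem_ball, dist_eq_norm] at hw
      have := Complex.abs_im_le_norm (w - z0)
      rw [Complex.sub_im] at this
      linarith
    rw [mem_ball, dist_eq_norm, hz0']
    have e : I * (y : ℂ) - I * ((z0.im : ℝ) : ℂ) = I * ((y - z0.im : ℝ) : ℂ) := by push_cast; ring
    rw [e, norm_mul, Complex.norm_I, one_mul, Complex.norm_real, Real.norm_eq_abs, abs_lt]
    rw [abs_lt] at h1 h2
    constructor
    · linarith [hy.1, h1.1]
    · linarith [hy.2, h2.2]
  have hno : ∀ z ∈ Ap ∪ Am, ∀ w ∈ Ap ∪ Am, z.im < w.im → (z0.im < z.im ∨ w.im < z0.im) → False := by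
    intro z hz w hw hlt hside
    obtain ⟨a1, a2, a3, a4⟩ := hsq z hz
    obtain ⟨b1, b2, b3, b4⟩ := hsq w hw
    refine one_side hP.diff hQ.diff hPi hQi (τ := τ) hlt ?_ ?_ ?_
    · intro y hy
      have h1 := hbet z w a1 b1 a2 b2 y hy
      have h2 : I * (y : ℂ) ≠ z0 := by
        intro h
        have := congrArg Complex.im h
        simp at this
        rcases hside with h3 | h3
        · linarith [hy.1]
        · linarith [hy.2]
      obtain ⟨c1, c2⟩ := hball _ (ball_subset_ball hρρ.le h1)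
      exact ⟨(c2 h2).1, c1, (c2 h2).2⟩
    · rw [← line_pt a2]; exact a4
    · rw [← line_pt b2]; exact b4
  have hcard1 : ((Ap ∪ Am).filter (fun z => z0.im < z.im)).card ≤ 1 := by
    rw [Finset.card_le_one]
    intro z hz w hw
    rw [Finset.mem_filter] at hz hw
    have e : z.im = w.im := by
      rcases lt_trichotomy z.im w.im with h | h | h
      · exact (hno z hz.1 w hw.1 h (Or.inl hz.2)).elim
      · exact h
      · exact (hno w hw.1 z hz.1 h (Or.inl hw.2)).elim
    exact Complex.ext (by rw [(hsq z hz.1).2.1, (hsq w hw.1).2.1]) e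
  have hcard2 : ((Ap ∪ Am).filter (fun z => ¬ z0.im < z.im)).card ≤ 1 := by
    rw [Finset.card_le_one]
    have hlt : ∀ z ∈ Ap ∪ Am, ¬ z0.im < z.im → z.im < z0.im := by
      intro z hz h
      rcases lt_trichotomy z.im z0.im with h1 | h1 | h1
      · exact h1
      · exact absurd (Complex.ext (by rw [(hsq z hz).2.1, hz0]) h1) (hsq z hz).2.2.1
      · exact absurd h1 h
    intro z hz w hw
    rw [Finset.mem_filter] at hz hw
    have e : z.im = w.im := by
      rcases lt_trichotomy z.im w.im with h | h | h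
      · exact (hno z hz.1 w hw.1 h (Or.inr (hlt w hw.1 hw.2))).elim
      · exact h
      · exact (hno w hw.1 z hz.1 h (Or.inr (hlt z hz.1 hz.2))).elim
    exact Complex.ext (by rw [(hsq z hz.1).2.1, (hsq w hw.1).2.1]) e
  have hcard : Ap.card + Am.card ≤ 2 := by
    rw [← Finset.card_union_of_disjoint hdisj, ← Finset.card_filter_add_card_filter_not (fun z => z0.im < z.im)]
    omega
  have h1 := hrou τ (abs_of_pos hτ)
  have h2 := hrou (-τ) (by rw [abs_neg, abs_of_pos hτ])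
  rw [ball_split (hEt τ) (FF_sh _ _) hz0, hlinep] at h1
  rw [ball_split (hEt (-τ)) (FF_sh _ _) hz0, hlinem] at h2
  omega

end

end Pool.Agent.K3h34.DX
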