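import Pool.Agent.K3h34.DX.Line

set_option autoImplicit false

/-!
# The exceptional zeros of `u G + conj u G^#` are at most four times as many as the zeros of `G` to the
right of the line
-/

namespace Pool.Agent.K3h34.DX

open Complex Filter Topology Metric Set
open Pool.Agent.R838.ST (nb rouche)

noncomputable section

lemma ev_balls {U : Set ℂ} (hU : IsOpen U) (Z : Finset ℂ) (hZ : ∀ z ∈ Z, z ∈ U) :
    ∀ᶠ r : ℝ in 𝓝[>] 0, (∀ z ∈ Z, closedBall z r ⊆ U) ∧
      ∀ z ∈ Z, ∀ w ∈ Z, z ≠ w → Disjoint (closedBall z r) (closedBall w r) := by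
  classical
  have h1 : ∀ᶠ r : ℝ in 𝓝[>] 0, ∀ z ∈ Z, closedBall z r ⊆ U := by
    rw [Filter.eventually_all_finset]
    intro z hz
    obtain ⟨ε, hε, hball⟩ := Metric.isOpen_iff.1 hU z (hZ z hz)
    filter_upwards [Ioo_mem_nhdsGT hε] with r hr
    exact (closedBall_subset_ball hr.2).trans hball
  have h2 : ∀ᶠ r : ℝ in 𝓝[>] 0, ∀ z ∈ Z, ∀ w ∈ Z, z ≠ w → Disjoint (closedBall z r) (closedBall w r) := by
    rw [Filter.eventually_all_finset]
    intro z hz
    rw [Filter.eventually_all_finset]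
    intro w hw
    by_cases hzw : z = w
    · exact Eventually.of_forall fun r h => absurd hzw h
    · have hd : 0 < dist z w := dist_pos.2 hzw
      filter_upwards [Ioo_mem_nhdsGT (show (0 : ℝ) < dist z w / 2 by positivity)] with r hr _
      apply closedBall_disjoint_closedBall
      have := hr.2
      linarith
  exact h1.and h2

/-- the version without zeros of `G` on the line -/
theorem loc2 {G : ℂ → ℂ} (hG : Ent G) {Y1 Y2 : ℝ} (hY : Y1 ≤ Y2) (hD : Dom G Y1 Y2)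
    (h0 : ∀ z : ℂ, z.re = 0 → Y1 ≤ z.im → z.im ≤ Y2 → G z ≠ 0) {u : ℂ} (hu : u ≠ 0) (S : Finset ℂ)
    (hS : ∀ s ∈ S, s.re = 0 ∧ Y1 < s.im ∧ s.im < Y2 ∧ FF u G s = 0) :
    2 * cnt (FF u G) (RR Y1 Y2) + ∑ s ∈ S, analyticOrderNatAt (FF u G) s ≤
      2 * cnt G (RR Y1 Y2) + S.card := by
  classical
  have hE : ∀ w : ℂ, w ≠ 0 → Ent (FF w G) := fun w hw => FF_ent hG.diff hY hD hw
  have hF := hE u hu
  have hIu : I * u ≠ 0 := mul_ne_zero I_ne_zero hu
  obtain ⟨Z, hZ⟩ := hF.exS (RR_bdd Y1 Y2)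
  -- the strip
  set W : Set ℂ := {z | -1 < z.re ∧ z.re < 1 ∧ Y1 < z.im ∧ z.im < Y2} with hW
  have hWo : IsOpen W := by
    have h1 : IsOpen {z : ℂ | -1 < z.re} := isOpen_lt continuous_const continuous_re
    have h2 : IsOpen {z : ℂ | z.re < 1} := isOpen_lt continuous_re continuous_const
    have h3 : IsOpen {z : ℂ | Y1 < z.im} := isOpen_lt continuous_const continuous_im
    have h4 : IsOpen {z : ℂ | z.im < Y2} := isOpen_lt continuous_im continuous_const
    exact (h1.inter (h2.inter (h3.inter h4)))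
  have hSW : ∀ s ∈ S, s ∈ W := by
    intro s hs
    obtain ⟨a, b, c, -⟩ := hS s hs
    refine ⟨?_, ?_, b, c⟩ <;> rw [a] <;> norm_num
  have hloc : ∀ s ∈ S, ∃ ρ0 : ℝ, 0 < ρ0 ∧ ∀ ρ : ℝ, 0 < ρ → ρ < ρ0 → ∃ τ0 : ℝ, 0 < τ0 ∧ ∀ τ : ℝ, 0 < τ → τ < τ0 →
      analyticOrderNatAt (FF u G) s ≤ cnt (FF (u + (τ : ℝ) * (I * u)) G) (ball s ρ ∩ {z | 0 < z.re}) +
        cnt (FF (u + ((-τ : ℝ) : ℂ) * (I * u)) G) (ball s ρ ∩ {z | 0 < z.re}) + 1 := by
    intro s hs
    obtain ⟨a, b, c, d⟩ := hS s hs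
    exact local_line hE hu a (h0 s a b.le c.le) d
  have hev1 : ∀ᶠ ρ : ℝ in 𝓝[>] 0, ∀ s ∈ S, ∀ᶠ τ : ℝ in 𝓝[>] 0,
      analyticOrderNatAt (FF u G) s ≤ cnt (FF (u + (τ : ℝ) * (I * u)) G) (ball s ρ ∩ {z | 0 < z.re}) +
        cnt (FF (u + ((-τ : ℝ) : ℂ) * (I * u)) G) (ball s ρ ∩ {z | 0 < z.re}) + 1 := by
    rw [Filter.eventually_all_finset]
    intro s hs
    obtain ⟨ρ0, hρ0, h⟩ := hloc s hs
    filter_upwards [Ioo_mem_nhdsGT hρ0] with ρ hρ
    obtain ⟨τ0, hτ0, h'⟩ := h ρ hρ.1 hρ.2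
    filter_upwards [Ioo_mem_nhdsGT hτ0] with τ hτ
    exact h' τ hτ.1 hτ.2
  have hev2 : ∀ᶠ ρ : ℝ in 𝓝[>] 0, ∀ s ∈ S, ∀ z ∈ Z, 0 < z.re → z ∉ closedBall s ρ := by
    rw [Filter.eventually_all_finset]
    intro s hs
    rw [Filter.eventually_all_finset]
    intro z hz
    by_cases hre : 0 < z.re
    · have hne : 0 < dist z s := by
        rw [dist_pos]
        rintro rfl
        exact hre.ne' (hS z hs).1
      filter_upwards [Ioo_mem_nhdsGT hne] with ρ hρ _
      rw [mem_closedBall, not_le]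
      exact hρ.2
    · exact Eventually.of_forall fun ρ h => absurd h hre
  obtain ⟨ρ, ⟨hρ1, hρ2⟩, hρ3, hρ4⟩ := ((hev1.and hev2).and ((ev_balls hWo S hSW).and self_mem_nhdsWithin)).exists
  have hρ0 : (0 : ℝ) < ρ := hρ4
  obtain ⟨hρ5, hρ6⟩ := hρ3
  set R' : Set ℂ := RR Y1 Y2 \ ⋃ s ∈ S, closedBall s ρ with hR'
  have hcl : IsClosed (⋃ s ∈ S, closedBall s ρ) := by
    apply Set.Finite.isClosed_biUnion (Finset.finite_toSet S)
    intro s _
    exact isClosed_closedBall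
  have hR'o : IsOpen R' := (RR_open Y1 Y2).sdiff hcl
  have hR'b : Bornology.IsBounded R' := (RR_bdd Y1 Y2).subset diff_subset
  obtain ⟨δ, hδ, hst⟩ := stab hF hR'o hR'b
  obtain ⟨M, hM⟩ := (RR_bdd Y1 Y2).isCompact_closure.exists_bound_of_continuousOn
    (f := FF (I * u) G) (hE _ hIu).diff.continuous.continuousOn
  have hev3 : ∀ᶠ τ : ℝ in 𝓝[>] 0, τ * |M| < δ := by
    have h1 : Tendsto (fun τ : ℝ => τ * |M|) (𝓝[>] 0) (𝓝 (0 * |M|)) :=
      ((continuous_id.mul continuous_const).tendsto 0).mono_left nhdsWithin_le_nhds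
    rw [zero_mul] at h1
    exact h1.eventually (gt_mem_nhds hδ)
  obtain ⟨τ, ⟨hτ1, hτ2⟩, hτ3⟩ := ((((Filter.eventually_all_finset S).2 hρ1).and hev3).and self_mem_nhdsWithin).exists
  have hτ0 : (0 : ℝ) < τ := hτ3
  have hw0 : ∀ t : ℝ, u + (t : ℂ) * (I * u) ≠ 0 := by
    intro t h
    have h1 : u * (1 + t * I) = 0 := by linear_combination h
    rcases mul_eq_zero.1 h1 with h2 | h2
    · exact hu h2
    · have := congrArg Complex.re h2
      simp at this
  have hmain : ∀ t : ℝ, |t| = τ → cnt (FF u G) (RR Y1 Y2) +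
      ∑ s ∈ S, cnt (FF (u + (t : ℂ) * (I * u)) G) (ball s ρ ∩ {z | 0 < z.re}) ≤ cnt G (RR Y1 Y2) := by
    intro t ht
    have hg := hE _ (hw0 t)
    refine le_trans ?_ (loc1 hG hY hD h0 (hw0 t))
    have h1 : cnt (FF u G) (RR Y1 Y2) = cnt (FF u G) R' := by
      apply cnt_congr hF.diff
      intro z hz0
      constructor
      · intro hz
        refine ⟨hz, ?_⟩
        rw [Set.mem_iUnion₂]
        rintro ⟨s, hs, hzs⟩
        exact hρ2 s hs z ((hZ z).2 ⟨subset_closure hz, hz0⟩) hz.1 hzs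
      · exact fun hz => hz.1
    have h2 : cnt (FF u G) R' ≤ cnt (FF (u + (t : ℂ) * (I * u)) G) R' := by
      refine (hst _ hg fun w hw => ?_).1
      have hw' : w ∈ closure (RR Y1 Y2) := closure_mono diff_subset hw
      have e : FF (u + (t : ℂ) * (I * u)) G w - FF u G w = t * FF (I * u) G w := by
        rw [FF_lin]; ring
      rw [e, norm_mul, Complex.norm_real, Real.norm_eq_abs, ht]
      refine lt_of_le_of_lt ?_ hτ2
      exact mul_le_mul_of_nonneg_left ((hM w hw').trans (le_abs_self M)) hτ0.le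
    have hsub : ∀ s ∈ S, ball s ρ ∩ {z | 0 < z.re} ⊆ RR Y1 Y2 := by
      rintro s hs z ⟨hz1, hz2⟩
      have h3 := hρ5 s hs (ball_subset_closedBall hz1)
      exact ⟨hz2, h3.2.1, h3.2.2.1, h3.2.2.2⟩
    have h3 := cnt_pieces hg (RR_bdd Y1 Y2) S (fun s => ball s ρ ∩ {z | 0 < z.re}) hsub
      (fun z hz w hw hzw => (hρ6 z hz w hw hzw).mono
        (fun x hx => ball_subset_closedBall hx.1) (fun x hx => ball_subset_closedBall hx.1))
    rw [h1]
    refine (Nat.add_le_add_right h2 _).trans ?_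
    rw [h3, ← cnt_union hg hR'b ((RR_bdd Y1 Y2).subset (Set.iUnion₂_subset hsub))]
    · exact cnt_mono hg (RR_bdd Y1 Y2) (Set.union_subset diff_subset (Set.iUnion₂_subset hsub))
    · rw [Set.disjoint_left]
      rintro z ⟨-, hz⟩ hz'
      apply hz
      rw [Set.mem_iUnion₂] at hz' ⊢
      obtain ⟨s, hs, hzs⟩ := hz'
      exact ⟨s, hs, ball_subset_closedBall hzs.1⟩
  have hp := hmain τ (abs_of_pos hτ0)
  have hm := hmain (-τ) (by rw [abs_neg, abs_of_pos hτ0])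
  have hsum : ∑ s ∈ S, analyticOrderNatAt (FF u G) s ≤
      ∑ s ∈ S, (cnt (FF (u + (τ : ℝ) * (I * u)) G) (ball s ρ ∩ {z | 0 < z.re}) +
        cnt (FF (u + ((-τ : ℝ) : ℂ) * (I * u)) G) (ball s ρ ∩ {z | 0 < z.re}) + 1) := Finset.sum_le_sum hτ1
  rw [Finset.sum_add_distrib, Finset.sum_add_distrib, Finset.sum_const, smul_eq_mul, mul_one] at hsum
  omega

/-- the open segment -/
def LL (Y1 Y2 : ℝ) : Set ℂ := {z | z.re = 0 ∧ Y1 < z.im ∧ z.im < Y2}

lemma LL_bdd (Y1 Y2 : ℝ) : Bornology.IsBounded (LL Y1 Y2) := by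
  rw [isBounded_iff_forall_norm_le]
  refine ⟨|Y1| + |Y2|, fun z hz => ?_⟩
  refine (Complex.norm_le_abs_re_add_abs_im z).trans ?_
  have h2 : |z.im| ≤ |Y1| + |Y2| := by
    rw [abs_le]
    constructor
    · linarith [hz.2.1, neg_abs_le Y1, abs_nonneg Y2]
    · linarith [hz.2.2, le_abs_self Y2, abs_nonneg Y1]
  rw [hz.1, abs_zero]
  linarith

lemma ord_factor {H H1 : ℂ → ℂ} (h1 : Ent H1) {z0 : ℂ} (hH : ∀ z, H z = (z - z0) * H1 z) (z : ℂ) :
    analyticOrderNatAt H z = analyticOrderNatAt H1 z + if z = z0 then 1 else 0 := by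
  have e : H = (fun w => w - z0) * H1 := by funext z; exact hH z
  have ha : AnalyticAt ℂ (fun w : ℂ => w - z0) z := by fun_prop
  by_cases hz : z = z0
  · subst hz
    have h2 : analyticOrderAt (fun w : ℂ => w - z) z = 1 := by
      exact analyticOrderAt_id_sub_const_self (c := z)
    rw [e, analyticOrderNatAt_mul ha (h1.diff.analyticAt z) (by rw [h2]; simp) (h1.top z)]
    have h3 : analyticOrderNatAt (fun w : ℂ => w - z) z = 1 := by
      unfold analyticOrderNatAt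
      rw [h2]; rfl
    rw [h3, if_pos rfl, add_comm]
  · have h2 : analyticOrderAt (fun w : ℂ => w - z0) z = 0 := by
      rw [ha.analyticOrderAt_eq_zero]
      exact sub_ne_zero.2 hz
    rw [e, analyticOrderNatAt_mul ha (h1.diff.analyticAt z) (by rw [h2]; simp) (h1.top z)]
    have h3 : analyticOrderNatAt (fun w : ℂ => w - z0) z = 0 := by
      unfold analyticOrderNatAt
      rw [h2]; rfl
    rw [h3, if_neg hz, add_comm]

lemma ent_of_factor {H H1 : ℂ → ℂ} (h : Ent H) (h1 : Differentiable ℂ H1) {z0 : ℂ}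
    (hH : ∀ z, H z = (z - z0) * H1 z) : Ent H1 := by
  obtain ⟨w, hw⟩ := h.ne
  exact ⟨h1, ⟨w, fun h2 => hw (by rw [hH, h2, mul_zero])⟩⟩

lemma cnt_factor_out {H H1 : ℂ → ℂ} (h1 : Ent H1) {z0 : ℂ} (hH : ∀ z, H z = (z - z0) * H1 z)
    {U : Set ℂ} (hz0 : z0 ∉ U) : cnt H U = cnt H1 U := by
  unfold cnt
  apply finsum_congr
  intro z
  by_cases hz : z ∈ U
  · have hne : z ≠ z0 := fun h => hz0 (h ▸ hz)
    rw [ord_factor h1 hH z, if_neg hne, add_zero]
  · simp [hz]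

lemma cnt_factor_in {H H1 : ℂ → ℂ} (h : Ent H) (h1 : Ent H1) {z0 : ℂ} (hH : ∀ z, H z = (z - z0) * H1 z)
    {U : Set ℂ} (hU : Bornology.IsBounded U) (hz0 : z0 ∈ U) : cnt H U = cnt H1 U + 1 := by
  classical
  obtain ⟨S, hS⟩ := h.exS hU
  rw [cnt_eq h.diff S (fun z hz h0 => (hS z).2 ⟨subset_closure hz, h0⟩),
    cnt_eq h1.diff S (fun z hz h0 => (hS z).2 ⟨subset_closure hz, by rw [hH, h0, mul_zero]⟩)]
  rw [Finset.sum_congr rfl (fun z _ => ord_factor h1 hH z), Finset.sum_add_distrib, Finset.sum_ite_eq']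
  rw [if_pos]
  rw [Finset.mem_filter]
  exact ⟨(hS z0).2 ⟨subset_closure hz0, by rw [hH]; simp⟩, hz0⟩

/-- the general version -/
theorem loc3 {Y1 Y2 : ℝ} (hY : Y1 ≤ Y2) (n : ℕ) : ∀ G : ℂ → ℂ, Ent G → Dom G Y1 Y2 →
    (∀ z : ℂ, z.re = 0 → (z.im = Y1 ∨ z.im = Y2) → G z ≠ 0) → cnt G (LL Y1 Y2) = n → ∀ u : ℂ, u ≠ 0 →
    ∀ S : Finset ℂ, (∀ s ∈ S, s.re = 0 ∧ Y1 < s.im ∧ s.im < Y2 ∧ FF u G s = 0) →
    2 * cnt (FF u G) (RR Y1 Y2) + ∑ s ∈ S, analyticOrderNatAt (FF u G) s ≤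
      2 * cnt G (RR Y1 Y2) + n + S.card := by
  classical
  induction n with
  | zero =>
    intro G hG hD hend hn u hu S hS
    rw [add_zero]
    refine loc2 hG hY hD (fun z h1 h2 h3 h4 => ?_) hu S hS
    rcases h2.eq_or_lt with h5 | h5
    · exact hend z h1 (Or.inl h5.symm) h4
    rcases h3.eq_or_lt with h6 | h6
    · exact hend z h1 (Or.inr h6) h4
    obtain ⟨Z, hZ⟩ := hG.exS (LL_bdd Y1 Y2)
    rw [cnt_eq hG.diff Z (fun z hz h0 => (hZ z).2 ⟨subset_closure hz, h0⟩)] at hn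
    have hzL : z ∈ LL Y1 Y2 := ⟨h1, h5, h6⟩
    have h7 : analyticOrderNatAt G z ≤ ∑ z ∈ Z.filter (fun z => z ∈ LL Y1 Y2), analyticOrderNatAt G z :=
      Finset.single_le_sum (f := fun z => analyticOrderNatAt G z) (fun _ _ => Nat.zero_le _)
        (Finset.mem_filter.2 ⟨(hZ z).2 ⟨subset_closure hzL, h4⟩, hzL⟩)
    have h8 := ord_pos hG h4
    omega
  | succ n ih =>
    intro G hG hD hend hn u hu S hS
    obtain ⟨z0, hz0L, hz0⟩ : ∃ z0 ∈ LL Y1 Y2, G z0 = 0 := by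
      by_contra hcon
      push Not at hcon
      have h1 : cnt G (LL Y1 Y2) = 0 := by
        unfold cnt
        apply finsum_mem_eq_zero_of_forall_eq_zero
        intro z hz
        exact ord_zero hG.diff (hcon z hz)
      omega
    set G1 := dslope G z0 with hG1
    have hG1d : Differentiable ℂ G1 := by
      rw [← differentiableOn_univ, hG1, Complex.differentiableOn_dslope univ_mem, differentiableOn_univ]
      exact hG.diff
    have hfac : ∀ z, G z = (z - z0) * G1 z := by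
      intro z
      have h1 := sub_smul_dslope G z0 z
      rw [hz0, sub_zero, smul_eq_mul] at h1
      exact h1.symm
    have hG1e := ent_of_factor hG hG1d hfac
    have hsh : ∀ z, sh G z = -((z - z0) * sh G1 z) := by
      intro z
      unfold sh
      rw [hfac, map_mul]
      have h2 : (starRingEnd ℂ) (-(starRingEnd ℂ) z - z0) = -(z - z0) := by
        have h3 : (starRingEnd ℂ) z0 = -z0 := by
          apply Complex.ext <;> simp [hz0L.1]
        rw [map_sub, map_neg, Complex.conj_conj, h3]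
        ring
      rw [h2]; ring
    have hD1 : Dom G1 Y1 Y2 := by
      intro z a1 a2 a3 a4 a5
      have h1 := hD z a1 a2 a3 a4 a5
      rw [hsh, hfac, norm_neg, norm_mul, norm_mul] at h1
      exact lt_of_mul_lt_mul_left h1 (norm_nonneg _)
    have hend1 : ∀ z : ℂ, z.re = 0 → (z.im = Y1 ∨ z.im = Y2) → G1 z ≠ 0 := by
      intro z h1 h2 h3
      exact hend z h1 h2 (by rw [hfac, h3, mul_zero])
    have hn1 : cnt G1 (LL Y1 Y2) = n := by
      have := cnt_factor_in hG hG1e hfac (LL_bdd Y1 Y2) hz0L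
      omega
    have hIu : I * u ≠ 0 := mul_ne_zero I_ne_zero hu
    have hFe := FF_ent hG.diff hY hD hu
    have hF1e := FF_ent hG1d hY hD1 hIu
    have hF2e : Ent (fun z => (-I) * FF (I * u) G1 z) := by
      refine ⟨hF1e.diff.const_mul _, ?_⟩
      obtain ⟨w, hw⟩ := hF1e.ne
      exact ⟨w, mul_ne_zero (neg_ne_zero.2 I_ne_zero) hw⟩
    have hFfac : ∀ z, FF u G z = (z - z0) * ((-I) * FF (I * u) G1 z) := by
      intro z
      unfold FF
      rw [hsh, hfac z, map_mul, Complex.conj_I]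
      linear_combination ((z - z0) * (u * G1 z - (starRingEnd ℂ) u * sh G1 z)) * I_mul_I
    have hord : ∀ z, analyticOrderNatAt (FF u G) z = analyticOrderNatAt (FF (I * u) G1) z + if z = z0 then 1 else 0 := by
      intro z
      rw [ord_factor hF2e hFfac z, ord_const_mul hF1e (neg_ne_zero.2 I_ne_zero)]
    have hz0R : z0 ∉ RR Y1 Y2 := fun h => h.1.ne' hz0L.1
    have hc1 : cnt (FF u G) (RR Y1 Y2) = cnt (FF (I * u) G1) (RR Y1 Y2) := by
      rw [cnt_factor_out hF2e hFfac hz0R, cnt_const_mul hF1e (neg_ne_zero.2 I_ne_zero)]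
    have hc2 : cnt G (RR Y1 Y2) = cnt G1 (RR Y1 Y2) := cnt_factor_out hG1e hfac hz0R
    set S1 := S.filter (fun s => FF (I * u) G1 s = 0) with hS1
    have hih := ih G1 hG1e hD1 hend1 hn1 (I * u) hIu S1 (fun s hs => by
      rw [hS1, Finset.mem_filter] at hs
      obtain ⟨a, b, c, -⟩ := hS s hs.1
      exact ⟨a, b, c, hs.2⟩)
    have hsum : ∑ s ∈ S, analyticOrderNatAt (FF u G) s ≤ ∑ s ∈ S1, analyticOrderNatAt (FF (I * u) G1) s + 1 := by
      rw [Finset.sum_congr rfl (fun z _ => hord z), Finset.sum_add_distrib]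
      apply Nat.add_le_add
      · rw [hS1, Finset.sum_filter]
        apply Finset.sum_le_sum
        intro s _
        split_ifs with h
        · exact le_rfl
        · rw [ord_zero hF1e.diff h]
      · rw [Finset.sum_ite_eq']
        split_ifs <;> simp
    have hcard : S1.card ≤ S.card := Finset.card_filter_le _ _
    rw [hc1, hc2]
    omega

/-- The exceptional zeros: off the line, or multiple. -/
theorem exc_bound {G : ℂ → ℂ} (hG : Ent G) {Y1 Y2 : ℝ} (hY : Y1 ≤ Y2) (hD : Dom G Y1 Y2)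
    (hend : ∀ z : ℂ, z.re = 0 → (z.im = Y1 ∨ z.im = Y2) → G z ≠ 0) {u : ℂ} (hu : u ≠ 0) (A : Finset ℂ)
    (hA : ∀ s ∈ A, |s.re| < 1 ∧ Y1 < s.im ∧ s.im < Y2 ∧ FF u G s = 0 ∧
      (s.re ≠ 0 ∨ 2 ≤ analyticOrderNatAt (FF u G) s)) :
    ∑ s ∈ A, analyticOrderNatAt (FF u G) s ≤ 4 * cnt G (RR Y1 Y2 ∪ LL Y1 Y2) := by
  classical
  have hF := FF_ent hG.diff hY hD hu
  set B := A.filter (fun s => s.re = 0) with hB
  have h3 := loc3 hY _ G hG hD hend rfl u hu B (fun s hs => by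
    rw [hB, Finset.mem_filter] at hs
    obtain ⟨-, a, b, c, -⟩ := hA s hs.1
    exact ⟨hs.2, a, b, c⟩)
  have hBs : ∀ s ∈ B, 2 ≤ analyticOrderNatAt (FF u G) s := by
    intro s hs
    rw [hB, Finset.mem_filter] at hs
    rcases (hA s hs.1).2.2.2.2 with h | h
    · exact absurd hs.2 h
    · exact h
  have hB1 : 2 * B.card ≤ ∑ s ∈ B, analyticOrderNatAt (FF u G) s := by
    calc 2 * B.card = ∑ _s ∈ B, 2 := by rw [Finset.sum_const, smul_eq_mul, mul_comm]
      _ ≤ _ := Finset.sum_le_sum hBs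
  set C1 := A.filter (fun s => 0 < s.re) with hC1
  set C2 := A.filter (fun s => s.re < 0) with hC2
  have hsplit : ∑ s ∈ A, analyticOrderNatAt (FF u G) s = ∑ s ∈ B, analyticOrderNatAt (FF u G) s +
      ∑ s ∈ C1, analyticOrderNatAt (FF u G) s + ∑ s ∈ C2, analyticOrderNatAt (FF u G) s := by
    rw [hB, hC1, hC2, Finset.sum_filter, Finset.sum_filter, Finset.sum_filter, ← Finset.sum_add_distrib,
      ← Finset.sum_add_distrib]
    refine Finset.sum_congr rfl fun s _ => ?_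
    rcases lt_trichotomy s.re 0 with h | h | h
    · rw [if_neg h.ne, if_neg (not_lt.2 h.le), if_pos h]; ring
    · rw [if_pos h, if_neg (by rw [h]; exact lt_irrefl _), if_neg (by rw [h]; exact lt_irrefl _)]; ring
    · rw [if_neg h.ne', if_pos h, if_neg (not_lt.2 h.le)]; ring
  obtain ⟨Z, hZ⟩ := hF.exS (RR_bdd Y1 Y2)
  have hc1 : ∑ s ∈ C1, analyticOrderNatAt (FF u G) s ≤ cnt (FF u G) (RR Y1 Y2) := by
    rw [cnt_eq hF.diff Z (fun z hz h0 => (hZ z).2 ⟨subset_closure hz, h0⟩)]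
    apply Finset.sum_le_sum_of_subset
    intro s hs
    rw [hC1, Finset.mem_filter] at hs
    obtain ⟨a, b, c, d, -⟩ := hA s hs.1
    have : s ∈ RR Y1 Y2 := ⟨hs.2, (abs_lt.1 a).2, b, c⟩
    exact Finset.mem_filter.2 ⟨(hZ s).2 ⟨subset_closure this, d⟩, this⟩
  have hc2 : ∑ s ∈ C2, analyticOrderNatAt (FF u G) s ≤ cnt (FF u G) (RR Y1 Y2) := by
    have hinj : Function.Injective (fun z : ℂ => -(starRingEnd ℂ) z) := by
      intro a b hab
      have := congrArg (fun z => -(starRingEnd ℂ) z) hab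
      simpa using this
    have e : ∑ s ∈ C2, analyticOrderNatAt (FF u G) s =
        ∑ s ∈ C2.image (fun z => -(starRingEnd ℂ) z), analyticOrderNatAt (FF u G) s := by
      rw [Finset.sum_image (fun a _ b _ h => hinj h)]
      exact Finset.sum_congr rfl fun s _ => (ord_rfl hF.diff (FF_sh u G) s).symm
    rw [e, cnt_eq hF.diff Z (fun z hz h0 => (hZ z).2 ⟨subset_closure hz, h0⟩)]
    apply Finset.sum_le_sum_of_subset
    intro s hs
    rw [Finset.mem_image] at hs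
    obtain ⟨w, hw, rfl⟩ := hs
    rw [hC2, Finset.mem_filter] at hw
    obtain ⟨a, b, c, d, -⟩ := hA w hw.1
    have h4 : -(starRingEnd ℂ) w ∈ RR Y1 Y2 := by
      refine ⟨by simpa using hw.2, ?_, by simpa using b, by simpa using c⟩
      have := (abs_lt.1 a).1
      simp; linarith
    refine Finset.mem_filter.2 ⟨(hZ _).2 ⟨subset_closure h4, ?_⟩, h4⟩
    rw [← FF_sh, d, map_zero]
  have hu2 : cnt G (RR Y1 Y2 ∪ LL Y1 Y2) = cnt G (RR Y1 Y2) + cnt G (LL Y1 Y2) := by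
    apply cnt_union hG (RR_bdd Y1 Y2) (LL_bdd Y1 Y2)
    rw [Set.disjoint_left]
    rintro z h1 h2
    exact h1.1.ne' h2.1
  rw [hsplit, hu2]
  omega

end

end Pool.Agent.K3h34.DX
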