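import Pool.Agent.K3h34.DX.Strict
import Pool.Agent.Y24.F2

set_option autoImplicit false

/-!
# Exceptional zeros of `E(z) ξ(z + h) + E^#(z) ξ(z - h)` in a window
-/

namespace Pool.Agent.K3h34.DX

open Complex Filter Topology Metric Set
open Pool.Agent.H24R2.JP
open Pool.Agent.Y22.LM (XX_top XX_order XX_zero_iff)

noncomputable section

/-- the multipliers (in the variable `z = s - 1/2`) -/
structure HBz (E : ℂ → ℂ) : Prop where
  diff : Differentiable ℂ E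
  ne : ∀ z : ℂ, 0 ≤ z.re → E z ≠ 0
  le : ∀ z : ℂ, 0 < z.re → ‖E (-(starRingEnd ℂ) z)‖ ≤ ‖E z‖

/-- `E(z) XX(z + h)` -/
def GG (E : ℂ → ℂ) (h : ℝ) (z : ℂ) : ℂ := E z * XX (z + h)

lemma XX_shift_diff (h : ℝ) : Differentiable ℂ (fun z : ℂ => XX (z + h)) :=
  B1h.XX_diff.comp (by fun_prop)

lemma GG_diff {E : ℂ → ℂ} (hE : HBz E) (h : ℝ) : Differentiable ℂ (GG E h) :=
  hE.diff.mul (XX_shift_diff h)

lemma sh_GG (E : ℂ → ℂ) (h : ℝ) (z : ℂ) : sh (GG E h) z = sh E z * XX (z - h) := by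
  rw [← sh_XX h z]
  unfold sh GG
  rw [map_mul]

lemma XX_re_lt {b : ℂ} (hb : XX b = 0) : |b.re| < 1 / 2 := by
  have key : ∀ b : ℂ, XX b = 0 → b.re < 1 / 2 := by
    intro b hb
    obtain ⟨h1, _, h3⟩ := Zer.completed_zero b hb
    have h4 : riemannZeta (1 / 2 + b) = 0 := by
      rw [riemannZeta_def_of_ne_zero h1, h3, zero_div]
    by_contra hcon
    push Not at hcon
    refine riemannZeta_ne_zero_of_one_le_re ?_ h4
    have : (1 / 2 + b : ℂ).re = 1 / 2 + b.re := by simp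
    rw [this]; linarith
  rw [abs_lt]
  constructor
  · have := key (-b) (by rw [Zer.XX_even]; exact hb)
    simp at this
    linarith
  · exact key b hb

/-- the height `Y` is not near a zero to the right of `1/2 + h` -/
def Clr (h Y : ℝ) : Prop := ∀ b : ℂ, XX b = 0 → h ≤ |b.re| → |b.re| < |Y - b.im|

lemma clr_strict {h : ℝ} (hh : 0 < h) {z : ℂ} (hz : 0 < z.re) (hc : 1 / 2 ≤ z.re ∨ Clr h z.im) :
    ‖XX (z - h)‖ < ‖XX (z + h)‖ := by
  apply strict' hz hh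
  intro b hb
  rcases hc with hc | hc
  · have h1 := XX_re_lt hb
    have h2 : b.re ^ 2 < (1 / 2) ^ 2 := by
      rw [← sq_abs]
      exact pow_lt_pow_left₀ h1 (abs_nonneg _) two_ne_zero
    nlinarith [sq_nonneg (z.im - b.im), sq_nonneg h]
  · rcases lt_or_ge |b.re| h with h1 | h1
    · have h2 : b.re ^ 2 < h ^ 2 := by
        rw [← sq_abs]
        exact pow_lt_pow_left₀ h1 (abs_nonneg _) two_ne_zero
      nlinarith [sq_nonneg (z.im - b.im), sq_nonneg z.re]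
    · have h2 := hc b hb h1
      have h3 : b.re ^ 2 < (z.im - b.im) ^ 2 := by
        rw [← sq_abs b.re, ← sq_abs (z.im - b.im)]
        exact pow_lt_pow_left₀ h2 (abs_nonneg _) two_ne_zero
      nlinarith [sq_nonneg h, sq_nonneg z.re]

lemma GG_strict {E : ℂ → ℂ} (hE : HBz E) {h : ℝ} (hh : 0 < h) {z : ℂ} (hz : 0 < z.re)
    (hc : 1 / 2 ≤ z.re ∨ Clr h z.im) : ‖sh (GG E h) z‖ < ‖GG E h z‖ := by
  have h1 := clr_strict hh hz hc
  have h2 : ‖sh E z‖ ≤ ‖E z‖ := by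
    unfold sh
    rw [Complex.norm_conj]
    exact hE.le z hz
  have h3 : 0 < ‖E z‖ := norm_pos_iff.2 (hE.ne z hz.le)
  rw [sh_GG]
  unfold GG
  rw [norm_mul, norm_mul]
  calc ‖sh E z‖ * ‖XX (z - h)‖ ≤ ‖E z‖ * ‖XX (z - h)‖ := mul_le_mul_of_nonneg_right h2 (norm_nonneg _)
    _ < ‖E z‖ * ‖XX (z + h)‖ := mul_lt_mul_of_pos_left h1 h3

lemma GG_dom {E : ℂ → ℂ} (hE : HBz E) {h : ℝ} (hh : 0 < h) {Y1 Y2 : ℝ} (h1 : Clr h Y1) (h2 : Clr h Y2) :
    Dom (GG E h) Y1 Y2 := by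
  intro z a1 a2 a3 a4 a5
  refine GG_strict hE hh a1 ?_
  rcases a5 with h | h | h
  · left; rw [h]; norm_num
  · right; rw [h]; exact h1
  · right; rw [h]; exact h2

lemma GG_end {E : ℂ → ℂ} (hE : HBz E) {h : ℝ} {z : ℂ} (hz : z.re = 0) (hc : Clr h z.im) : GG E h z ≠ 0 := by
  unfold GG
  refine mul_ne_zero (hE.ne z hz.ge) fun h0 => ?_
  have h1 := hc _ h0 (by simp [hz]; exact le_abs_self h)
  simp [hz] at h1
  linarith [abs_nonneg h]

lemma GG_ent {E : ℂ → ℂ} (hE : HBz E) {h : ℝ} (hh : 0 < h) : Ent (GG E h) := by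
  refine ⟨GG_diff hE h, ⟨1, ?_⟩⟩
  have h1 := GG_strict hE hh (z := 1) (by simp) (Or.inl (by norm_num))
  exact norm_pos_iff.1 (lt_of_le_of_lt (norm_nonneg _) h1)

/-- the function -/
def FE (E : ℂ → ℂ) (h : ℝ) : ℂ → ℂ := FF 1 (GG E h)

lemma FE_eq (E : ℂ → ℂ) (h : ℝ) (z : ℂ) :
    FE E h z = E z * XX (z + h) + (starRingEnd ℂ) (E (-(starRingEnd ℂ) z)) * XX (z - h) := by
  unfold FE FF
  rw [sh_GG]
  unfold GG sh
  simp

lemma FE_ent {E : ℂ → ℂ} (hE : HBz E) {h : ℝ} (hh : 0 < h) : Ent (FE E h) := by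
  refine ⟨FF_diff (GG_diff hE h) 1, ⟨1, fun h0 => ?_⟩⟩
  have h1 := GG_strict hE hh (z := 1) (by simp) (Or.inl (by norm_num))
  unfold FE FF at h0
  rw [map_one, one_mul, one_mul] at h0
  have h2 : GG E h 1 = -sh (GG E h) 1 := by linear_combination h0
  rw [h2, norm_neg] at h1
  exact lt_irrefl _ h1

/-- a zero off the line, to the right, has a zero of `ξ` near it -/
lemma FE_ne {E : ℂ → ℂ} (hE : HBz E) {h : ℝ} (hh : 0 < h) {z : ℂ} (hz : z.re ≠ 0)
    (hc : 1 / 2 ≤ |z.re| ∨ Clr h z.im) : FE E h z ≠ 0 := by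
  have key : ∀ z : ℂ, 0 < z.re → (1 / 2 ≤ |z.re| ∨ Clr h z.im) → FE E h z ≠ 0 := by
    intro z hz hc h0
    rw [abs_of_pos hz] at hc
    have h1 := GG_strict hE hh hz hc
    unfold FE FF at h0
    rw [map_one, one_mul, one_mul] at h0
    have h2 : GG E h z = -sh (GG E h) z := by linear_combination h0
    rw [h2, norm_neg] at h1
    exact lt_irrefl _ h1
  rcases lt_or_gt_of_ne hz with h | h
  · intro h0
    refine key (-(starRingEnd ℂ) z) (by simpa using h) (by simpa using hc) ?_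
    unfold FE at h0 ⊢
    rw [← FF_sh, h0, map_zero]
  · exact key z h hc

lemma FE_strip {E : ℂ → ℂ} (hE : HBz E) {h : ℝ} (hh : 0 < h) {z : ℂ} (h0 : FE E h z = 0) : |z.re| < 1 / 2 := by
  by_contra hcon
  push Not at hcon
  have hz : z.re ≠ 0 := by
    intro h1; rw [h1, abs_zero] at hcon; norm_num at hcon
  exact FE_ne hE hh hz (Or.inl hcon) h0

/-- the zeros of `ξ` to the right of the line at distance at least `h` -/
def VV (h Y1 Y2 : ℝ) : Set ℂ := {b | h ≤ b.re ∧ b.re ≤ 1 ∧ Y1 < b.im ∧ b.im < Y2}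

lemma VV_bdd {h : ℝ} (hh : 0 < h) (Y1 Y2 : ℝ) : Bornology.IsBounded (VV h Y1 Y2) := by
  rw [isBounded_iff_forall_norm_le]
  refine ⟨1 + (|Y1| + |Y2|), fun z hz => ?_⟩
  refine (Complex.norm_le_abs_re_add_abs_im z).trans ?_
  have h1 : |z.re| ≤ 1 := by rw [abs_le]; constructor <;> linarith [hz.1, hz.2.1]
  have h2 : |z.im| ≤ |Y1| + |Y2| := by
    rw [abs_le]
    constructor
    · linarith [hz.2.2.1, neg_abs_le Y1, abs_nonneg Y2]
    · linarith [hz.2.2.2, le_abs_self Y2, abs_nonneg Y1]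
  linarith

lemma ord_shift (h : ℝ) (z : ℂ) : analyticOrderNatAt (fun z : ℂ => XX (z + h)) z = analyticOrderNatAt XX (z + h) := by
  have h1 : analyticOrderAt (XX ∘ fun z : ℂ => z + h) z = analyticOrderAt XX (z + h) := by
    apply analyticOrderAt_comp_of_deriv_ne_zero
    · fun_prop
    · simp
  unfold analyticOrderNatAt
  exact congrArg ENat.toNat h1

lemma ord_GG {E : ℂ → ℂ} (hE : HBz E) (h : ℝ) {z : ℂ} (hz : 0 ≤ z.re) :
    analyticOrderNatAt (GG E h) z = analyticOrderNatAt XX (z + h) := by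
  have e : GG E h = E * fun z => XX (z + h) := rfl
  have h2 : analyticOrderAt E z = 0 := by
    rw [(hE.diff.analyticAt z).analyticOrderAt_eq_zero]
    exact hE.ne z hz
  have h3 : analyticOrderAt (fun z : ℂ => XX (z + h)) z ≠ ⊤ := by
    have h1 : analyticOrderAt (XX ∘ fun z : ℂ => z + h) z = analyticOrderAt XX (z + h) := by
      apply analyticOrderAt_comp_of_deriv_ne_zero
      · fun_prop
      · simp
    exact fun h4 => XX_top (z + h) (h1.symm.trans h4)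
  rw [e, analyticOrderNatAt_mul (hE.diff.analyticAt z) ((XX_shift_diff h).analyticAt z) (by rw [h2]; simp) h3,
    ord_shift]
  have h4 : analyticOrderNatAt E z = 0 := by
    unfold analyticOrderNatAt
    rw [h2]; rfl
  rw [h4, zero_add]

lemma cnt_GG {E : ℂ → ℂ} (hE : HBz E) {h : ℝ} (hh : 0 < h) (Y1 Y2 : ℝ) :
    cnt (GG E h) (RR Y1 Y2 ∪ LL Y1 Y2) = cnt XX (VV h Y1 Y2) := by
  have h1 : cnt (GG E h) (RR Y1 Y2 ∪ LL Y1 Y2) = cnt XX ((fun z : ℂ => z + h) '' (RR Y1 Y2 ∪ LL Y1 Y2)) := by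
    unfold cnt
    rw [finsum_mem_image (fun a _ b _ hab => add_right_cancel hab)]
    refine finsum_congr fun z => ?_
    by_cases hz : z ∈ RR Y1 Y2 ∪ LL Y1 Y2
    · have hre : 0 ≤ z.re := by
        rcases hz with hz | hz
        · exact hz.1.le
        · exact hz.1.ge
      rw [ord_GG hE h hre]
    · simp [hz]
  rw [h1]
  apply cnt_congr XX_ent.diff
  intro b hb
  have hb1 := XX_re_lt hb
  rw [abs_lt] at hb1
  constructor
  · rintro ⟨z, hz, rfl⟩
    rcases hz with hz | hz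
    · obtain ⟨a, b, c, d⟩ := hz
      refine ⟨?_, ?_, ?_, ?_⟩ <;> simp <;> first | linarith | skip
      have := hb1.2; simp at this; linarith
    · obtain ⟨a, c, d⟩ := hz
      refine ⟨?_, ?_, ?_, ?_⟩ <;> simp <;> first | linarith | skip
      have := hb1.2; simp at this; linarith
  · rintro ⟨a1, a2, a3, a4⟩
    refine ⟨b - h, ?_, by ring⟩
    rcases a1.eq_or_lt with h2 | h2
    · right
      refine ⟨by simp; linarith, by simpa using a3, by simpa using a4⟩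
    · left
      refine ⟨by simp; linarith, ?_, by simpa using a3, by simpa using a4⟩
      simp; linarith

/-- the local bound for the exceptional zeros -/
theorem exc_count {E : ℂ → ℂ} (hE : HBz E) {h : ℝ} (hh : 0 < h) {Y1 Y2 : ℝ} (hY : Y1 ≤ Y2)
    (h1 : Clr h Y1) (h2 : Clr h Y2) (A : Finset ℂ) (hA : ∀ s ∈ A, Y1 < s.im ∧ s.im < Y2 ∧ FE E h s = 0 ∧
      (s.re ≠ 0 ∨ 2 ≤ analyticOrderNatAt (FE E h) s)) :
    ∑ s ∈ A, analyticOrderNatAt (FE E h) s ≤ 4 * cnt XX (VV h Y1 Y2) := by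
  rw [← cnt_GG hE hh]
  refine exc_bound (GG_ent hE hh) hY (GG_dom hE hh h1 h2) ?_ one_ne_zero A ?_
  · rintro z hz (h3 | h3)
    · exact GG_end hE hz (h3 ▸ h1)
    · exact GG_end hE hz (h3 ▸ h2)
  · intro s hs
    obtain ⟨a, b, c, d⟩ := hA s hs
    refine ⟨?_, a, b, c, d⟩
    have := FE_strip hE hh c
    linarith

/-- comparison with the zeros of zeta -/
lemma cnt_VV {h Y1 Y2 : ℝ} (hh : 0 < h) (hY1 : 0 ≤ Y1) :
    (cnt XX (VV h Y1 Y2) : ℝ) ≤ ∑ᶠ ρ ∈ Pool.Agent.Y24.ZZ (1 / 2 + h) Y2, (analyticOrderNatAt riemannZeta ρ : ℝ) := by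
  classical
  obtain ⟨S, hS⟩ := XX_ent.exS (VV_bdd hh Y1 Y2)
  rw [cnt_eq XX_ent.diff S (fun z hz h0 => (hS z).2 ⟨subset_closure hz, h0⟩)]
  push_cast
  have hfin : (Pool.Agent.Y24.ZZ (1 / 2 + h) Y2).Finite := Pool.Agent.Y24.ZZ_fin _ _
  rw [finsum_mem_eq_finite_toFinset_sum _ hfin]
  have e : ∑ b ∈ S.filter (fun z => z ∈ VV h Y1 Y2), (analyticOrderNatAt XX b : ℝ) =
      ∑ ρ ∈ (S.filter (fun z => z ∈ VV h Y1 Y2)).image (fun b => 1 / 2 + b), (analyticOrderNatAt riemannZeta ρ : ℝ) := by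
    rw [Finset.sum_image (fun a _ b _ hab => add_left_cancel hab)]
    refine Finset.sum_congr rfl fun b hb => ?_
    rw [Finset.mem_filter] at hb
    unfold analyticOrderNatAt
    rw [XX_order (lt_of_le_of_lt hY1 hb.2.2.2.1)]
  rw [e]
  apply Finset.sum_le_sum_of_subset_of_nonneg
  · intro ρ hρ
    rw [Finset.mem_image] at hρ
    obtain ⟨b, hb, rfl⟩ := hρ
    rw [Finset.mem_filter, hS] at hb
    obtain ⟨⟨_, hb0⟩, b1, b2, b3, b4⟩ := hb
    rw [Set.Finite.mem_toFinset]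
    have him : 0 < b.im := lt_of_le_of_lt hY1 b3
    refine ⟨(XX_zero_iff him).1 hb0, ?_, ?_, ?_⟩
    · simp; linarith
    · simpa using him
    · simpa using b4.le
  · intro ρ _ _
    positivity

end

end Pool.Agent.K3h34.DX
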