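import Pool.Agent.K3h34.DX.Main

set_option autoImplicit false

/-!
# The argument on the line: gaps between zeros
-/

namespace Pool.Agent.K3h34.DX

open Complex Filter Topology MeasureTheory Set
open Pool.Agent.H24R2.JP

noncomputable section

/-- representation by a continuous logarithm -/
lemma phase_rep {G : ℂ → ℂ} (hG : Differentiable ℂ G) {a b : ℝ} (h0 : ∀ y ∈ Icc a b, G (I * y) ≠ 0) :
    ∀ y ∈ Icc a b, G (I * y) = G (I * a) * cexp (I * ∫ s in a..y, logDeriv G (I * s)) := by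
  intro y hy
  have hab : a ≤ b := hy.1.trans hy.2
  have hGd : Differentiable ℂ (deriv G) := fun z => ((hG.analyticAt z).deriv).differentiableAt
  have hc : ∀ s ∈ Icc a b, ContinuousAt (fun s : ℝ => logDeriv G (I * s)) s := by
    intro s hs
    have h1 : Continuous (fun s : ℝ => I * (s : ℂ)) := by fun_prop
    show ContinuousAt (fun s : ℝ => deriv G (I * s) / G (I * s)) s
    exact ((hGd.continuous.comp h1).continuousAt).div ((hG.continuous.comp h1).continuousAt) (h0 s hs)
  have hmeas : Measurable (fun s : ℝ => logDeriv G (I * s)) := by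
    have h1 : Continuous (fun s : ℝ => I * (s : ℂ)) := by fun_prop
    show Measurable (fun s : ℝ => deriv G (I * s) / G (I * s))
    exact (hGd.continuous.comp h1).measurable.div (hG.continuous.comp h1).measurable
  have hint : ∀ s ∈ Icc a b, IntervalIntegrable (fun s : ℝ => logDeriv G (I * s)) volume a s := by
    intro s hs
    apply ContinuousOn.intervalIntegrable
    rw [uIcc_of_le hs.1]
    exact fun r hr => (hc r ⟨hr.1, hr.2.trans hs.2⟩).continuousWithinAt
  have hd : ∀ s ∈ Icc a b, HasDerivAt (fun y : ℝ => ∫ s in a..y, logDeriv G (I * s)) (logDeriv G (I * s)) s :=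
    fun s hs => intervalIntegral.integral_hasDerivAt_right (hint s hs)
      hmeas.stronglyMeasurable.stronglyMeasurableAtFilter (hc s hs)
  have hGline : ∀ s : ℝ, HasDerivAt (fun y : ℝ => G (I * y)) (I * deriv G (I * s)) s := by
    intro s
    have h2 : HasDerivAt (fun y : ℝ => I * (y : ℂ)) I s := by
      simpa using (Complex.ofRealCLM.hasDerivAt (x := s)).const_mul I
    have h3 := (hG (I * s)).hasDerivAt.comp s h2
    rw [mul_comm] at h3
    exact h3
  have hF : ∀ s ∈ Icc a b, HasDerivAt (fun y : ℝ => G (I * y) * cexp (-(I * ∫ s in a..y, logDeriv G (I * s)))) 0 s := by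
    intro s hs
    have h1 := (hGline s).mul (((hd s hs).const_mul I).neg.cexp)
    refine h1.congr_deriv ?_
    have h2 := h0 s hs
    have h3 : logDeriv G (I * s) * G (I * s) = deriv G (I * s) := by
      rw [logDeriv_apply]; field_simp
    linear_combination (-I * cexp (-(I * ∫ s in a..s, logDeriv G (I * s)))) * h3
  have h1 := constant_of_has_deriv_right_zero (f := fun y : ℝ => G (I * y) * cexp (-(I * ∫ s in a..y, logDeriv G (I * s))))
    (a := a) (b := b) (fun s hs => (hF s hs).continuousAt.continuousWithinAt)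
    (fun s hs => (hF s (Ico_subset_Icc_self hs)).hasDerivWithinAt) y hy
  simp only [intervalIntegral.integral_same, mul_zero, neg_zero, Complex.exp_zero, mul_one] at h1
  rw [← h1, mul_assoc, ← Complex.exp_add]
  simp

lemma re_int {G : ℂ → ℂ} (hG : Differentiable ℂ G) {a y : ℝ} (hay : a ≤ y) (h0 : ∀ y' ∈ Icc a y, G (I * y') ≠ 0) :
    (∫ s in a..y, logDeriv G (I * s)).re = ∫ s in a..y, (logDeriv G (I * s)).re ∧
      ContinuousOn (fun s : ℝ => (logDeriv G (I * s)).re) (Icc a y) := by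
  have hGd : Differentiable ℂ (deriv G) := fun z => ((hG.analyticAt z).deriv).differentiableAt
  have hc : ContinuousOn (fun s : ℝ => logDeriv G (I * s)) (Icc a y) := by
    intro s hs
    have h1 : Continuous (fun s : ℝ => I * (s : ℂ)) := by fun_prop
    show ContinuousWithinAt (fun s : ℝ => deriv G (I * s) / G (I * s)) _ s
    exact (((hGd.continuous.comp h1).continuousAt).div ((hG.continuous.comp h1).continuousAt) (h0 s hs)).continuousWithinAt
  have hint : IntervalIntegrable (fun s : ℝ => logDeriv G (I * s)) volume a y := by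
    apply ContinuousOn.intervalIntegrable
    rwa [uIcc_of_le hay]
  refine ⟨?_, continuous_re.comp_continuousOn hc⟩
  exact (Complex.reCLM.intervalIntegral_comp_comm hint).symm

/-- on the line the function is twice the real part -/
lemma FE_line (E : ℂ → ℂ) (h : ℝ) (y : ℝ) : FE E h (I * y) = ((2 * (GG E h (I * y)).re : ℝ) : ℂ) := by
  unfold FE FF sh
  have : -(starRingEnd ℂ) (I * (y : ℂ)) = I * y := by
    rw [map_mul, Complex.conj_I, Complex.conj_ofReal]; ring
  rw [this, map_one, one_mul, one_mul, Complex.add_conj]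

/-- a lower bound for the speed of the argument gives zeros -/
theorem exists_zero_line {E : ℂ → ℂ} (hE : HBz E) {h : ℝ} {a b m : ℝ} (hab : a ≤ b)
    (h0 : ∀ y ∈ Icc a b, GG E h (I * y) ≠ 0)
    (hm : ∀ y ∈ Icc a b, m ≤ (logDeriv (GG E h) (I * y)).re) (hlen : Real.pi ≤ m * (b - a)) :
    ∃ y ∈ Icc a b, FE E h (I * y) = 0 := by
  set G := GG E h with hG
  have hGd : Differentiable ℂ G := GG_diff hE h
  have hrep := phase_rep hGd h0
  set ψ : ℝ → ℝ := fun y => (G (I * a)).arg + ∫ s in a..y, (logDeriv G (I * s)).re with hψ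
  have hcont0 := (re_int hGd hab h0).2
  have hψc : ContinuousOn ψ (Icc a b) := by
    apply ContinuousOn.add continuousOn_const
    have := intervalIntegral.continuousOn_primitive_interval (μ := volume) (f := fun s : ℝ => (logDeriv G (I * s)).re)
      (a := a) (b := b) (by
        rw [uIcc_of_le hab]
        exact hcont0.integrableOn_Icc)
    rwa [uIcc_of_le hab] at this
  have hψb : ψ a + Real.pi ≤ ψ b := by
    have h1 : ∫ s in a..b, m ≤ ∫ s in a..b, (logDeriv G (I * s)).re := by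
      apply intervalIntegral.integral_mono_on hab intervalIntegrable_const
      · apply ContinuousOn.intervalIntegrable; rwa [uIcc_of_le hab]
      · exact hm
    rw [intervalIntegral.integral_const, smul_eq_mul] at h1
    simp only [hψ, intervalIntegral.integral_same]
    linarith
  -- a multiple of π plus π/2
  obtain ⟨n, hn1, hn2⟩ : ∃ n : ℤ, ψ a ≤ (n : ℝ) * Real.pi + Real.pi / 2 ∧ (n : ℝ) * Real.pi + Real.pi / 2 ≤ ψ a + Real.pi := by
    refine ⟨⌈(ψ a - Real.pi / 2) / Real.pi⌉, ?_, ?_⟩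
    · have h1 := Int.le_ceil ((ψ a - Real.pi / 2) / Real.pi)
      rw [div_le_iff₀ Real.pi_pos] at h1
      linarith
    · have h1 := (Int.ceil_lt_add_one ((ψ a - Real.pi / 2) / Real.pi)).le
      have h2 : (ψ a - Real.pi / 2) / Real.pi * Real.pi = ψ a - Real.pi / 2 := by
        field_simp
      nlinarith [Real.pi_pos]
  obtain ⟨y, hy, hyn⟩ := intermediate_value_Icc hab hψc ⟨hn1, hn2.trans hψb⟩
  refine ⟨y, hy, ?_⟩
  rw [FE_line]
  have h1 := hrep y hy
  have h2 := (re_int hGd hy.1 (fun s hs => h0 s ⟨hs.1, hs.2.trans hy.2⟩)).1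
  set Λ := ∫ s in a..y, logDeriv G (I * s) with hΛ
  have h3 : G (I * a) * cexp (I * Λ) = ((‖G (I * a)‖ * Real.exp (-Λ.im) : ℝ) : ℂ) * cexp (((ψ y : ℝ) : ℂ) * I) := by
    have e1 := Complex.norm_mul_exp_arg_mul_I (G (I * a))
    have e2 : ψ y = (G (I * a)).arg + Λ.re := by
      simp only [hψ]; rw [h2]
    rw [e2]
    nth_rewrite 1 [← e1]
    push_cast
    rw [mul_assoc, ← Complex.exp_add, mul_assoc, ← Complex.exp_add]
    congr 2
    have e3 : Λ = Λ.re + Λ.im * I := (Complex.re_add_im Λ).symm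
    nth_rewrite 1 [e3]
    linear_combination (Λ.im : ℂ) * I_mul_I
  have h4 : (G (I * y)).re = ‖G (I * a)‖ * Real.exp (-Λ.im) * Real.cos (ψ y) := by
    rw [h1, h3, Complex.re_ofReal_mul, Complex.exp_ofReal_mul_I_re]
  have h5 : Real.cos (ψ y) = 0 := by
    rw [hyn]
    rw [Real.cos_eq_zero_iff]
    exact ⟨n, by ring⟩
  rw [h4, h5, mul_zero, mul_zero]
  simp

/-- an upper bound for the speed of the argument separates zeros -/
theorem sep_zeros {E : ℂ → ℂ} (hE : HBz E) {h : ℝ} {a b M : ℝ} (hab : a < b)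
    (h0 : ∀ y ∈ Icc a b, GG E h (I * y) ≠ 0)
    (hm : ∀ y ∈ Icc a b, 0 < (logDeriv (GG E h) (I * y)).re ∧ (logDeriv (GG E h) (I * y)).re ≤ M)
    (hlen : M * (b - a) < Real.pi) (ha : FE E h (I * a) = 0) (hb : FE E h (I * b) = 0) : False := by
  set G := GG E h with hG
  have hGd : Differentiable ℂ G := GG_diff hE h
  have hrep := phase_rep hGd h0 b (right_mem_Icc.2 hab.le)
  obtain ⟨h2, hcont⟩ := re_int hGd hab.le h0
  set Λ := ∫ s in a..b, logDeriv G (I * s) with hΛ
  have hre : ∀ y : ℝ, FE E h (I * y) = 0 → (G (I * y)).re = 0 := by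
    intro y hy
    rw [FE_line] at hy
    have h3 : 2 * (GG E h (I * y)).re = 0 := by exact_mod_cast hy
    simpa [hG] using h3
  have ha' := hre a ha
  have hb' := hre b hb
  have hint : IntervalIntegrable (fun s : ℝ => (logDeriv G (I * s)).re) volume a b := by
    apply ContinuousOn.intervalIntegrable; rwa [uIcc_of_le hab.le]
  have hup : Λ.re < Real.pi := by
    rw [h2]
    have h1 : ∫ s in a..b, (logDeriv G (I * s)).re ≤ ∫ s in a..b, M :=
      intervalIntegral.integral_mono_on hab.le hint intervalIntegrable_const (fun y hy => (hm y hy).2)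
    rw [intervalIntegral.integral_const, smul_eq_mul] at h1
    linarith
  have hlo : 0 < Λ.re := by
    rw [h2]
    exact intervalIntegral.intervalIntegral_pos_of_pos_on hint (fun y hy => (hm y (Ioo_subset_Icc_self hy)).1) hab
  have hga : (G (I * a)).im ≠ 0 := by
    intro h3
    exact h0 a (left_mem_Icc.2 hab.le) (Complex.ext ha' h3)
  have h4 : G (I * a) = ((G (I * a)).im : ℂ) * I := by
    apply Complex.ext <;> simp [ha']
  have h5 : (G (I * b)).re = -((G (I * a)).im * (Real.exp (-Λ.im) * Real.sin Λ.re)) := by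
    generalize (G (I * a)).im = g at h4
    rw [hrep, h4]
    have e1 : cexp (I * Λ) = ((Real.exp (-Λ.im) : ℝ) : ℂ) * cexp (((Λ.re : ℝ) : ℂ) * I) := by
      push_cast
      rw [← Complex.exp_add]
      congr 1
      have e3 : Λ = Λ.re + Λ.im * I := (Complex.re_add_im Λ).symm
      nth_rewrite 1 [e3]
      linear_combination (Λ.im : ℂ) * I_mul_I
    rw [e1]
    have e2 : ((g : ℂ) * I) * (((Real.exp (-Λ.im) : ℝ) : ℂ) * cexp (((Λ.re : ℝ) : ℂ) * I)) =
        ((g * Real.exp (-Λ.im) : ℝ) : ℂ) * (I * cexp (((Λ.re : ℝ) : ℂ) * I)) := by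
      push_cast; ring
    rw [e2, Complex.re_ofReal_mul, Complex.I_mul_re, Complex.exp_ofReal_mul_I_im]
    ring
  rw [hb'] at h5
  have h6 : 0 < Real.sin Λ.re := Real.sin_pos_of_pos_of_lt_pi hlo hup
  have h7 : (G (I * a)).im * (Real.exp (-Λ.im) * Real.sin Λ.re) ≠ 0 :=
    mul_ne_zero hga (mul_pos (Real.exp_pos _) h6).ne'
  exact h7 (by linarith)

/-- the multiplier only increases the speed of the argument -/
lemma HBz_re {E : ℂ → ℂ} (hE : HBz E) (y : ℝ) : 0 ≤ (logDeriv E (I * y)).re := by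
  have hne : E (I * y) ≠ 0 := hE.ne _ (by simp)
  have hcurve : ∀ ε : ℝ, HasDerivAt (fun x : ℝ => E ((ε : ℂ) * x + I * y)) ((ε : ℂ) * deriv E (I * y)) 0 := by
    intro ε
    have h1 : HasDerivAt (fun x : ℝ => (ε : ℂ) * (x : ℂ) + I * y) (ε : ℂ) 0 := by
      have := ((Complex.ofRealCLM.hasDerivAt (x := (0 : ℝ))).const_mul (ε : ℂ)).add_const (I * (y : ℂ))
      refine this.congr_deriv ?_
      simp
    have h2 : HasDerivAt E (deriv E (I * y)) ((ε : ℂ) * ((0 : ℝ) : ℂ) + I * y) := by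
      have h20 : (ε : ℂ) * ((0 : ℝ) : ℂ) + I * y = I * y := by simp
      rw [h20]
      exact (hE.diff (I * y)).hasDerivAt
    exact (h2.comp (0 : ℝ) h1).congr_deriv (mul_comm _ _)
  have hsq : ∀ ε : ℝ, HasDerivAt (fun x : ℝ => ‖E ((ε : ℂ) * x + I * y)‖ ^ 2)
      (2 * ε * ((starRingEnd ℂ) (E (I * y)) * deriv E (I * y)).re) 0 := by
    intro ε
    have h1 := (hcurve ε).norm_sq
    refine h1.congr_deriv ?_
    rw [Complex.inner]
    simp
    ring
  have hψ : HasDerivAt (fun x : ℝ => ‖E (((1 : ℝ) : ℂ) * x + I * y)‖ ^ 2 - ‖E (((-1 : ℝ) : ℂ) * x + I * y)‖ ^ 2)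
      (4 * ((starRingEnd ℂ) (E (I * y)) * deriv E (I * y)).re) 0 := by
    refine ((hsq 1).sub (hsq (-1))).congr_deriv ?_
    ring
  have hnn : 0 ≤ 4 * ((starRingEnd ℂ) (E (I * y)) * deriv E (I * y)).re := by
    by_contra hcon
    push Not at hcon
    have h1 := (hasDerivAt_iff_tendsto_slope.1 hψ).eventually (gt_mem_nhds hcon)
    have h2 : ∀ᶠ x : ℝ in 𝓝[>] 0, slope (fun x : ℝ => ‖E (((1 : ℝ) : ℂ) * x + I * y)‖ ^ 2 -
        ‖E (((-1 : ℝ) : ℂ) * x + I * y)‖ ^ 2) 0 x < 0 :=
      h1.filter_mono (nhdsWithin_mono _ fun x hx => (ne_of_gt hx))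
    obtain ⟨x, hx1, hx2⟩ := (h2.and self_mem_nhdsWithin).exists
    have hx0 : (0 : ℝ) < x := hx2
    rw [slope_def_field] at hx1
    simp only [Complex.ofReal_zero, mul_zero, zero_add, sub_self, sub_zero] at hx1
    have h3 := hE.le ((((1 : ℝ) : ℂ)) * x + I * y) (by simp; exact hx0)
    have h4 : -(starRingEnd ℂ) ((((1 : ℝ) : ℂ)) * x + I * y) = (((-1 : ℝ) : ℂ)) * x + I * y := by
      simp only [map_add, map_mul, Complex.conj_ofReal, Complex.conj_I]
      push_cast
      ring
    rw [h4] at h3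
    have h5 : ‖E (((-1 : ℝ) : ℂ) * x + I * y)‖ ^ 2 ≤ ‖E (((1 : ℝ) : ℂ) * x + I * y)‖ ^ 2 :=
      pow_le_pow_left₀ (norm_nonneg _) h3 2
    have h6 : 0 ≤ (‖E (((1 : ℝ) : ℂ) * x + I * y)‖ ^ 2 - ‖E (((-1 : ℝ) : ℂ) * x + I * y)‖ ^ 2) / x :=
      div_nonneg (by linarith) hx0.le
    linarith
  have h7 : (logDeriv E (I * y)).re = ((starRingEnd ℂ) (E (I * y)) * deriv E (I * y)).re / ‖E (I * y)‖ ^ 2 := by
    rw [logDeriv_apply]
    have h8 : deriv E (I * y) / E (I * y) = (((‖E (I * y)‖ ^ 2)⁻¹ : ℝ) : ℂ) * ((starRingEnd ℂ) (E (I * y)) * deriv E (I * y)) := by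
      have h9 : (starRingEnd ℂ) (E (I * y)) * E (I * y) = ((‖E (I * y)‖ ^ 2 : ℝ) : ℂ) := by
        rw [mul_comm, Complex.mul_conj, Complex.normSq_eq_norm_sq]
      have h10 : ((‖E (I * y)‖ ^ 2 : ℝ) : ℂ) ≠ 0 := by
        rw [← h9]
        exact mul_ne_zero ((map_ne_zero _).2 hne) hne
      rw [Complex.ofReal_inv, div_eq_iff hne, ← h9]
      have h11 : (starRingEnd ℂ) (E (I * y)) ≠ 0 := (map_ne_zero _).2 hne
      field_simp
    rw [h8, Complex.re_ofReal_mul, inv_mul_eq_div]
  rw [h7]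
  exact div_nonneg (by linarith) (by positivity)

lemma logDeriv_GG {E : ℂ → ℂ} (hE : HBz E) (h y : ℝ) (hX : XX (h + I * y) ≠ 0) :
    logDeriv (GG E h) (I * y) = logDeriv E (I * y) + logDeriv XX (h + I * y) := by
  have hne : E (I * y) ≠ 0 := hE.ne _ (by simp)
  have hX' : XX (I * y + h) ≠ 0 := by rwa [add_comm]
  have e : GG E h = fun z => E z * XX (z + h) := rfl
  rw [e, logDeriv_mul (I * (y : ℂ)) hne hX' (hE.diff _) ((XX_shift_diff h) _)]
  congr 1
  rw [logDeriv_apply, logDeriv_apply, add_comm (h : ℂ) (I * y)]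
  congr 1
  exact deriv_comp_add_const XX (h : ℂ) (I * y)

end

end Pool.Agent.K3h34.DX
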