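import Pool.Agent.K3h34.DX.Phase
import Pool.Agent.W186.SD.MainD
import Pool.Agent.W655.SD.SC2
import Pool.Agent.W327.SD.Top

set_option autoImplicit false

/-!
# Almost all heights are regular at scale `h`
-/

namespace Pool.Agent.K3h34.DX

open Complex Filter Topology MeasureTheory Set
open Pool.Agent.H24R2.JP
open Pool.Agent.H24R2.DZ (ra NN SC1 SC2 Gd)
open Pool.Agent.W186.SD (FarOK S_TOP)

noncomputable section

/-- on the segment of half-length `5h` at distance `h` from the line, the logarithmic derivative is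
close to `(log T)/2` -/
def Reg (η h T t : ℝ) : Prop := ∀ y : ℝ, |y - t| ≤ 5 * h →
  XX (h + I * y) ≠ 0 ∧ ‖logDeriv XX (h + I * y) - (Om T : ℂ)‖ ≤ η * Om T

lemma Om_pos {T : ℝ} (hT : 2 ≤ T) : 0 < Om T := by
  unfold Om
  have := Real.log_pos (show (1 : ℝ) < T by linarith)
  linarith

lemma ra_Om {T h : ℝ} (hT : 2 ≤ T) : ra T (h * Om T) = h := by
  unfold ra Om
  have := Real.log_pos (show (1 : ℝ) < T by linarith)
  field_simp

lemma reg_of_NN {η h T t : ℝ} (hT : 2 ≤ T) (hh : 0 < h)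
    (hN : NN (h * Om T) η (fun z => XX (I * t + h * z))) : Reg η h T t := by
  intro y hy
  have hO := Om_pos hT
  set z : ℂ := 1 + I * (((y - t) / h : ℝ) : ℂ) with hz
  have hzre : z.re = 1 := by simp [hz]
  have hznorm : ‖z‖ ≤ 20 := by
    have h1 : ‖z‖ ≤ ‖(1 : ℂ)‖ + ‖I * (((y - t) / h : ℝ) : ℂ)‖ := norm_add_le _ _
    rw [norm_one, norm_mul, Complex.norm_I, one_mul, Complex.norm_real, Real.norm_eq_abs, abs_div,
      abs_of_pos hh] at h1
    have h2 : |y - t| / h ≤ 5 := by
      rw [div_le_iff₀ hh]; exact hy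
    linarith
  have e : (I * t + h * z : ℂ) = h + I * y := by
    rw [hz]
    have hh' : (h : ℂ) ≠ 0 := by exact_mod_cast hh.ne'
    push_cast
    field_simp
    ring
  obtain ⟨h1, h2⟩ := hN.far z (by rw [hzre]; norm_num) hznorm
  simp only [e] at h1
  refine ⟨h1, ?_⟩
  have h3 : logDeriv (fun z : ℂ => XX (I * t + h * z)) z = h * logDeriv XX (h + I * y) := by
    have hd : HasDerivAt (fun z : ℂ => (I * t + h * z : ℂ)) (h : ℂ) z := by
      simpa using ((hasDerivAt_id z).const_mul (h : ℂ)).const_add (I * (t : ℂ))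
    have hd2 : HasDerivAt (fun z : ℂ => XX (I * t + h * z)) (deriv XX (I * t + h * z) * h) z :=
      (B1h.XX_diff _).hasDerivAt.comp z hd
    rw [logDeriv_apply, hd2.deriv, logDeriv_apply, e]
    ring
  rw [h3] at h2
  have h4 : (h : ℂ) * logDeriv XX (h + I * y) - ((h * Om T : ℝ) : ℂ) =
      h * (logDeriv XX (h + I * y) - (Om T : ℂ)) := by push_cast; ring
  rw [h4, norm_mul, Complex.norm_real, Real.norm_eq_abs, abs_of_pos hh] at h2
  have h5 : h * ‖logDeriv XX (h + I * y) - (Om T : ℂ)‖ ≤ h * (η * Om T) := by linarith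
  exact le_of_mul_le_mul_left h5 hh

lemma reg_of_far {η h T t : ℝ} (hη : 0 < η) (hT : 2 ≤ T) (ht1 : T ≤ t) (ht2 : t ≤ 2 * T) (hh : 1 / 100 ≤ h)
    (hh2 : h ≤ 1 / 2) (hlog : Real.log 2 ≤ η / 2 * Om T)
    (hN : FarOK 10 (1 / 100) (η / 4) t) : Reg η h T t := by
  intro y hy
  have hO := Om_pos hT
  have e : (I * t + (h + I * ((y - t : ℝ) : ℂ)) : ℂ) = h + I * y := by push_cast; ring
  obtain ⟨h1, h2⟩ := hN (h + I * ((y - t : ℝ) : ℂ)) (by simp; linarith) (by
    refine (norm_add_le _ _).trans ?_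
    rw [norm_mul, Complex.norm_I, one_mul, Complex.norm_real, Complex.norm_real, Real.norm_eq_abs, Real.norm_eq_abs,
      abs_of_pos (by linarith : 0 < h)]
    linarith)
  rw [e] at h1 h2
  refine ⟨h1, ?_⟩
  have ht0 : 0 < t := by linarith
  have h3 : Om T ≤ Om t := by
    unfold Om
    have := Real.log_le_log (by linarith) ht1
    linarith
  have h4 : Om t ≤ Om T + Real.log 2 / 2 := by
    unfold Om
    have := Real.log_le_log ht0 ht2
    rw [Real.log_mul (by norm_num) (by linarith)] at this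
    linarith
  have h5 : ‖logDeriv XX (h + I * y) - (Om T : ℂ)‖ ≤ ‖logDeriv XX (h + I * y) - (Om t : ℂ)‖ + (Om t - Om T) := by
    have e1 : logDeriv XX (h + I * y) - (Om T : ℂ) = (logDeriv XX (h + I * y) - (Om t : ℂ)) + ((Om t - Om T : ℝ) : ℂ) := by
      push_cast; ring
    rw [e1]
    refine (norm_add_le _ _).trans ?_
    rw [Complex.norm_real, Real.norm_eq_abs, abs_of_nonneg (by linarith : 0 ≤ Om t - Om T)]
  have h6 : Real.log 2 / 2 ≤ Om T := by
    have h7 : Real.log 2 ≤ Real.log T := Real.log_le_log (by norm_num) hT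
    unfold Om; linarith
  have h8 : η / 4 * Om t ≤ η / 4 * (2 * Om T) := mul_le_mul_of_nonneg_left (by linarith) (by linarith)
  linarith

theorem reg_meas {η : ℝ} (hη : 0 < η) : ∃ c C K T0 : ℝ, 0 < c ∧ 0 < C ∧ 1 ≤ K ∧ 2 ≤ T0 ∧ ∀ T h : ℝ, T0 ≤ T →
    0 < h → h ≤ 1 / 2 → K ≤ h * Real.log T →
    volume {t : ℝ | T ≤ t ∧ t ≤ 2 * T ∧ ¬ Reg η h T t} ≤ ENNReal.ofReal (C * T * Real.exp (-(c * h * Real.log T))) := by
  have sc2 : SC2 := Pool.Agent.W655.SD.sc2 Pool.Agent.W261.SD.ssq Pool.Agent.W688.SD.shar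
  have sc1 : SC1 := Pool.Agent.W186.SD.sc1
  have top : S_TOP := _root_.W327.SD.top
  obtain ⟨η1, ε1, hη1, hε1, h2⟩ := sc2 η hη
  obtain ⟨θ, c1, C1, a1, T1, hθ, hθ2, hc1, hC1, ha1, hT1, h1⟩ := sc1 η1 ε1 hη1 hε1
  obtain ⟨a2, T2, h2⟩ := h2 θ hθ hθ2
  obtain ⟨c3, C3, T3, hc3, hC3, hT3, h3⟩ := top 10 (1 / 100) (η / 4) (by norm_num) (by norm_num) (by positivity)
  set T4 := Real.exp (4 * Real.log 2 / η) with hT4
  refine ⟨min (c1 / 2) (2 * c3), max C1 C3, max 1 (max (2 * a1) (2 * a2)), max (max T1 T2) (max T3 T4), lt_min (by linarith) (by linarith),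
    lt_max_of_lt_left hC1, le_max_left _ _, (hT1.trans (le_max_left _ _)).trans (le_max_left _ _), ?_⟩
  intro T h hT hh hh2 hK
  have hTT1 : T1 ≤ T := ((le_max_left _ _).trans (le_max_left _ _)).trans hT
  have hTT2 : T2 ≤ T := ((le_max_right _ _).trans (le_max_left _ _)).trans hT
  have hTT3 : T3 ≤ T := ((le_max_left _ _).trans (le_max_right _ _)).trans hT
  have hTT4 : T4 ≤ T := ((le_max_right _ _).trans (le_max_right _ _)).trans hT
  have hT2' : 2 ≤ T := hT1.trans hTT1
  have hT0 : 0 < T := by linarith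
  have hlog0 : 0 < Real.log T := Real.log_pos (by linarith)
  have hl : 0 ≤ h * Real.log T := by positivity
  rcases le_or_gt h (1 / 100) with h100 | h100
  · have hKa1 : 2 * a1 ≤ h * Real.log T := ((le_max_left _ _).trans (le_max_right _ _)).trans hK
    have hKa2 : 2 * a2 ≤ h * Real.log T := ((le_max_right _ _).trans (le_max_right _ _)).trans hK
    have ha : h * Om T = h * Real.log T / 2 := by unfold Om; ring
    have ha_le : h * Om T ≤ Real.log T / 200 := by rw [ha]; nlinarith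
    have hm := h1 T (h * Om T) hTT1 (by rw [ha]; linarith) ha_le
    refine (measure_mono ?_).trans (hm.trans (ENNReal.ofReal_le_ofReal ?_))
    · rintro t ⟨ht1, ht2, ht3⟩
      refine ⟨by linarith, by linarith, fun hG => ht3 ?_⟩
      have hN := h2 T (h * Om T) t hTT2 (by rw [ha]; linarith) ha_le (by linarith) (by linarith) hG
      rw [ra_Om hT2'] at hN
      exact reg_of_NN hT2' hh hN
    · have e1 : C1 * T ≤ max C1 C3 * T := mul_le_mul_of_nonneg_right (le_max_left _ _) hT0.le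
      refine mul_le_mul e1 (Real.exp_le_exp.mpr ?_) (Real.exp_pos _).le (by positivity)
      rw [ha]
      have e2 : min (c1 / 2) (2 * c3) * (h * Real.log T) ≤ c1 / 2 * (h * Real.log T) :=
        mul_le_mul_of_nonneg_right (min_le_left _ _) hl
      nlinarith
  · have hm := h3 T hTT3
    have hlog2 : Real.log 2 ≤ η / 2 * Om T := by
      have h5 : 4 * Real.log 2 / η ≤ Real.log T := by
        rw [Real.le_log_iff_exp_le hT0]; exact hTT4
      rw [div_le_iff₀ hη] at h5
      unfold Om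
      nlinarith
    refine (measure_mono ?_).trans (hm.trans (ENNReal.ofReal_le_ofReal ?_))
    · rintro t ⟨ht1, ht2, ht3⟩
      refine ⟨by linarith, by linarith, fun hG => ht3 ?_⟩
      exact reg_of_far hη hT2' ht1 ht2 h100.le hh2 hlog2 hG
    · have e0 : T ^ (1 - c3) = T * Real.exp (-(c3 * Real.log T)) := by
        rw [Real.rpow_def_of_pos hT0, show Real.log T * (1 - c3) = Real.log T + -(c3 * Real.log T) by ring,
          Real.exp_add, Real.exp_log hT0]
      rw [e0, ← mul_assoc]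
      have e1 : C3 * T ≤ max C1 C3 * T := mul_le_mul_of_nonneg_right (le_max_right _ _) hT0.le
      refine mul_le_mul e1 (Real.exp_le_exp.mpr ?_) (Real.exp_pos _).le (by positivity)
      have e2 : min (c1 / 2) (2 * c3) * (h * Real.log T) ≤ 2 * c3 * (h * Real.log T) :=
        mul_le_mul_of_nonneg_right (min_le_right _ _) hl
      have e3 : 2 * c3 * (h * Real.log T) ≤ c3 * Real.log T := by
        have : h * Real.log T ≤ 1 / 2 * Real.log T := mul_le_mul_of_nonneg_right hh2 hlog0.le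
        nlinarith
      linarith

end

end Pool.Agent.K3h34.DX
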