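import Pool.Agent.K3h34.DX.Final

set_option autoImplicit false

/-!
# Differenced xi functions: exceptional zeros and zero spacings, unconditionally

For `h > 0` and a Hermite-Biehler multiplier `E` (for instance `E(s) = e^{iθ} Y^(s - 1/2)` with `Y ≥ 1`)
put `F(s) = E(s) ξ(s + h) + conj E(1 - conj s) ξ(s - h)`. For `E = 1` and `E = -i` these are twice the
functions `A_h`, `B_h` of Lagarias (Zero spacing distributions for differenced L-functions, 2005), who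
proved that their zeros are on the critical line, simple and asymptotically evenly spaced for `h ≥ 1/2`, and
for fixed `0 < h < 1/2` under the Riemann hypothesis. The Riemann hypothesis holds iff for every
`h > 0` all zeros of `ξ(s + h) + ξ(s - h)` lie on the critical line. Here everything is unconditional and
uniform in `E`, `0 < h ≤ 1/2` and `T ≥ 2`:

* the number of exceptional zeros of `F` (off the line or multiple) in a window is at most four times the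
  number of zeros of `ξ` with real part at least `1/2 + h` in this window;
* hence their proportion in `T < Im s ≤ 2T` is at most `C T^(-c h)` for each `c < 4/3`;
* outside a set of heights `t` in `[T, 2T]` of measure at most `C T^(1 - c h)`, the zeros at distance at most
  `5h` from the height `t` are all simple, on the line, and evenly spaced up to a factor `1 ± ε`.
-/

namespace Pool.Agent.K3h34.DX.Result

open Complex MeasureTheory Set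

noncomputable section

/-- The Riemann xi function `s (s - 1) π^(-s/2) Γ(s/2) ζ(s) / 2`, as an entire function. -/
def xi (s : ℂ) : ℂ := s * (s - 1) / 2 * completedRiemannZeta₀ s + 1 / 2

/-- Hermite-Biehler multipliers for the critical line: `E` is entire, has no zero with `Re s ≥ 1/2`, and
`|E(1 - conj s)| ≤ |E(s)|` for `Re s > 1/2`. -/
def HB (E : ℂ → ℂ) : Prop := Differentiable ℂ E ∧ (∀ s : ℂ, 1 / 2 ≤ s.re → E s ≠ 0) ∧
  ∀ s : ℂ, 1 / 2 < s.re → ‖E (1 - (starRingEnd ℂ) s)‖ ≤ ‖E s‖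

/-- `F(s) = E(s) ξ(s + h) + conj E(1 - conj s) ξ(s - h)`. -/
def F (E : ℂ → ℂ) (h : ℝ) (s : ℂ) : ℂ :=
  E s * xi (s + h) + (starRingEnd ℂ) (E (1 - (starRingEnd ℂ) s)) * xi (s - h)

/-- The multiplier `e^{iθ} e^{κ (s - 1/2)}`. -/
def Ex (θ κ : ℝ) (s : ℂ) : ℂ := cexp (I * θ + κ * (s - 1 / 2))

/-- The zeros of `f` with height in `J`. -/
def Zer (f : ℂ → ℂ) (J : Set ℝ) : Set ℂ := {s | f s = 0 ∧ s.im ∈ J}

/-- The exceptional zeros of `f` with height in `J`: those off the critical line or multiple. -/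
def Exc (f : ℂ → ℂ) (J : Set ℝ) : Set ℂ := {s | f s = 0 ∧ s.im ∈ J ∧ (s.re ≠ 1 / 2 ∨ deriv f s = 0)}

/-- The number of zeros of `f` in `A`, counted with multiplicity. -/
def num (f : ℂ → ℂ) (A : Set ℂ) : ℕ := ∑ᶠ s ∈ A, analyticOrderNatAt f s

/-- `Y` is farther than `Re ρ - 1/2` from the height of each zero `ρ` of `ξ` with `Re ρ ≥ 1/2 + h`. -/
def Far (h Y : ℝ) : Prop := ∀ ρ : ℂ, xi ρ = 0 → 1 / 2 + h ≤ ρ.re → ρ.re - 1 / 2 < |Y - ρ.im|

/-- Every subinterval of `J` of length at least `δ` contains the height of a zero of `f` on the line. -/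
def NoGap (f : ℂ → ℂ) (J : Set ℝ) (δ : ℝ) : Prop :=
  ∀ a ∈ J, ∀ b ∈ J, δ ≤ b - a → ∃ y ∈ Icc a b, f (1 / 2 + I * y) = 0

/-- Different zeros of `f` on the line with heights in `J` are at distance at least `δ`. -/
def Sep (f : ℂ → ℂ) (J : Set ℝ) (δ : ℝ) : Prop :=
  ∀ a ∈ J, ∀ b ∈ J, a < b → f (1 / 2 + I * a) = 0 → f (1 / 2 + I * b) = 0 → δ ≤ b - a

/-- In the window `J = [t - 5h, t + 5h]` there is no exceptional zero of any `F`, no gap of length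
`(1 + ε) 2π / log T`, and for the multipliers `e^{iθ} e^{κ (s - 1/2)}`, `κ ≥ 0`, all gaps are between
`(1 - ε) 2π / (log T + 2κ)` and `(1 + ε) 2π / (log T + 2κ)`. -/
def Fine (ε h T t : ℝ) : Prop :=
  (∀ E : ℂ → ℂ, HB E → Exc (F E h) (Icc (t - 5 * h) (t + 5 * h)) = ∅ ∧
    NoGap (F E h) (Icc (t - 5 * h) (t + 5 * h)) ((1 + ε) * (2 * Real.pi / Real.log T))) ∧
  ∀ θ κ : ℝ, 0 ≤ κ →
    Sep (F (Ex θ κ) h) (Icc (t - 5 * h) (t + 5 * h)) ((1 - ε) * (2 * Real.pi / (Real.log T + 2 * κ))) ∧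
    NoGap (F (Ex θ κ) h) (Icc (t - 5 * h) (t + 5 * h)) ((1 + ε) * (2 * Real.pi / (Real.log T + 2 * κ)))

lemma fine_of {ε h T t : ℝ} (hf : Pool.Agent.K3h34.DX.Fine ε h T t) : Fine ε h T t := by
  refine ⟨fun E hE => ⟨?_, ?_⟩, fun θ κ hκ => ⟨?_, ?_⟩⟩
  · rw [Set.eq_empty_iff_forall_notMem]
    rintro s ⟨h1, ⟨h2, h3⟩, h4⟩
    obtain ⟨h5, h6⟩ := (hf.1 E hE).1 s h1 (by rw [abs_le]; constructor <;> linarith)
    rcases h4 with h4 | h4
    · exact h4 h5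
    · exact h6 h4
  · intro a ha b hb hab
    exact (hf.1 E hE).2 a b ha.1 hb.2 hab
  · intro a ha b hb hab h1 h2
    exact (hf.2 θ κ hκ).1 a b ha.1 hab hb.2 h1 h2
  · intro a ha b hb hab
    exact (hf.2 θ κ hκ).2 a b ha.1 hb.2 hab

theorem result :
    (∀ (E : ℂ → ℂ) (h : ℝ), HB E → 0 < h → (∀ a b : ℝ, (Zer (F E h) (Icc a b)).Finite) ∧
      ∀ a b : ℝ, a ≤ b → Far h a → Far h b →
        num (F E h) (Exc (F E h) (Ioo a b)) ≤ 4 * num xi {ρ | 1 / 2 + h ≤ ρ.re ∧ ρ.im ∈ Ioo a b}) ∧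
    (∀ c : ℝ, c < 4 / 3 → ∃ C : ℝ, 0 < C ∧ ∀ (E : ℂ → ℂ) (h T : ℝ), HB E → 0 < h → h ≤ 1 / 2 → 2 ≤ T →
      (num (F E h) (Exc (F E h) (Ioc T (2 * T))) : ℝ) ≤
        C * T ^ (-(c * h)) * num (F E h) (Zer (F E h) (Ioc T (2 * T))) ∧
      (C ≤ T ^ h → (num (F E h) (Exc (F E h) (Ioc T (2 * T))) : ℝ) ≤ C * T ^ (1 - c * h) * Real.log T)) ∧
    (∀ ε : ℝ, 0 < ε → ε < 1 → ∃ c C : ℝ, 0 < c ∧ 0 < C ∧ ∀ h T : ℝ, 0 < h → h ≤ 1 / 2 → 2 ≤ T →
      volume {t : ℝ | T ≤ t ∧ t ≤ 2 * T ∧ ¬ Fine ε h T t} ≤ ENNReal.ofReal (C * T ^ (1 - c * h))) ∧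
    (RiemannHypothesis ↔ ∀ h : ℝ, 0 < h → ∀ s : ℂ, xi (s + h) + xi (s - h) = 0 → s.re = 1 / 2) ∧
    ∀ h : ℝ, 0 < h → ((∀ s : ℂ, 1 / 2 + h < s.re → riemannZeta s ≠ 0) ↔
      ∀ (θ : ℝ) (s : ℂ), cexp (I * θ) * xi (s + h) + cexp (-(I * θ)) * xi (s - h) = 0 → s.re = 1 / 2) := by
  refine ⟨fun E h hE hh => ⟨fun a b => Pool.Agent.K3h34.DX.part_fin E hE h hh a b, fun a b hab ha hb => ?_⟩,
    fun c hc => ?_, fun ε hε hε1 => ?_, Pool.Agent.K3h34.DX.part5, Pool.Agent.K3h34.DX.part6⟩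
  · have h1 := Pool.Agent.K3h34.DX.part0 E hE h a b hh hab ha hb
    have e1 : Exc (F E h) (Ioo a b) = {s | Pool.Agent.K3h34.DX.F E h s = 0 ∧ a < s.im ∧ s.im < b ∧
        (s.re ≠ 1 / 2 ∨ deriv (Pool.Agent.K3h34.DX.F E h) s = 0)} := by
      ext s
      exact ⟨fun ⟨a1, ⟨a2, a3⟩, a4⟩ => ⟨a1, a2, a3, a4⟩, fun ⟨a1, a2, a3, a4⟩ => ⟨a1, ⟨a2, a3⟩, a4⟩⟩
    rw [e1]
    exact h1
  · obtain ⟨C, hC, h1⟩ := Pool.Agent.K3h34.DX.part2 c hc
    refine ⟨C, hC, fun E h T hE hh hh2 hT => ?_⟩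
    have h2 := h1 E h T hE hh hh2 hT
    have e1 : Zer (F E h) (Ioc T (2 * T)) = Pool.Agent.K3h34.DX.Zer E h T := rfl
    have e2 : Exc (F E h) (Ioc T (2 * T)) = Pool.Agent.K3h34.DX.Exc E h T := by
      ext s
      exact ⟨fun ⟨a1, a2, a3⟩ => ⟨⟨a1, a2⟩, a3⟩, fun ⟨⟨a1, a2⟩, a3⟩ => ⟨a1, a2, a3⟩⟩
    rw [e1, e2]
    exact h2
  · obtain ⟨c, C, hc, hC, h1⟩ := Pool.Agent.K3h34.DX.part4 ε hε hε1
    refine ⟨c, C, hc, hC, fun h T hh hh2 hT => (measure_mono ?_).trans (h1 h T hh hh2 hT)⟩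
    rintro t ⟨a1, a2, a3⟩
    exact ⟨a1, a2, fun h4 => a3 (fine_of h4)⟩

end

end Pool.Agent.K3h34.DX.Result
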