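import Pool.Agent.K3h34.DX.Count

set_option autoImplicit false

/-!
# The reflection in the imaginary axis, and the functions `u G + conj u G^#`
-/

namespace Pool.Agent.K3h34.DX

open Complex Filter Topology Metric Set
open Pool.Agent.R838.ST (nb rouche)

noncomputable section

/-- the reflected function -/
def sh (G : ℂ → ℂ) (z : ℂ) : ℂ := (starRingEnd ℂ) (G (-(starRingEnd ℂ) z))

/-- `u G + conj u G^#` -/
def FF (u : ℂ) (G : ℂ → ℂ) (z : ℂ) : ℂ := u * G z + (starRingEnd ℂ) u * sh G z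

lemma rfl_rfl (z : ℂ) : -(starRingEnd ℂ) (-(starRingEnd ℂ) z) = z := by simp

lemma sh_sh (G : ℂ → ℂ) (z : ℂ) : sh (sh G) z = G z := by
  unfold sh; simp

lemma sh_diff {G : ℂ → ℂ} (hG : Differentiable ℂ G) : Differentiable ℂ (sh G) := by
  intro z
  have h1 : DifferentiableAt ℂ (fun w => G (-w)) ((starRingEnd ℂ) z) :=
    (hG _).comp _ (differentiableAt_id.neg)
  have h3 := h1.conj_conj
  rw [Complex.conj_conj] at h3
  exact h3

lemma FF_diff {G : ℂ → ℂ} (hG : Differentiable ℂ G) (u : ℂ) : Differentiable ℂ (FF u G) :=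
  (hG.const_mul u).add ((sh_diff hG).const_mul _)

lemma FF_sh (u : ℂ) (G : ℂ → ℂ) (z : ℂ) : (starRingEnd ℂ) (FF u G z) = FF u G (-(starRingEnd ℂ) z) := by
  unfold FF sh
  simp
  ring

lemma norm_sh_line (G : ℂ → ℂ) {z : ℂ} (hz : z.re = 0) : ‖sh G z‖ = ‖G z‖ := by
  have : -(starRingEnd ℂ) z = z := by
    apply Complex.ext <;> simp [hz]
  unfold sh
  rw [this, Complex.norm_conj]

/-- order at the reflected point -/
lemma ord_rfl {F : ℂ → ℂ} (hF : Differentiable ℂ F)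
    (hs : ∀ z, (starRingEnd ℂ) (F z) = F (-(starRingEnd ℂ) z)) (z : ℂ) :
    analyticOrderNatAt F (-(starRingEnd ℂ) z) = analyticOrderNatAt F z := by
  have key : ∀ w : ℂ, ∀ n : ℕ, analyticOrderAt F w = n → analyticOrderAt F (-(starRingEnd ℂ) w) = n := by
    intro w n hn
    rw [(hF.analyticAt w).analyticOrderAt_eq_natCast] at hn
    obtain ⟨g, hg, hg0, hgF⟩ := hn
    rw [(hF.analyticAt _).analyticOrderAt_eq_natCast]
    obtain ⟨r, hr, hball⟩ := Metric.eventually_nhds_iff_ball.1 (hg.eventually_analyticAt.and hgF)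
    refine ⟨fun z => (-1) ^ n * sh g z, ?_, ?_, ?_⟩
    · have hd : DifferentiableOn ℂ (sh g) (ball (-(starRingEnd ℂ) w) r) := by
        intro z hz
        have h1 : -(starRingEnd ℂ) z ∈ ball w r := by
          rw [mem_ball, dist_eq_norm] at hz ⊢
          have : -(starRingEnd ℂ) z - w = -(starRingEnd ℂ) (z - -(starRingEnd ℂ) w) := by simp; ring
          rw [this, norm_neg, Complex.norm_conj]
          exact hz
        have h2 : DifferentiableAt ℂ (fun v => g (-v)) ((starRingEnd ℂ) z) :=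
          (hball _ h1).1.differentiableAt.comp _ (differentiableAt_id.neg)
        have h3 := h2.conj_conj
        rw [Complex.conj_conj] at h3
        exact h3.differentiableWithinAt
      have h3 : AnalyticAt ℂ (sh g) (-(starRingEnd ℂ) w) := hd.analyticAt (ball_mem_nhds _ hr)
      exact analyticAt_const.mul h3
    · refine mul_ne_zero (pow_ne_zero _ (by norm_num)) ?_
      unfold sh
      rw [rfl_rfl]
      exact (map_ne_zero _).2 hg0
    · filter_upwards [ball_mem_nhds (-(starRingEnd ℂ) w) hr] with z hz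
      have h1 : -(starRingEnd ℂ) z ∈ ball w r := by
        rw [mem_ball, dist_eq_norm] at hz ⊢
        have : -(starRingEnd ℂ) z - w = -(starRingEnd ℂ) (z - -(starRingEnd ℂ) w) := by simp; ring
        rw [this, norm_neg, Complex.norm_conj]
        exact hz
      have h2 := (hball _ h1).2
      have h3 := hs z
      rw [h2] at h3
      have h4 : F z = (starRingEnd ℂ) ((-(starRingEnd ℂ) z - w) ^ n • g (-(starRingEnd ℂ) z)) := by
        rw [← h3, Complex.conj_conj]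
      rw [h4]
      unfold sh
      simp only [smul_eq_mul, map_mul, map_pow, map_sub, map_neg, Complex.conj_conj]
      have h5 : (-z - (starRingEnd ℂ) w) ^ n = (-1) ^ n * (z - -(starRingEnd ℂ) w) ^ n := by
        rw [← mul_pow]; congr 1; ring
      rw [h5]; ring
  by_cases htop : analyticOrderAt F z = ⊤
  · have h2 : analyticOrderAt F (-(starRingEnd ℂ) z) = ⊤ := by
      by_contra hne
      have h3 := key (-(starRingEnd ℂ) z) _ (Nat.cast_analyticOrderNatAt hne).symm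
      rw [rfl_rfl, htop] at h3
      exact absurd h3 (by simp)
    unfold analyticOrderNatAt
    rw [htop, h2]
  · have h3 := key z _ (Nat.cast_analyticOrderNatAt htop).symm
    unfold analyticOrderNatAt at h3 ⊢
    rw [h3]
    simp

/-- counting in the reflected set -/
lemma cnt_rfl {F : ℂ → ℂ} (hF : Differentiable ℂ F)
    (hs : ∀ z, (starRingEnd ℂ) (F z) = F (-(starRingEnd ℂ) z)) (U : Set ℂ) :
    cnt F ((fun z => -(starRingEnd ℂ) z) '' U) = cnt F U := by
  unfold cnt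
  rw [finsum_mem_image]
  · exact finsum_congr fun z => by rw [ord_rfl hF hs]
  · intro a _ b _ hab
    have := congrArg (fun z => -(starRingEnd ℂ) z) hab
    simpa using this

lemma cnt_const_mul {f : ℂ → ℂ} (hf : Ent f) {c : ℂ} (hc : c ≠ 0) (U : Set ℂ) :
    cnt (fun z => c * f z) U = cnt f U := by
  unfold cnt
  refine finsum_congr fun z => ?_
  have h1 : analyticOrderNatAt (fun z => c * f z) z = analyticOrderNatAt f z := by
    have h2 : (fun z => c * f z) = (fun _ => c) * f := rfl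
    have h3 : analyticOrderAt (fun _ : ℂ => c) z = 0 := by
      rw [analyticAt_const.analyticOrderAt_eq_zero]; exact hc
    rw [h2, analyticOrderNatAt_mul analyticAt_const (hf.diff.analyticAt z) (by rw [h3]; simp) (hf.top z)]
    unfold analyticOrderNatAt
    rw [h3]; simp
  rw [h1]

lemma ord_const_mul {f : ℂ → ℂ} (hf : Ent f) {c : ℂ} (hc : c ≠ 0) (z : ℂ) :
    analyticOrderNatAt (fun z => c * f z) z = analyticOrderNatAt f z := by
  have h2 : (fun z => c * f z) = (fun _ => c) * f := rfl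
  have h3 : analyticOrderAt (fun _ : ℂ => c) z = 0 := by
    rw [analyticAt_const.analyticOrderAt_eq_zero]; exact hc
  rw [h2, analyticOrderNatAt_mul analyticAt_const (hf.diff.analyticAt z) (by rw [h3]; simp) (hf.top z)]
  unfold analyticOrderNatAt
  rw [h3]; simp

/-- the open rectangle to the right of the line -/
def RR (Y1 Y2 : ℝ) : Set ℂ := {z | 0 < z.re ∧ z.re < 1 ∧ Y1 < z.im ∧ z.im < Y2}

lemma RR_open (Y1 Y2 : ℝ) : IsOpen (RR Y1 Y2) := by
  have h1 : IsOpen {z : ℂ | 0 < z.re} := isOpen_lt continuous_const continuous_re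
  have h2 : IsOpen {z : ℂ | z.re < 1} := isOpen_lt continuous_re continuous_const
  have h3 : IsOpen {z : ℂ | Y1 < z.im} := isOpen_lt continuous_const continuous_im
  have h4 : IsOpen {z : ℂ | z.im < Y2} := isOpen_lt continuous_im continuous_const
  exact (h1.inter (h2.inter (h3.inter h4)))

lemma RR_closure {Y1 Y2 : ℝ} {z : ℂ} (hz : z ∈ closure (RR Y1 Y2)) :
    0 ≤ z.re ∧ z.re ≤ 1 ∧ Y1 ≤ z.im ∧ z.im ≤ Y2 := by
  have h1 : IsClosed {z : ℂ | 0 ≤ z.re} := isClosed_le continuous_const continuous_re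
  have h2 : IsClosed {z : ℂ | z.re ≤ 1} := isClosed_le continuous_re continuous_const
  have h3 : IsClosed {z : ℂ | Y1 ≤ z.im} := isClosed_le continuous_const continuous_im
  have h4 : IsClosed {z : ℂ | z.im ≤ Y2} := isClosed_le continuous_im continuous_const
  have h5 : closure (RR Y1 Y2) ⊆ {z : ℂ | 0 ≤ z.re} ∩ ({z : ℂ | z.re ≤ 1} ∩ ({z : ℂ | Y1 ≤ z.im} ∩ {z : ℂ | z.im ≤ Y2})) :=
    closure_minimal (fun w hw => ⟨hw.1.le, hw.2.1.le, hw.2.2.1.le, hw.2.2.2.le⟩)
      (h1.inter (h2.inter (h3.inter h4)))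
  exact h5 hz

lemma RR_bdd (Y1 Y2 : ℝ) : Bornology.IsBounded (RR Y1 Y2) := by
  rw [isBounded_iff_forall_norm_le]
  refine ⟨1 + (|Y1| + |Y2|), fun z hz => ?_⟩
  refine (Complex.norm_le_abs_re_add_abs_im z).trans ?_
  have h1 : |z.re| ≤ 1 := by rw [abs_le]; constructor <;> linarith [hz.1, hz.2.1]
  have h2 : |z.im| ≤ |Y1| + |Y2| := by
    rw [abs_le]
    constructor
    · linarith [hz.2.2.1, neg_abs_le Y1, abs_nonneg Y2]
    · linarith [hz.2.2.2, le_abs_self Y2, abs_nonneg Y1]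
  linarith

lemma RR_frontier {Y1 Y2 : ℝ} {z : ℂ} (hz : z ∈ frontier (RR Y1 Y2)) :
    0 ≤ z.re ∧ z.re ≤ 1 ∧ Y1 ≤ z.im ∧ z.im ≤ Y2 ∧ (z.re = 0 ∨ z.re = 1 ∨ z.im = Y1 ∨ z.im = Y2) := by
  obtain ⟨h1, h2, h3, h4⟩ := RR_closure hz.1
  refine ⟨h1, h2, h3, h4, ?_⟩
  have h5 : z ∉ RR Y1 Y2 := by
    have := hz.2
    rwa [(RR_open Y1 Y2).interior_eq] at this
  by_contra hcon
  push Not at hcon
  exact h5 ⟨lt_of_le_of_ne h1 (Ne.symm hcon.1), lt_of_le_of_ne h2 hcon.2.1,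
    lt_of_le_of_ne h3 (Ne.symm hcon.2.2.1), lt_of_le_of_ne h4 hcon.2.2.2⟩

/-- the hypothesis on the three outer sides of the rectangle -/
def Dom (G : ℂ → ℂ) (Y1 Y2 : ℝ) : Prop := ∀ z : ℂ, 0 < z.re → z.re ≤ 1 → Y1 ≤ z.im → z.im ≤ Y2 →
  (z.re = 1 ∨ z.im = Y1 ∨ z.im = Y2) → ‖sh G z‖ < ‖G z‖

lemma FF_ent {G : ℂ → ℂ} (hG : Differentiable ℂ G) {Y1 Y2 : ℝ} (hY : Y1 ≤ Y2) (hD : Dom G Y1 Y2) {u : ℂ}
    (hu : u ≠ 0) : Ent (FF u G) := by
  refine ⟨FF_diff hG u, ⟨1 + Y1 * I, fun h => ?_⟩⟩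
  have h1 := hD (1 + Y1 * I) (by simp) (by simp) (by simp) (by simpa using hY) (Or.inl (by simp))
  unfold FF at h
  have h2 : u * G (1 + Y1 * I) = -((starRingEnd ℂ) u * sh G (1 + Y1 * I)) := by linear_combination h
  have h3 := congrArg norm h2
  rw [norm_neg, norm_mul, norm_mul, Complex.norm_conj] at h3
  have h4 : 0 < ‖u‖ := norm_pos_iff.2 hu
  have h5 := mul_left_cancel₀ h4.ne' h3
  linarith

/-- nonvanishing combinations on the boundary -/
lemma combo_ne {G : ℂ → ℂ} {Y1 Y2 : ℝ} (hD : Dom G Y1 Y2)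
    (h0 : ∀ z : ℂ, z.re = 0 → Y1 ≤ z.im → z.im ≤ Y2 → G z ≠ 0) {u : ℂ} (hu : u ≠ 0) {t : ℝ} (ht0 : 0 ≤ t)
    (ht1 : t < 1) {z : ℂ} (a1 : 0 ≤ z.re) (a2 : z.re ≤ 1) (a3 : Y1 ≤ z.im) (a4 : z.im ≤ Y2)
    (a5 : z.re = 0 ∨ z.re = 1 ∨ z.im = Y1 ∨ z.im = Y2) :
    u * G z + (t : ℂ) * ((starRingEnd ℂ) u * sh G z) ≠ 0 := by
  have hu0 : 0 < ‖u‖ := norm_pos_iff.2 hu
  intro h
  have h2 : u * G z = -((t : ℂ) * ((starRingEnd ℂ) u * sh G z)) := by linear_combination h
  have h3 := congrArg norm h2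
  rw [norm_neg, norm_mul, norm_mul, norm_mul, Complex.norm_conj, Complex.norm_real, Real.norm_eq_abs,
    abs_of_nonneg ht0] at h3
  have h4 : ‖G z‖ = t * ‖sh G z‖ := by
    have : ‖u‖ * ‖G z‖ = ‖u‖ * (t * ‖sh G z‖) := by rw [h3]; ring
    exact mul_left_cancel₀ hu0.ne' this
  rcases a1.eq_or_lt with hre | hre
  · have h5 := norm_sh_line G (z := z) hre.symm
    rw [h5] at h4
    have h6 : 0 < ‖G z‖ := norm_pos_iff.2 (h0 z hre.symm a3 a4)
    nlinarith
  · have h5 := hD z hre a2 a3 a4 (by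
      rcases a5 with h | h | h | h
      · exact absurd h hre.ne'
      · exact Or.inl h
      · exact Or.inr (Or.inl h)
      · exact Or.inr (Or.inr h))
    have h6 : t * ‖sh G z‖ ≤ 1 * ‖sh G z‖ := mul_le_mul_of_nonneg_right ht1.le (norm_nonneg _)
    linarith

/-- fewer zeros than `G` to the right of the line -/
theorem loc1 {G : ℂ → ℂ} (hG : Ent G) {Y1 Y2 : ℝ} (hY : Y1 ≤ Y2) (hD : Dom G Y1 Y2)
    (h0 : ∀ z : ℂ, z.re = 0 → Y1 ≤ z.im → z.im ≤ Y2 → G z ≠ 0) {u : ℂ} (hu : u ≠ 0) :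
    cnt (FF u G) (RR Y1 Y2) ≤ cnt G (RR Y1 Y2) := by
  have hFe := FF_ent hG.diff hY hD hu
  obtain ⟨δ, hδ, hst⟩ := stab hFe (RR_open Y1 Y2) (RR_bdd Y1 Y2)
  obtain ⟨M, hM⟩ : ∃ M : ℝ, ∀ w ∈ closure (RR Y1 Y2), ‖(starRingEnd ℂ) u * sh G w‖ ≤ M :=
    (RR_bdd Y1 Y2).isCompact_closure.exists_bound_of_continuousOn
      (f := fun w => (starRingEnd ℂ) u * sh G w) (continuous_const.mul (sh_diff hG.diff).continuous).continuousOn
  obtain ⟨r, hr0, hr1, hrδ⟩ : ∃ r : ℝ, 0 ≤ r ∧ r < 1 ∧ (1 - r) * |M| < δ := by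
    refine ⟨max 0 (1 - δ / (2 * (|M| + 1))), le_max_left _ _, ?_, ?_⟩
    · apply max_lt one_pos
      have : 0 < δ / (2 * (|M| + 1)) := by positivity
      linarith
    · have h1 : 1 - max 0 (1 - δ / (2 * (|M| + 1))) ≤ δ / (2 * (|M| + 1)) := by
        have := le_max_right 0 (1 - δ / (2 * (|M| + 1)))
        linarith
      have h2 : (1 - max 0 (1 - δ / (2 * (|M| + 1)))) * |M| ≤ δ / (2 * (|M| + 1)) * |M| :=
        mul_le_mul_of_nonneg_right h1 (abs_nonneg _)
      have h3 : δ / (2 * (|M| + 1)) * |M| < δ := by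
        rw [div_mul_eq_mul_div, div_lt_iff₀ (by positivity)]
        nlinarith [abs_nonneg M]
      linarith
  set f : ℝ → ℂ → ℂ := fun s z => u * G z + ((s * r : ℝ) : ℂ) * ((starRingEnd ℂ) u * sh G z) with hf
  have hsr : ∀ s ∈ Icc (0 : ℝ) 1, 0 ≤ s * r ∧ s * r < 1 := by
    intro s hs
    refine ⟨mul_nonneg hs.1 hr0, ?_⟩
    have : s * r ≤ 1 * r := mul_le_mul_of_nonneg_right hs.2 hr0
    linarith
  have hfd : ∀ s, Differentiable ℂ (f s) := fun s =>
    (hG.diff.const_mul u).add (((sh_diff hG.diff).const_mul _).const_mul _)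
  have hfe : ∀ s ∈ Icc (0 : ℝ) 1, Ent (f s) := by
    intro s hs
    refine ⟨hfd s, ⟨1 + Y1 * I, ?_⟩⟩
    exact combo_ne hD h0 hu (hsr s hs).1 (hsr s hs).2 (by simp) (by simp) (by simp) (by simpa using hY)
      (Or.inr (Or.inl (by simp)))
  have hp := path hfe (by
    have h1 := hG.diff.continuous
    have h2 := (sh_diff hG.diff).continuous
    simp only [hf]
    fun_prop) (RR_open Y1 Y2) (RR_bdd Y1 Y2) (by
    intro s hs z hz
    obtain ⟨a1, a2, a3, a4, a5⟩ := RR_frontier hz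
    exact combo_ne hD h0 hu (hsr s hs).1 (hsr s hs).2 a1 a2 a3 a4 a5)
  have e0 : cnt (f 0) (RR Y1 Y2) = cnt G (RR Y1 Y2) := by
    have : f 0 = fun z => u * G z := by
      funext z; simp only [hf]; simp
    rw [this, cnt_const_mul hG hu]
  rw [← e0, hp]
  refine (hst (f 1) (hfe 1 (right_mem_Icc.2 zero_le_one)) fun w hw => ?_).1
  have e1 : f 1 w - FF u G w = -(((1 - r : ℝ) : ℂ) * ((starRingEnd ℂ) u * sh G w)) := by
    simp only [hf, FF]; push_cast; ring
  rw [e1, norm_neg, norm_mul, Complex.norm_real, Real.norm_eq_abs, abs_of_pos (by linarith)]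
  refine lt_of_le_of_lt ?_ hrδ
  exact mul_le_mul_of_nonneg_left ((hM w hw).trans (le_abs_self M)) (by linarith)

end

end Pool.Agent.K3h34.DX
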