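import Pool.Agent.K3h34.DX.Loc
import Pool.Agent.Y22.LM10

set_option autoImplicit false

/-!
# The strict inequality `|XX (z + h)| > |XX (z - h)|` for `Re z > 0`
-/

namespace Pool.Agent.K3h34.DX

open Complex Filter Topology Metric Set Polynomial
open Pool.Agent.H24R2.JP
open Pool.Agent.Y22.LM (q q_eq q_nonneg norm_eval_pow4 xx_approx exists_zero XX_top)

noncomputable section

lemma q_diff (β u x h : ℝ) : q β u (x + h) - q β u (x - h) = 8 * x * h * (h ^ 2 + x ^ 2 + u ^ 2 - β ^ 2) := by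
  rw [q_eq, q_eq]; ring

lemma XX_ent : Ent XX := ⟨B1h.XX_diff, ⟨1 / 2, by rw [Zer.XX_half]; norm_num⟩⟩

/-- a zero of `XX` is eventually a zero of the approximants -/
lemma persist {p : ℕ → ℂ[X]} (h1 : ∀ (N : ℕ) (z : ℂ), (p N).eval z = 0 → XX z = 0)
    (h2 : TendstoLocallyUniformly (fun (N : ℕ) (z : ℂ) => (p N).eval z) XX atTop) {b : ℂ} (hb : XX b = 0) :
    ∀ᶠ N in atTop, (p N).eval b = 0 ∧ p N ≠ 0 := by
  classical
  obtain ⟨Z, hZ⟩ := XX_ent.exS (U := ball b 1) isBounded_ball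
  obtain ⟨r, ⟨hr, hr1⟩, hr0⟩ : ∃ r : ℝ, ((∀ z ∈ Z, z ≠ b → z ∉ ball b r) ∧ r < 1) ∧ 0 < r := by
    have hev : ∀ᶠ r : ℝ in 𝓝[>] 0, ∀ z ∈ Z, z ≠ b → z ∉ ball b r := by
      rw [Filter.eventually_all_finset]
      intro z _
      by_cases hzb : z = b
      · exact Eventually.of_forall fun r h => absurd hzb h
      · have : 0 < dist z b := dist_pos.2 hzb
        filter_upwards [Ioo_mem_nhdsGT this] with r hr _
        rw [mem_ball, not_lt]
        exact hr.2.le
    obtain ⟨r, ⟨a, c⟩, d⟩ := ((hev.and (Ioo_mem_nhdsGT (show (0 : ℝ) < 1 by norm_num))).and self_mem_nhdsWithin).exists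
    exact ⟨r, ⟨a, c.2⟩, d⟩
  obtain ⟨δ, hδ, hst⟩ := stab XX_ent (U := ball b r) isOpen_ball isBounded_ball
  have h3 : ∀ᶠ N in atTop, ∀ w ∈ closure (ball b r), ‖(p N).eval w - XX w‖ < δ := by
    have h4 := (tendstoLocallyUniformly_iff_forall_isCompact.1 h2) (closure (ball b r))
      isBounded_ball.isCompact_closure
    rw [Metric.tendstoUniformlyOn_iff] at h4
    filter_upwards [h4 δ hδ] with N hN w hw
    have := hN w hw
    rwa [dist_comm, dist_eq_norm] at this
  have h5 : ∀ᶠ N in atTop, (p N).eval (1 / 2) ≠ 0 := by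
    have h6 := (tendstoLocallyUniformlyOn_univ.mpr h2).tendsto_at (Set.mem_univ (1 / 2 : ℂ))
    refine h6.eventually_ne ?_
    rw [Zer.XX_half]; norm_num
  filter_upwards [h3, h5] with N hN hN2
  have hne : p N ≠ 0 := by
    intro h0
    rw [h0, Polynomial.eval_zero] at hN2
    exact hN2 rfl
  refine ⟨?_, hne⟩
  have hEnt : Ent (fun z => (p N).eval z) := ⟨(p N).differentiable, ⟨1 / 2, hN2⟩⟩
  have h6 := (hst _ hEnt hN).1
  have h7 : 1 ≤ cnt XX (ball b r) := by
    rw [cnt_eq XX_ent.diff Z (fun z hz h0 => (hZ z).2 ⟨subset_closure (ball_subset_ball hr1.le hz), h0⟩)]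
    have h8 : b ∈ Z.filter (fun z => z ∈ ball b r) :=
      Finset.mem_filter.2 ⟨(hZ b).2 ⟨subset_closure (mem_ball_self one_pos), hb⟩, mem_ball_self hr0⟩
    exact (ord_pos XX_ent hb).trans (Finset.single_le_sum (f := fun z => analyticOrderNatAt XX z)
      (fun _ _ => Nat.zero_le _) h8)
  obtain ⟨z, hz, hz0⟩ : ∃ z ∈ ball b r, (p N).eval z = 0 := by
    by_contra hcon
    push Not at hcon
    have h8 : cnt (fun z => (p N).eval z) (ball b r) = 0 := by
      unfold cnt
      apply finsum_mem_eq_zero_of_forall_eq_zero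
      intro z hz
      exact ord_zero hEnt.diff (hcon z hz)
    omega
  have h9 := h1 N z hz0
  by_cases hzb : z = b
  · rw [← hzb]; exact hz0
  · exact absurd hz (hr z ((hZ z).2 ⟨subset_closure (ball_subset_ball hr1.le hz), h9⟩) hzb)

theorem strict {t x h : ℝ} (hx : 0 < x) (hh : 0 < h)
    (hb : ∀ b : ℂ, XX b = 0 → b.re ^ 2 < h ^ 2 + x ^ 2 + (t - b.im) ^ 2) :
    ‖XX (((x - h : ℝ) : ℂ) + t * I)‖ < ‖XX (((x + h : ℝ) : ℂ) + t * I)‖ := by
  classical
  obtain ⟨p, hp1, hp2, hp3⟩ := xx_approx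
  obtain ⟨b1, hb1⟩ := exists_zero
  have hs := hb b1 hb1
  set A := q b1.re (t - b1.im) (x - h) with hA
  set B := q b1.re (t - b1.im) (x + h) with hB
  have hA0 : 0 ≤ A := q_nonneg _ _ _
  have hAB : A < B := by
    have h1 := q_diff b1.re (t - b1.im) x h
    have h2 : 0 < 8 * x * h * (h ^ 2 + x ^ 2 + (t - b1.im) ^ 2 - b1.re ^ 2) := by
      have : 0 < h ^ 2 + x ^ 2 + (t - b1.im) ^ 2 - b1.re ^ 2 := by linarith
      positivity
    linarith
  set δ := (B - A) / (A + 1) with hδ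
  have hδ0 : 0 < δ := div_pos (by linarith) (by linarith)
  have hδA : A * (1 + δ) ≤ B := by
    have h1 : A * δ ≤ B - A := by
      rw [hδ, mul_div_assoc', div_le_iff₀ (by linarith)]
      nlinarith
    linarith
  have hpt : ∀ z : ℂ, Tendsto (fun N => ‖(p N).eval z‖) atTop (𝓝 ‖XX z‖) := fun z =>
    ((tendstoLocallyUniformlyOn_univ.mpr hp2).tendsto_at (Set.mem_univ z)).norm
  have hlim : ‖XX (((x - h : ℝ) : ℂ) + t * I)‖ ^ 4 * (1 + δ) ≤ ‖XX (((x + h : ℝ) : ℂ) + t * I)‖ ^ 4 := by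
    refine le_of_tendsto_of_tendsto (((hpt _).pow 4).mul_const _) ((hpt _).pow 4) ?_
    filter_upwards [persist hp1 hp2 hb1] with N hN
    have hsym : ∀ h : ℝ, ‖(p N).eval (-h + t * I : ℂ)‖ = ‖(p N).eval (h + t * I : ℂ)‖ := fun h => hp3 N h t
    rw [norm_eval_pow4 hsym, norm_eval_pow4 hsym, mul_assoc]
    refine mul_le_mul_of_nonneg_left ?_ (by positivity)
    set c : ℂ → ℝ := fun b => if b = b1 then 1 + δ else 1 with hc
    have hc1 : ∀ b, 1 ≤ c b := by
      intro b; simp only [hc]; split_ifs <;> linarith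
    have hmem : b1 ∈ (p N).roots := (Polynomial.mem_roots hN.2).2 hN.1
    have hcp : 1 + δ ≤ ((p N).roots.map c).prod := by
      obtain ⟨R, hR⟩ := Multiset.exists_cons_of_mem hmem
      rw [hR, Multiset.map_cons, Multiset.prod_cons]
      have e1 : c b1 = 1 + δ := by simp [hc]
      rw [e1]
      have e2 : 1 ≤ (R.map c).prod := by
        apply Multiset.one_le_prod
        intro y hy
        rw [Multiset.mem_map] at hy
        obtain ⟨b, _, rfl⟩ := hy
        exact hc1 b
      nlinarith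
    have e0 : 0 ≤ ((p N).roots.map fun b => q b.re (t - b.im) (x - h)).prod :=
      Multiset.prod_nonneg (by
        intro a ha
        rw [Multiset.mem_map] at ha
        obtain ⟨b, _, rfl⟩ := ha
        exact q_nonneg _ _ _)
    calc ((p N).roots.map fun b => q b.re (t - b.im) (x - h)).prod * (1 + δ)
        ≤ ((p N).roots.map fun b => q b.re (t - b.im) (x - h)).prod * ((p N).roots.map c).prod :=
          mul_le_mul_of_nonneg_left hcp e0
      _ = ((p N).roots.map fun b => q b.re (t - b.im) (x - h) * c b).prod := by rw [Multiset.prod_map_mul]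
      _ ≤ ((p N).roots.map fun b => q b.re (t - b.im) (x + h)).prod := by
          refine Multiset.prod_map_le_prod_map₀ _ _ (fun b _ => mul_nonneg (q_nonneg _ _ _)
            (by linarith [hc1 b])) fun b hbr => ?_
          by_cases hbb : b = b1
          · subst hbb
            simp only [hc, if_pos rfl]
            exact hδA
          · simp only [hc, if_neg hbb, mul_one]
            have h1 := q_diff b.re (t - b.im) x h
            have h2 := hb b (hp1 N b (Polynomial.isRoot_of_mem_roots hbr))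
            have h3 : 0 ≤ 8 * x * h * (h ^ 2 + x ^ 2 + (t - b.im) ^ 2 - b.re ^ 2) := by
              have : 0 ≤ h ^ 2 + x ^ 2 + (t - b.im) ^ 2 - b.re ^ 2 := by linarith
              positivity
            linarith
  have hne : XX (((x + h : ℝ) : ℂ) + t * I) ≠ 0 := by
    intro h0
    have h1 := hb _ h0
    simp at h1
    nlinarith [mul_pos hx hh]
  have hpos : 0 < ‖XX (((x + h : ℝ) : ℂ) + t * I)‖ := norm_pos_iff.2 hne
  by_contra hcon
  push Not at hcon
  have h1 : ‖XX (((x + h : ℝ) : ℂ) + t * I)‖ ^ 4 ≤ ‖XX (((x - h : ℝ) : ℂ) + t * I)‖ ^ 4 := by gcongr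
  have h2 : 0 < ‖XX (((x + h : ℝ) : ℂ) + t * I)‖ ^ 4 := by positivity
  nlinarith

/-- the shifted function -/
lemma sh_XX (h : ℝ) (z : ℂ) : sh (fun z => XX (z + h)) z = XX (z - h) := by
  unfold sh
  simp only
  rw [← B1h.XX_conj]
  have e : (starRingEnd ℂ) (-(starRingEnd ℂ) z + h) = -(z - h) := by
    rw [map_add, map_neg, Complex.conj_conj, Complex.conj_ofReal]; ring
  rw [e, Zer.XX_even]

/-- the inequality in terms of `z` -/
theorem strict' {z : ℂ} {h : ℝ} (hx : 0 < z.re) (hh : 0 < h)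
    (hb : ∀ b : ℂ, XX b = 0 → b.re ^ 2 < h ^ 2 + z.re ^ 2 + (z.im - b.im) ^ 2) :
    ‖XX (z - h)‖ < ‖XX (z + h)‖ := by
  have h1 := strict (t := z.im) hx hh hb
  have e1 : (((z.re - h : ℝ) : ℂ) + z.im * I) = z - h := by
    apply Complex.ext <;> simp
  have e2 : (((z.re + h : ℝ) : ℂ) + z.im * I) = z + h := by
    apply Complex.ext <;> simp
  rwa [e1, e2] at h1

end

end Pool.Agent.K3h34.DX
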